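import Pool.Agent.Helper867.FB.Local
import Pool.Agent.Helper930.FF.Per

set_option autoImplicit false

noncomputable section

namespace H867.FB
open H930.FF

theorem per_thm : PerThm := by
  intro al N lam r r1 sg ep gd hN hl hl1 hr hE hgd G X P F h
  exact ⟨_, _, _, _, per_stage al N lam r r1 sg ep gd hN hl hl1 hr hE hgd G X P F h.C2 h.supp h.zero
    h.a0 h.s0 h.s1 h.s2 h.Gx h.canon h.box h.cone h.pz h.pc h.core⟩

/-- BLOCK module of MP_ff4374_an. -/
theorem block : BlockThm := block_of local_thm per_thm

end H867.FB
end
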