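import Pool.Agent.Helper930.FF.Defs

/-!
BLOCK module of MP_ff4374_an (helper867): definitions.
`z,g` = scaled comoving position / label, `a` = amplitude parameter, `b, κ, τ` = values of
`b(t), k(t)/N, t/N`, `d` = slowness of the cut-off.
-/

set_option autoImplicit false
open Topology

noncomputable section
namespace H867.FB
open H930.FF

def amp (a : ℝ) : ℝ := Real.smoothTransition a
def chi (u : ℝ) : ℝ := Real.smoothTransition (2 - u)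
def sS (d z g a : ℝ) : ℝ := amp a * chi (d * Real.log (1 + z ^ 2 + g ^ 2))
def QQ (d z g a b : ℝ) : ℝ := Real.sqrt (1 + sS d z g a * b)
def SS (d z g a b κ : ℝ) : ℝ := g * z * QQ d z g a b - g ^ 2 / 2 * sS d z g a * κ
def TT (d z g a b τ : ℝ) : ℝ := sS d z g a * g * (z / (2 * QQ d z g a b) + g * τ / 2)

/-- partial derivatives of a curried function of two variables -/
def pz (f : ℝ → ℝ → ℝ) : ℝ → ℝ → ℝ := fun z g => deriv (fun z' => f z' g) z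
def pg (f : ℝ → ℝ → ℝ) : ℝ → ℝ → ℝ := fun z g => deriv (fun g' => f z g') g
def om (S : ℝ → ℝ → ℝ) (τ : ℝ) : ℝ → ℝ → ℝ :=
  fun z g => (1 + τ * pz (pz S) z g) / pg (pz S) z g
/-- derivative in the direction `∂_p` at fixed `x = z + τ p`, where `p = S_z` -/
def DD (S : ℝ → ℝ → ℝ) (τ : ℝ) (f : ℝ → ℝ → ℝ) : ℝ → ℝ → ℝ :=
  fun z g => -τ * pz f z g + om S τ z g * pg f z g
def SSa (d a b κ : ℝ) : ℝ → ℝ → ℝ := fun z g => SS d z g a b κ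
def TTa (d a b τ : ℝ) : ℝ → ℝ → ℝ := fun z g => TT d z g a b τ

/-- A stage before Γ-periodisation. -/
structure LStage (N lam r1 sg ep : ℝ) (gd : Set ℤ)
    (G : ℝ × ℝ × ℝ × ℝ → ℝ) (X P F : ℝ → ℝ × ℝ × ℝ → ℝ) : Prop where
  C2 : ContDiff ℝ 2 G
  supp : ∀ t x p a : ℝ, sg ≤ |p| → G (t, x, p, a) = 0
  zero : ∀ t x a : ℝ, G (t, x, 0, a) = 0
  a0 : ∀ t x p a : ℝ, a ≤ 0 → G (t, x, p, a) = 0
  s0 : ∀ z, |G z| ≤ ep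
  s1 : ∀ z, ‖fderiv ℝ G z‖ ≤ ep
  s2 : ∀ z, ‖fderiv ℝ (fderiv ℝ G) z‖ ≤ ep
  Gx : ∀ t x p a : ℝ, ((∀ i ∈ gd, ¬ ((i : ℝ) ≤ t ∧ t ≤ i + 1)) ∨ r1 < |x|) → G (t, x, p, a) = 0
  canon : ∀ a, Canon (sl G a) (X a) (P a) (F a)
  box : ∀ a z, (X a z = z.2.1 ∧ P a z = z.2.2 ∧ F a z = 0) ∨
    (|z.1| ≤ 2 * N ∧ |z.2.1| ≤ r1 ∧ |X a z| ≤ r1)
  cone : ∀ a z σ, |σ| ≤ 1 / (1000 * N) → 0 < fderiv ℝ (X a) z (0, 1, σ) ∧
    |fderiv ℝ (P a) z (0, 1, σ)| ≤ 1 / N * fderiv ℝ (X a) z (0, 1, σ)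
  pz : ∀ a t θ, P a (t, θ, 0) = 0
  pc : ∀ a z, P a z = z.2.2 ∨ (|z.2.2| ≤ sg ∧ |P a z| ≤ sg)
  core : ∀ t θ, |t| ≤ N / 2 → |θ| ≤ lam / 2000 → X 1 (t, θ, 0) = 2000 * θ

/-- PERIODISATION (sub-module): every local stage can be Γ-periodised. -/
def PerThm : Prop :=
  ∀ (al N lam r r1 sg ep : ℝ) (gd : Set ℤ), 1 ≤ N → 0 < lam → lam ≤ r1 → r1 < r → Emb al N r →
    (∀ i ∈ gd, -(2 * N) ≤ (i : ℝ) ∧ (i : ℝ) + 1 ≤ 2 * N) →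
    ∀ (G : ℝ × ℝ × ℝ × ℝ → ℝ) (X P F : ℝ → ℝ × ℝ × ℝ → ℝ), LStage N lam r1 sg ep gd G X P F →
    ∃ (G' : ℝ × ℝ × ℝ × ℝ → ℝ) (X' P' F' : ℝ → ℝ × ℝ × ℝ → ℝ),
      Stage al N lam r sg ep gd G' X' P' F'

/-- LOCAL block (sub-module). -/
def LocalThm : Prop :=
  ∀ Cb : ℝ, ∃ (d0 K : ℝ) (Cd : ℝ → ℝ), 0 < d0 ∧ 0 < K ∧
    ∀ d : ℝ, 0 < d → d ≤ d0 → ∀ (N lam : ℝ) (gd : Set ℤ) (b k : ℝ → ℝ),
      1 ≤ N → 0 < lam → lam ≤ 1 → Prof Cb N gd b k →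
      ∃ (G : ℝ × ℝ × ℝ × ℝ → ℝ) (X P F : ℝ → ℝ × ℝ × ℝ → ℝ),
        LStage N lam (7 * Real.exp (1 / d) * lam) (3 * Real.exp (1 / d) * lam / N)
          (K * d + Cd d / N) gd G X P F

theorem block_of (hL : LocalThm) (hP : PerThm) : BlockThm := by
  intro Cb
  obtain ⟨d0, K, Cd, h0, hK, h⟩ := hL Cb
  refine ⟨d0, K, Cd, h0, hK, ?_⟩
  intro d hd hd0 al N lam gd b k hN hl hl1 hp hE
  obtain ⟨G, X, P, F, hS⟩ := h d hd hd0 N lam gd b k hN hl hl1 hp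
  have he : 1 ≤ Real.exp (1 / d) := Real.one_le_exp (by positivity)
  refine hP al N lam _ (7 * Real.exp (1 / d) * lam) _ _ gd hN hl ?_ ?_ hE ?_ G X P F hS
  · nlinarith
  · nlinarith [mul_pos (Real.exp_pos (1 / d)) hl]
  · intro i hi
    rcases hp.gdr i hi with ⟨h1, h2⟩ | ⟨h1, h2⟩
    · constructor <;> linarith
    · constructor <;> linarith

end H867.FB
end
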