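import Pool.Agent.Helper867.FB.Defs

/-!
BLOCK module of MP_ff4374_an (helper867): definitions for the analytic part.
-/

set_option autoImplicit false
open Topology Set
open scoped ContDiff

noncomputable section
namespace H867.FB
open H930.FF

/-! The finite dimensional family used in the soft estimates. -/
def sF (δ A μ tt z g : ℝ) : ℝ :=
  A * chi (μ + δ * Real.log (tt + (1 - tt) * (z ^ 2 + g ^ 2)))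
def QF (δ A b μ tt z g : ℝ) : ℝ := Real.sqrt (1 + sF δ A μ tt z g * b)
def SF (δ A b κ μ tt : ℝ) : ℝ → ℝ → ℝ :=
  fun z g => g * z * QF δ A b μ tt z g - g ^ 2 / 2 * sF δ A μ tt z g * κ
def TF (δ A b μ tt τ : ℝ) : ℝ → ℝ → ℝ :=
  fun z g => sF δ A μ tt z g * g * (z / (2 * QF δ A b μ tt z g) + g * τ / 2)

/-- parameters `(δ, A, b, κ, μ, tt, τ)` -/
abbrev Y7 := ℝ × ℝ × ℝ × ℝ × ℝ × ℝ × ℝ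

/-- the point `(z, g, (δ, A, b, κ, μ, tt, τ))` -/
def pt (δ A b κ μ tt τ z g : ℝ) : ℝ × ℝ × Y7 := (z, g, δ, A, b, κ, μ, tt, τ)

def SFu (v : ℝ × ℝ × Y7) : ℝ :=
  SF v.2.2.1 v.2.2.2.1 v.2.2.2.2.1 v.2.2.2.2.2.1 v.2.2.2.2.2.2.1 v.2.2.2.2.2.2.2.1 v.1 v.2.1
def TFu (v : ℝ × ℝ × Y7) : ℝ :=
  TF v.2.2.1 v.2.2.2.1 v.2.2.2.2.1 v.2.2.2.2.2.2.1 v.2.2.2.2.2.2.2.1 v.2.2.2.2.2.2.2.2 v.1 v.2.1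
def sFu (v : ℝ × ℝ × Y7) : ℝ :=
  sF v.2.2.1 v.2.2.2.1 v.2.2.2.2.2.2.1 v.2.2.2.2.2.2.2.1 v.1 v.2.1
def QFu (v : ℝ × ℝ × Y7) : ℝ :=
  QF v.2.2.1 v.2.2.2.1 v.2.2.2.2.1 v.2.2.2.2.2.2.1 v.2.2.2.2.2.2.2.1 v.1 v.2.1

/-- open domain of smoothness of the family -/
def OF : Set (ℝ × ℝ × Y7) :=
  {v | 0 < v.2.2.2.2.2.2.2.1 + (1 - v.2.2.2.2.2.2.2.1) * (v.1 ^ 2 + v.2.1 ^ 2) ∧
    0 < 1 + sFu v * v.2.2.2.2.1}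

/-- the compact set of parameters -/
structure InK (A b κ μ tt τ z g : ℝ) : Prop where
  A0 : 0 ≤ A
  A1 : A ≤ 1
  b0 : 1 / 8000000 - 1 ≤ b
  b3 : b ≤ 3
  k4 : |κ| ≤ 4
  m0 : 0 ≤ μ
  m4 : μ ≤ 4
  t0 : 0 ≤ tt
  t1 : tt ≤ 1 / 2
  ta : |τ| ≤ 3
  zg : z ^ 2 + g ^ 2 ≤ 1
  lo : 1 / 2 ≤ tt + (1 - tt) * (z ^ 2 + g ^ 2)

def Pz (d z g a b κ : ℝ) : ℝ := pz (SSa d a b κ) z g
def Th (d z g a b κ : ℝ) : ℝ := pg (SSa d a b κ) z g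

/-- `d` is small: all uniform estimates hold. -/
structure Good (d K : ℝ) : Prop where
  d0 : 0 < d
  d1 : d ≤ 1
  K0 : 0 < K
  Kd : K * d ≤ 1 / 10 ^ 6
  zz : ∀ a b κ z g, 1 / 8000000 - 1 ≤ b → b ≤ 3 → |κ| ≤ 4 →
    |pz (pz (SSa d a b κ)) z g| ≤ K * d
  zg : ∀ a b κ z g, 1 / 8000000 - 1 ≤ b → b ≤ 3 → |κ| ≤ 4 →
    |pg (pz (SSa d a b κ)) z g - QQ d z g a b| ≤ K * d
  gg : ∀ a b κ z g, 1 / 8000000 - 1 ≤ b → b ≤ 3 → |κ| ≤ 4 →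
    |pg (pg (SSa d a b κ)) z g + sS d z g a * κ| ≤ K * d
  dd : ∀ a b κ τ z g, 1 / 8000000 - 1 ≤ b → b ≤ 3 → |κ| ≤ 4 → |τ| ≤ 3 →
    |DD (SSa d a b κ) τ (DD (SSa d a b κ) τ (TTa d a b τ)) z g| ≤ K * d

/-- open parameter box -/
def InB (b κ : ℝ) : Prop := 1 / 8000000 - 1 < b ∧ b < 3 ∧ |κ| < 4

/-- `Γ(z,p,a,b,κ)` is the inverse of `g ↦ Pz d z g a b κ`. -/
structure GamOK (d : ℝ) (Γ : ℝ × ℝ × ℝ × ℝ × ℝ → ℝ) : Prop where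
  r : ∀ z p a b κ, InB b κ → Pz d z (Γ (z, p, a, b, κ)) a b κ = p
  l : ∀ z g a b κ, InB b κ → Γ (z, Pz d z g a b κ, a, b, κ) = g
  sm : ∀ z p a b κ, InB b κ → ContDiffAt ℝ ∞ Γ (z, p, a, b, κ)

/-- `ζ(y,g,a,b,κ)` is the inverse of `z ↦ Th d z g a b κ`. -/
structure ZetOK (d : ℝ) (ζ : ℝ × ℝ × ℝ × ℝ × ℝ → ℝ) : Prop where
  r : ∀ y g a b κ, InB b κ → Th d (ζ (y, g, a, b, κ)) g a b κ = y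
  l : ∀ z g a b κ, InB b κ → ζ (Th d z g a b κ, g, a, b, κ) = z
  sm : ∀ y g a b κ, InB b κ → ContDiffAt ℝ ∞ ζ (y, g, a, b, κ)

/-- scaled perturbation; `y = (z, p, a, b, κ, τ)` -/
def Tc (d : ℝ) (Γ : ℝ × ℝ × ℝ × ℝ × ℝ → ℝ) (y : ℝ × ℝ × ℝ × ℝ × ℝ × ℝ) : ℝ :=
  TT d y.1 (Γ (y.1, y.2.1, y.2.2.1, y.2.2.2.1, y.2.2.2.2.1)) y.2.2.1 y.2.2.2.1 y.2.2.2.2.2

/-- range of parameters actually used; `y = (z, p, a, b, κ, τ)` -/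
def Reg (y : ℝ × ℝ × ℝ × ℝ × ℝ × ℝ) : Prop :=
  1 / 4000000 - 1 ≤ y.2.2.2.1 ∧ y.2.2.2.1 ≤ 2 ∧ |y.2.2.2.2.1| ≤ 3

/-- the perturbation of a local stage -/
def Gl (N lam : ℝ) (b k : ℝ → ℝ) (T : ℝ × ℝ × ℝ × ℝ × ℝ × ℝ → ℝ) : ℝ × ℝ × ℝ × ℝ → ℝ :=
  fun w => -(lam ^ 2 / N) * deriv b w.1 *
    T ((w.2.1 - w.1 * w.2.2.1) / lam, w.2.2.1 * N / lam, w.2.2.2, b w.1, k w.1 / N, w.1 / N)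

def ZL (ζ : ℝ × ℝ × ℝ × ℝ × ℝ → ℝ) (N lam : ℝ) (b k : ℝ → ℝ) (a : ℝ) (w : ℝ × ℝ × ℝ) : ℝ :=
  ζ ((w.2.1 - w.1 * w.2.2) / lam, w.2.2 * N / lam, a, b w.1, k w.1 / N)
def PL (d : ℝ) (ζ : ℝ × ℝ × ℝ × ℝ × ℝ → ℝ) (N lam : ℝ) (b k : ℝ → ℝ) (a : ℝ) (w : ℝ × ℝ × ℝ) : ℝ :=
  lam / N * Pz d (ZL ζ N lam b k a w) (w.2.2 * N / lam) a (b w.1) (k w.1 / N)
def XL (d : ℝ) (ζ : ℝ × ℝ × ℝ × ℝ × ℝ → ℝ) (N lam : ℝ) (b k : ℝ → ℝ) (a : ℝ) (w : ℝ × ℝ × ℝ) : ℝ :=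
  lam * ZL ζ N lam b k a w + w.1 * PL d ζ N lam b k a w
def FL (d : ℝ) (ζ : ℝ × ℝ × ℝ × ℝ × ℝ → ℝ) (N lam : ℝ) (b k : ℝ → ℝ) (a : ℝ) (w : ℝ × ℝ × ℝ) : ℝ :=
  lam ^ 2 / N * (SS d (ZL ζ N lam b k a w) (w.2.2 * N / lam) a (b w.1) (k w.1 / N)
      - w.2.2 * N / lam * ((w.2.1 - w.1 * w.2.2) / lam))
    + w.1 * (PL d ζ N lam b k a w ^ 2 - w.2.2 ^ 2) / 2

end H867.FB
end
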