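import Pool.Agent.Helper867.FB.Defs2

set_option autoImplicit false
open Topology Set
open scoped ContDiff

noncomputable section

namespace H867.FB
open H930.FF

theorem Gl_C2 (Cb N lam : ℝ) (gd : Set ℤ) (b k : ℝ → ℝ) (hN : 1 ≤ N) (hl : 0 < lam)
    (hp : Prof Cb N gd b k) (T : ℝ × ℝ × ℝ × ℝ × ℝ × ℝ → ℝ)
    (hT : ∀ y, Reg y → ContDiffAt ℝ 2 T y) : ContDiff ℝ 2 (Gl N lam b k T) := by
  have hN0 : 0 < N := by linarith
  have hdb : ContDiff ℝ 2 (deriv b) := by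
    have h : ContDiff ℝ ((3 : ℕ) : WithTop ℕ∞) (deriv^[1] b) :=
      ContDiff.iterate_deriv' 3 1 (by exact_mod_cast hp.bC)
    exact h.of_le (by norm_num)
  have hb : ContDiff ℝ 2 b := hp.bC.of_le (by norm_num)
  have hk : ContDiff ℝ 2 k := hp.kC.of_le (by norm_num)
  have h1 : ContDiff ℝ 2 (fun w : ℝ × ℝ × ℝ × ℝ => w.1) := contDiff_fst
  have h2 : ContDiff ℝ 2 (fun w : ℝ × ℝ × ℝ × ℝ => w.2.1) := contDiff_fst.comp contDiff_snd
  have h3 : ContDiff ℝ 2 (fun w : ℝ × ℝ × ℝ × ℝ => w.2.2.1) :=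
    contDiff_fst.comp (contDiff_snd.comp contDiff_snd)
  have h4 : ContDiff ℝ 2 (fun w : ℝ × ℝ × ℝ × ℝ => w.2.2.2) :=
    contDiff_snd.comp (contDiff_snd.comp contDiff_snd)
  have hΨ : ContDiff ℝ 2 (fun w : ℝ × ℝ × ℝ × ℝ =>
      ((w.2.1 - w.1 * w.2.2.1) / lam, w.2.2.1 * N / lam, w.2.2.2, b w.1, k w.1 / N, w.1 / N)) := by
    refine ContDiff.prodMk ?_ (ContDiff.prodMk ?_ (ContDiff.prodMk h4 (ContDiff.prodMk ?_
      (ContDiff.prodMk ?_ ?_))))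
    · exact (h2.sub (h1.mul h3)).div_const _
    · exact (h3.mul contDiff_const).div_const _
    · exact hb.comp h1
    · exact (hk.comp h1).div_const _
    · exact h1.div_const _
  rw [contDiff_iff_contDiffAt]
  intro w
  have hR : Reg ((w.2.1 - w.1 * w.2.2.1) / lam, w.2.2.1 * N / lam, w.2.2.2, b w.1, k w.1 / N,
      w.1 / N) := by
    refine ⟨?_, hp.ble _, ?_⟩
    · have := hp.bge w.1
      show 1 / 4000000 - 1 ≤ b w.1
      norm_num at this ⊢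
      linarith
    · show |k w.1 / N| ≤ 3
      rw [abs_div, abs_of_pos hN0, div_le_iff₀ hN0]
      exact hp.kle _
  have hc : ContDiffAt ℝ 2 (fun w : ℝ × ℝ × ℝ × ℝ =>
      T ((w.2.1 - w.1 * w.2.2.1) / lam, w.2.2.1 * N / lam, w.2.2.2, b w.1, k w.1 / N, w.1 / N)) w :=
    ContDiffAt.comp w (hT _ hR) hΨ.contDiffAt
  have hd : ContDiffAt ℝ 2 (fun w : ℝ × ℝ × ℝ × ℝ => -(lam ^ 2 / N) * deriv b w.1) w :=
    (contDiff_const.mul (hdb.comp h1)).contDiffAt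
  exact hd.mul hc

end H867.FB
end
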