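import Pool.Agent.Helper867.FB.Defs2
import Pool.Agent.Helper867.FB.L_Gl_C2

set_option autoImplicit false
open Topology Set
open scoped ContDiff

noncomputable section

namespace H867.FB
open H930.FF

abbrev Gl_bd_auxW : Type := ℝ × ℝ × ℝ × ℝ
abbrev Gl_bd_auxY : Type := ℝ × ℝ × ℝ × ℝ × ℝ × ℝ

def Gl_bd_auxPsi (N lam : ℝ) (b k : ℝ → ℝ) (w : Gl_bd_auxW) : Gl_bd_auxY :=
  ((w.2.1 - w.1 * w.2.2.1) / lam, w.2.2.1 * N / lam, w.2.2.2, b w.1, k w.1 / N, w.1 / N)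

def Gl_bd_auxDP (N lam : ℝ) (b k : ℝ → ℝ) (w v : Gl_bd_auxW) : Gl_bd_auxY :=
  ((v.2.1 - (v.1 * w.2.2.1 + w.1 * v.2.2.1)) / lam, v.2.2.1 * N / lam, v.2.2.2,
    deriv b w.1 * v.1, deriv k w.1 * v.1 / N, v.1 / N)

def Gl_bd_auxD2P (N lam : ℝ) (b k : ℝ → ℝ) (w v1 v2 : Gl_bd_auxW) : Gl_bd_auxY :=
  (-(v2.1 * v1.2.2.1 + v1.1 * v2.2.2.1) / lam, 0, 0,
    deriv (deriv b) w.1 * v1.1 * v2.1, deriv (deriv k) w.1 * v1.1 * v2.1 / N, 0)

theorem Gl_bd_aux_fst (w v : Gl_bd_auxW) (s : ℝ) :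
    HasDerivAt (fun s : ℝ => (w + s • v).1) v.1 s := by
  have h : HasDerivAt (fun s : ℝ => w.1 + s * v.1) (1 * v.1) s :=
    ((hasDerivAt_id' s).mul_const v.1).const_add w.1
  rw [one_mul] at h
  exact h

theorem Gl_bd_aux_x (w v : Gl_bd_auxW) (s : ℝ) :
    HasDerivAt (fun s : ℝ => (w + s • v).2.1) v.2.1 s := by
  have h : HasDerivAt (fun s : ℝ => w.2.1 + s * v.2.1) (1 * v.2.1) s :=
    ((hasDerivAt_id' s).mul_const v.2.1).const_add w.2.1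
  rw [one_mul] at h
  exact h

theorem Gl_bd_aux_p (w v : Gl_bd_auxW) (s : ℝ) :
    HasDerivAt (fun s : ℝ => (w + s • v).2.2.1) v.2.2.1 s := by
  have h : HasDerivAt (fun s : ℝ => w.2.2.1 + s * v.2.2.1) (1 * v.2.2.1) s :=
    ((hasDerivAt_id' s).mul_const v.2.2.1).const_add w.2.2.1
  rw [one_mul] at h
  exact h

theorem Gl_bd_aux_a (w v : Gl_bd_auxW) (s : ℝ) :
    HasDerivAt (fun s : ℝ => (w + s • v).2.2.2) v.2.2.2 s := by
  have h : HasDerivAt (fun s : ℝ => w.2.2.2 + s * v.2.2.2) (1 * v.2.2.2) s :=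
    ((hasDerivAt_id' s).mul_const v.2.2.2).const_add w.2.2.2
  rw [one_mul] at h
  exact h

theorem Gl_bd_aux_comp {f : ℝ → ℝ} (hf : Differentiable ℝ f) (w v : Gl_bd_auxW) (s : ℝ) :
    HasDerivAt (fun s : ℝ => f (w + s • v).1) (deriv f (w + s • v).1 * v.1) s :=
  (hf (w + s • v).1).hasDerivAt.comp s (Gl_bd_aux_fst w v s)

theorem Gl_bd_aux_Psi (N lam : ℝ) (b k : ℝ → ℝ) (hb : Differentiable ℝ b)
    (hk : Differentiable ℝ k) (w v : Gl_bd_auxW) (s : ℝ) :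
    HasDerivAt (fun s : ℝ => Gl_bd_auxPsi N lam b k (w + s • v))
      (Gl_bd_auxDP N lam b k (w + s • v) v) s := by
  unfold Gl_bd_auxPsi Gl_bd_auxDP
  refine HasDerivAt.prodMk ?_ (HasDerivAt.prodMk ?_ (HasDerivAt.prodMk ?_
    (HasDerivAt.prodMk ?_ (HasDerivAt.prodMk ?_ ?_))))
  · exact ((Gl_bd_aux_x w v s).sub ((Gl_bd_aux_fst w v s).mul (Gl_bd_aux_p w v s))).div_const lam
  · exact ((Gl_bd_aux_p w v s).mul_const N).div_const lam
  · exact Gl_bd_aux_a w v s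
  · exact Gl_bd_aux_comp hb w v s
  · exact (Gl_bd_aux_comp hk w v s).div_const N
  · exact (Gl_bd_aux_fst w v s).div_const N

theorem Gl_bd_aux_DP (N lam : ℝ) (b k : ℝ → ℝ) (hb : Differentiable ℝ (deriv b))
    (hk : Differentiable ℝ (deriv k)) (w v1 v2 : Gl_bd_auxW) (s : ℝ) :
    HasDerivAt (fun s : ℝ => Gl_bd_auxDP N lam b k (w + s • v1) v2)
      (Gl_bd_auxD2P N lam b k (w + s • v1) v1 v2) s := by
  unfold Gl_bd_auxDP Gl_bd_auxD2P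
  refine HasDerivAt.prodMk ?_ (HasDerivAt.prodMk ?_ (HasDerivAt.prodMk ?_
    (HasDerivAt.prodMk ?_ (HasDerivAt.prodMk ?_ ?_))))
  · have h := ((((Gl_bd_aux_p w v1 s).const_mul v2.1).add
      ((Gl_bd_aux_fst w v1 s).mul_const v2.2.2.1)).const_sub v2.2.1).div_const lam
    exact h
  · exact hasDerivAt_const s _
  · exact hasDerivAt_const s _
  · exact (Gl_bd_aux_comp hb w v1 s).mul_const v2.1
  · exact ((Gl_bd_aux_comp hk w v1 s).mul_const v2.1).div_const N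
  · exact hasDerivAt_const s _

theorem Gl_bd_aux_line (w v : Gl_bd_auxW) (s : ℝ) :
    HasDerivAt (fun s : ℝ => w + s • v) v s := by
  have h : HasDerivAt (fun s : ℝ => w + s • v) ((1 : ℝ) • v) s :=
    ((hasDerivAt_id' s).smul_const v).const_add w
  rw [one_smul] at h
  exact h

/-- first derivative formula -/
theorem Gl_bd_aux_D1 (Cb N lam : ℝ) (gd : Set ℤ) (b k : ℝ → ℝ) (hN : 1 ≤ N) (hl : 0 < lam)
    (hp : Prof Cb N gd b k) (T : Gl_bd_auxY → ℝ) (hR : ∀ w, Reg (Gl_bd_auxPsi N lam b k w))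
    (hT : ∀ y, Reg y → ContDiffAt ℝ 2 T y) (w v : Gl_bd_auxW) :
    fderiv ℝ (Gl N lam b k T) w v = -(lam ^ 2 / N) * (deriv (deriv b) w.1 * v.1) *
      T (Gl_bd_auxPsi N lam b k w) + -(lam ^ 2 / N) * deriv b w.1 *
      fderiv ℝ T (Gl_bd_auxPsi N lam b k w) (Gl_bd_auxDP N lam b k w v) := by
  have hb : Differentiable ℝ b := hp.bC.differentiable (by norm_num)
  have hk : Differentiable ℝ k := hp.kC.differentiable (by norm_num)
  have hb' : Differentiable ℝ (deriv b) := by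
    have : ContDiff ℝ 3 (deriv b) := by
      have h4 : ContDiff ℝ (3 + 1) b := by
        have := hp.bC
        norm_num
        exact this
      exact ((contDiff_succ_iff_deriv (n := 3)).1 h4).2.2
    exact this.differentiable (by norm_num)
  have hG : ContDiff ℝ 2 (Gl N lam b k T) := Gl_C2 Cb N lam gd b k hN hl hp T hT
  have h1 : HasDerivAt (fun s : ℝ => Gl N lam b k T (w + s • v))
      (fderiv ℝ (Gl N lam b k T) (w + (0 : ℝ) • v) v) 0 :=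
    ((hG.differentiable (by norm_num)) _).hasFDerivAt.comp_hasDerivAt 0 (Gl_bd_aux_line w v 0)
  have h2 : HasDerivAt (fun s : ℝ => T (Gl_bd_auxPsi N lam b k (w + s • v)))
      (fderiv ℝ T (Gl_bd_auxPsi N lam b k (w + (0 : ℝ) • v))
        (Gl_bd_auxDP N lam b k (w + (0 : ℝ) • v) v)) 0 :=
    ((hT _ (hR _)).differentiableAt (by norm_num)).hasFDerivAt.comp_hasDerivAt 0
      (Gl_bd_aux_Psi N lam b k hb hk w v 0)
  have h3 : HasDerivAt (fun s : ℝ => -(lam ^ 2 / N) * deriv b (w + s • v).1)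
      (-(lam ^ 2 / N) * (deriv (deriv b) (w + (0 : ℝ) • v).1 * v.1)) 0 :=
    (Gl_bd_aux_comp hb' w v 0).const_mul _
  have h4 := h1.unique (h3.mul h2)
  rw [zero_smul, add_zero] at h4
  exact h4

/-- second derivative formula -/
theorem Gl_bd_aux_D2 (Cb N lam : ℝ) (gd : Set ℤ) (b k : ℝ → ℝ) (hN : 1 ≤ N) (hl : 0 < lam)
    (hp : Prof Cb N gd b k) (T : Gl_bd_auxY → ℝ) (hR : ∀ w, Reg (Gl_bd_auxPsi N lam b k w))
    (hT : ∀ y, Reg y → ContDiffAt ℝ 2 T y) (w v1 v2 : Gl_bd_auxW) :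
    fderiv ℝ (fderiv ℝ (Gl N lam b k T)) w v1 v2 =
      (-(lam ^ 2 / N) * (deriv (deriv (deriv b)) w.1 * v1.1 * v2.1) *
        T (Gl_bd_auxPsi N lam b k w) +
      -(lam ^ 2 / N) * (deriv (deriv b) w.1 * v2.1) *
        fderiv ℝ T (Gl_bd_auxPsi N lam b k w) (Gl_bd_auxDP N lam b k w v1)) +
      (-(lam ^ 2 / N) * (deriv (deriv b) w.1 * v1.1) *
        fderiv ℝ T (Gl_bd_auxPsi N lam b k w) (Gl_bd_auxDP N lam b k w v2) +
      -(lam ^ 2 / N) * deriv b w.1 *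
        (fderiv ℝ (fderiv ℝ T) (Gl_bd_auxPsi N lam b k w) (Gl_bd_auxDP N lam b k w v1)
          (Gl_bd_auxDP N lam b k w v2) +
        fderiv ℝ T (Gl_bd_auxPsi N lam b k w) (Gl_bd_auxD2P N lam b k w v1 v2))) := by
  have hb : Differentiable ℝ b := hp.bC.differentiable (by norm_num)
  have hk : Differentiable ℝ k := hp.kC.differentiable (by norm_num)
  have hb3 : ContDiff ℝ 3 (deriv b) := by
    have h4 : ContDiff ℝ (3 + 1) b := by
      have := hp.bC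
      norm_num
      exact this
    exact ((contDiff_succ_iff_deriv (n := 3)).1 h4).2.2
  have hk3 : ContDiff ℝ 3 (deriv k) := by
    have h4 : ContDiff ℝ (3 + 1) k := by
      have := hp.kC
      norm_num
      exact this
    exact ((contDiff_succ_iff_deriv (n := 3)).1 h4).2.2
  have hb' : Differentiable ℝ (deriv b) := hb3.differentiable (by norm_num)
  have hk' : Differentiable ℝ (deriv k) := hk3.differentiable (by norm_num)
  have hb'' : Differentiable ℝ (deriv (deriv b)) := by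
    have h4 : ContDiff ℝ (2 + 1) (deriv b) := by
      norm_num
      exact hb3
    exact ((contDiff_succ_iff_deriv (n := 2)).1 h4).2.2.differentiable (by norm_num)
  have hG : ContDiff ℝ 2 (Gl N lam b k T) := Gl_C2 Cb N lam gd b k hN hl hp T hT
  have hG' : Differentiable ℝ (fderiv ℝ (Gl N lam b k T)) :=
    (hG.fderiv_right (m := 1) (by norm_num)).differentiable (by norm_num)
  have h1 : HasDerivAt (fun s : ℝ => fderiv ℝ (Gl N lam b k T) (w + s • v1) v2)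
      (fderiv ℝ (fderiv ℝ (Gl N lam b k T)) (w + (0 : ℝ) • v1) v1 v2) 0 := by
    have h := (hG' (w + (0 : ℝ) • v1)).hasFDerivAt.comp_hasDerivAt 0 (Gl_bd_aux_line w v1 0)
    have h' := h.clm_apply (hasDerivAt_const (0 : ℝ) v2)
    simpa using h'
  have hTd : ∀ w', DifferentiableAt ℝ (fderiv ℝ T) (Gl_bd_auxPsi N lam b k w') := fun w' =>
    ((hT _ (hR w')).fderiv_right (m := 1) (by norm_num)).differentiableAt (by norm_num)
  have h2 : HasDerivAt (fun s : ℝ => T (Gl_bd_auxPsi N lam b k (w + s • v1)))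
      (fderiv ℝ T (Gl_bd_auxPsi N lam b k (w + (0 : ℝ) • v1))
        (Gl_bd_auxDP N lam b k (w + (0 : ℝ) • v1) v1)) 0 :=
    ((hT _ (hR _)).differentiableAt (by norm_num)).hasFDerivAt.comp_hasDerivAt 0
      (Gl_bd_aux_Psi N lam b k hb hk w v1 0)
  have h2' : HasDerivAt (fun s : ℝ => fderiv ℝ T (Gl_bd_auxPsi N lam b k (w + s • v1)))
      (fderiv ℝ (fderiv ℝ T) (Gl_bd_auxPsi N lam b k (w + (0 : ℝ) • v1))
        (Gl_bd_auxDP N lam b k (w + (0 : ℝ) • v1) v1)) 0 :=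
    (hTd _).hasFDerivAt.comp_hasDerivAt 0 (Gl_bd_aux_Psi N lam b k hb hk w v1 0)
  have h2'' := h2'.clm_apply (Gl_bd_aux_DP N lam b k hb' hk' w v1 v2 0)
  have h3 : HasDerivAt (fun s : ℝ => -(lam ^ 2 / N) * deriv b (w + s • v1).1)
      (-(lam ^ 2 / N) * (deriv (deriv b) (w + (0 : ℝ) • v1).1 * v1.1)) 0 :=
    (Gl_bd_aux_comp hb' w v1 0).const_mul _
  have h3' : HasDerivAt (fun s : ℝ => -(lam ^ 2 / N) * (deriv (deriv b) (w + s • v1).1 * v2.1))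
      (-(lam ^ 2 / N) * (deriv (deriv (deriv b)) (w + (0 : ℝ) • v1).1 * v1.1 * v2.1)) 0 :=
    ((Gl_bd_aux_comp hb'' w v1 0).mul_const v2.1).const_mul _
  have h5 : (fun s : ℝ => fderiv ℝ (Gl N lam b k T) (w + s • v1) v2) = fun s : ℝ =>
      -(lam ^ 2 / N) * (deriv (deriv b) (w + s • v1).1 * v2.1) *
      T (Gl_bd_auxPsi N lam b k (w + s • v1)) + -(lam ^ 2 / N) * deriv b (w + s • v1).1 *
      fderiv ℝ T (Gl_bd_auxPsi N lam b k (w + s • v1))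
        (Gl_bd_auxDP N lam b k (w + s • v1) v2) := by
    funext s
    exact Gl_bd_aux_D1 Cb N lam gd b k hN hl hp T hR hT (w + s • v1) v2
  rw [h5] at h1
  have h6 := h1.unique ((h3'.mul h2).add (h3.mul h2''))
  rw [zero_smul, add_zero] at h6
  exact h6

theorem Gl_bd_aux_zero {G : Gl_bd_auxW → ℝ} {w : Gl_bd_auxW} (h : G =ᶠ[𝓝 w] fun _ => 0) :
    G w = 0 ∧ fderiv ℝ G w = 0 ∧ fderiv ℝ (fderiv ℝ G) w = 0 := by
  refine ⟨h.eq_of_nhds, ?_, ?_⟩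
  · rw [h.fderiv_eq]
    simp
  · have h1 := h.fderiv (𝕜 := ℝ)
    have h2 : fderiv ℝ (fun _ : Gl_bd_auxW => (0 : ℝ)) = fun _ => 0 := by
      funext x
      simp
    rw [h2] at h1
    rw [h1.fderiv_eq]
    simp

theorem Gl_bd_aux_nrm {y1 y2 y3 y4 y5 y6 r : ℝ} (h1 : |y1| ≤ r) (h2 : |y2| ≤ r) (h3 : |y3| ≤ r)
    (h4 : |y4| ≤ r) (h5 : |y5| ≤ r) (h6 : |y6| ≤ r) :
    ‖((y1, y2, y3, y4, y5, y6) : Gl_bd_auxY)‖ ≤ r := by
  simp only [Prod.norm_def, Real.norm_eq_abs]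
  exact max_le h1 (max_le h2 (max_le h3 (max_le h4 (max_le h5 h6))))

theorem Gl_bd_aux_cmp (v : Gl_bd_auxW) :
    |v.1| ≤ ‖v‖ ∧ |v.2.1| ≤ ‖v‖ ∧ |v.2.2.1| ≤ ‖v‖ ∧ |v.2.2.2| ≤ ‖v‖ := by
  refine ⟨norm_fst_le v, (norm_fst_le v.2).trans (norm_snd_le v),
    (norm_fst_le v.2.2).trans ((norm_snd_le v.2).trans (norm_snd_le v)),
    (norm_snd_le v.2.2).trans ((norm_snd_le v.2).trans (norm_snd_le v))⟩

/-- the vector `u` -/
def Gl_bd_auxU (N : ℝ) (w : Gl_bd_auxW) : Gl_bd_auxY := (-(w.1 / N), 1, 0, 0, 0, 0)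

/-- the remainder -/
def Gl_bd_auxR (N lam : ℝ) (b k : ℝ → ℝ) (w v : Gl_bd_auxW) : Gl_bd_auxY :=
  ((v.2.1 - v.1 * w.2.2.1) / lam, 0, v.2.2.2, deriv b w.1 * v.1, deriv k w.1 * v.1 / N, v.1 / N)

theorem Gl_bd_aux_dec (N lam : ℝ) (hN : 1 ≤ N) (hl : 0 < lam) (b k : ℝ → ℝ) (w v : Gl_bd_auxW) :
    Gl_bd_auxDP N lam b k w v =
      (N / lam * v.2.2.1) • Gl_bd_auxU N w + Gl_bd_auxR N lam b k w v := by
  have hN0 : N ≠ 0 := by positivity
  unfold Gl_bd_auxDP Gl_bd_auxU Gl_bd_auxR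
  simp only [Prod.smul_mk, Prod.mk_add_mk, smul_eq_mul, mul_one, mul_zero, zero_add, add_zero,
    Prod.mk.injEq, and_true]
  constructor
  · field_simp
    ring
  · ring

/-- size of the remainder -/
theorem Gl_bd_aux_Rn (Cb R N lam : ℝ) (hCb : 0 ≤ Cb) (hR : 0 ≤ R) (hN : 1 ≤ N) (hl : 0 < lam)
    (hl1 : lam ≤ 1) (b k : ℝ → ℝ) (w v : Gl_bd_auxW) (ht : |w.1| ≤ 2 * N) (hp : |w.2.2.1| ≤ R)
    (hb : |deriv b w.1| ≤ Cb / N) (hk : deriv k w.1 = -w.1 * deriv b w.1) :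
    ‖Gl_bd_auxR N lam b k w v‖ ≤ (1 + R + 2 * Cb) / lam * ‖v‖ := by
  obtain ⟨c1, c2, c3, c4⟩ := Gl_bd_aux_cmp v
  have hn : 0 ≤ ‖v‖ := norm_nonneg v
  have hN0 : 0 < N := by linarith
  have hCN : Cb / N ≤ Cb := div_le_self hCb hN
  have hil : 1 ≤ 1 / lam := by rw [le_div_iff₀ hl]; linarith
  have hK : (1 + R + 2 * Cb) ≤ (1 + R + 2 * Cb) / lam := by
    have h0 : 0 ≤ 1 + R + 2 * Cb := by positivity
    calc (1 + R + 2 * Cb) = (1 + R + 2 * Cb) * 1 := (mul_one _).symm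
      _ ≤ (1 + R + 2 * Cb) * (1 / lam) := mul_le_mul_of_nonneg_left hil h0
      _ = _ := by ring
  have hKv : (1 + R + 2 * Cb) * ‖v‖ ≤ (1 + R + 2 * Cb) / lam * ‖v‖ :=
    mul_le_mul_of_nonneg_right hK hn
  have hv1 : Cb * ‖v‖ ≥ 0 := by positivity
  have hv2 : R * ‖v‖ ≥ 0 := by positivity
  unfold Gl_bd_auxR
  apply Gl_bd_aux_nrm
  · rw [abs_div, abs_of_pos hl]
    have h1 : |v.2.1 - v.1 * w.2.2.1| ≤ (1 + R + 2 * Cb) * ‖v‖ := by
      calc |v.2.1 - v.1 * w.2.2.1| ≤ |v.2.1| + |v.1 * w.2.2.1| := abs_sub _ _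
        _ ≤ ‖v‖ + ‖v‖ * R := by
          rw [abs_mul]
          exact add_le_add c2 (mul_le_mul c1 hp (abs_nonneg _) hn)
        _ ≤ _ := by nlinarith
    calc |v.2.1 - v.1 * w.2.2.1| / lam ≤ (1 + R + 2 * Cb) * ‖v‖ / lam :=
          div_le_div_of_nonneg_right h1 hl.le
      _ = _ := by ring
  · rw [abs_zero]
    positivity
  · refine le_trans ?_ hKv
    nlinarith
  · refine le_trans ?_ hKv
    rw [abs_mul]
    have : |deriv b w.1| * |v.1| ≤ Cb * ‖v‖ :=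
      mul_le_mul (hb.trans hCN) c1 (abs_nonneg _) hCb
    nlinarith
  · refine le_trans ?_ hKv
    rw [hk, abs_div, abs_of_pos hN0, abs_mul, abs_mul, abs_neg]
    have h1 : |w.1| * |deriv b w.1| ≤ 2 * N * (Cb / N) :=
      mul_le_mul ht hb (abs_nonneg _) (by positivity)
    have h2 : 2 * N * (Cb / N) = 2 * Cb := by field_simp
    rw [h2] at h1
    have h3 : |w.1| * |deriv b w.1| * |v.1| ≤ 2 * Cb * ‖v‖ :=
      mul_le_mul h1 c1 (abs_nonneg _) (by positivity)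
    calc |w.1| * |deriv b w.1| * |v.1| / N ≤ |w.1| * |deriv b w.1| * |v.1| :=
          div_le_self (by positivity) hN
      _ ≤ 2 * Cb * ‖v‖ := h3
      _ ≤ _ := by nlinarith
  · refine le_trans ?_ hKv
    rw [abs_div, abs_of_pos hN0]
    calc |v.1| / N ≤ |v.1| := div_le_self (abs_nonneg _) hN
      _ ≤ ‖v‖ := c1
      _ ≤ _ := by nlinarith

theorem Gl_bd_aux_Un (N : ℝ) (hN : 1 ≤ N) (w : Gl_bd_auxW) (ht : |w.1| ≤ 2 * N) :
    ‖Gl_bd_auxU N w‖ ≤ 2 := by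
  have hN0 : 0 < N := by linarith
  unfold Gl_bd_auxU
  apply Gl_bd_aux_nrm
  · rw [abs_neg, abs_div, abs_of_pos hN0, div_le_iff₀ hN0]
    exact ht
  all_goals norm_num

/-- size of the second derivative of the inner map -/
theorem Gl_bd_aux_D2n (Cb N lam : ℝ) (hCb : 0 ≤ Cb) (hN : 1 ≤ N) (hl : 0 < lam)
    (hl1 : lam ≤ 1) (b k : ℝ → ℝ) (w v1 v2 : Gl_bd_auxW) (ht : |w.1| ≤ 2 * N)
    (hb : |deriv b w.1| ≤ Cb / N) (hb2 : |deriv (deriv b) w.1| ≤ Cb / N)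
    (hk : deriv (deriv k) w.1 = -deriv b w.1 - w.1 * deriv (deriv b) w.1) :
    ‖Gl_bd_auxD2P N lam b k w v1 v2‖ ≤ (2 + 3 * Cb) / lam * (‖v1‖ * ‖v2‖) := by
  obtain ⟨c1, c2, c3, c4⟩ := Gl_bd_aux_cmp v1
  obtain ⟨d1, d2, d3, d4⟩ := Gl_bd_aux_cmp v2
  have hn1 : 0 ≤ ‖v1‖ := norm_nonneg v1
  have hn2 : 0 ≤ ‖v2‖ := norm_nonneg v2
  have hn : 0 ≤ ‖v1‖ * ‖v2‖ := mul_nonneg hn1 hn2
  have hN0 : 0 < N := by linarith
  have hCN : Cb / N ≤ Cb := div_le_self hCb hN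
  have hil : 1 ≤ 1 / lam := by rw [le_div_iff₀ hl]; linarith
  have hK : (2 + 3 * Cb) ≤ (2 + 3 * Cb) / lam := by
    have h0 : 0 ≤ 2 + 3 * Cb := by positivity
    calc (2 + 3 * Cb) = (2 + 3 * Cb) * 1 := (mul_one _).symm
      _ ≤ (2 + 3 * Cb) * (1 / lam) := mul_le_mul_of_nonneg_left hil h0
      _ = _ := by ring
  have hKv : (2 + 3 * Cb) * (‖v1‖ * ‖v2‖) ≤ (2 + 3 * Cb) / lam * (‖v1‖ * ‖v2‖) :=
    mul_le_mul_of_nonneg_right hK hn
  have hv1 : 0 ≤ Cb * (‖v1‖ * ‖v2‖) := by positivity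
  unfold Gl_bd_auxD2P
  apply Gl_bd_aux_nrm
  · rw [abs_div, abs_of_pos hl, abs_neg]
    have h1 : |v2.1 * v1.2.2.1 + v1.1 * v2.2.2.1| ≤ (2 + 3 * Cb) * (‖v1‖ * ‖v2‖) := by
      calc |v2.1 * v1.2.2.1 + v1.1 * v2.2.2.1| ≤ |v2.1 * v1.2.2.1| + |v1.1 * v2.2.2.1| :=
            abs_add_le _ _
        _ ≤ ‖v2‖ * ‖v1‖ + ‖v1‖ * ‖v2‖ := by
          rw [abs_mul, abs_mul]
          exact add_le_add (mul_le_mul d1 c3 (abs_nonneg _) hn2)
            (mul_le_mul c1 d3 (abs_nonneg _) hn1)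
        _ ≤ _ := by nlinarith
    calc |v2.1 * v1.2.2.1 + v1.1 * v2.2.2.1| / lam ≤ (2 + 3 * Cb) * (‖v1‖ * ‖v2‖) / lam :=
          div_le_div_of_nonneg_right h1 hl.le
      _ = _ := by ring
  · rw [abs_zero]
    positivity
  · rw [abs_zero]
    positivity
  · refine le_trans ?_ hKv
    rw [abs_mul, abs_mul]
    have : |deriv (deriv b) w.1| * |v1.1| * |v2.1| ≤ Cb * ‖v1‖ * ‖v2‖ :=
      mul_le_mul (mul_le_mul (hb2.trans hCN) c1 (abs_nonneg _) hCb) d1 (abs_nonneg _)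
        (by positivity)
    nlinarith
  · refine le_trans ?_ hKv
    rw [hk, abs_div, abs_of_pos hN0, abs_mul, abs_mul]
    have h1 : |w.1| * |deriv (deriv b) w.1| ≤ 2 * N * (Cb / N) :=
      mul_le_mul ht hb2 (abs_nonneg _) (by positivity)
    have h2 : 2 * N * (Cb / N) = 2 * Cb := by field_simp
    rw [h2] at h1
    have h0 : |-deriv b w.1 - w.1 * deriv (deriv b) w.1| ≤ 3 * Cb := by
      calc |-deriv b w.1 - w.1 * deriv (deriv b) w.1|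
          ≤ |-deriv b w.1| + |w.1 * deriv (deriv b) w.1| := abs_sub _ _
        _ ≤ Cb + 2 * Cb := by
          rw [abs_neg, abs_mul]
          exact add_le_add (hb.trans hCN) h1
        _ = 3 * Cb := by ring
    have h3 : |-deriv b w.1 - w.1 * deriv (deriv b) w.1| * |v1.1| * |v2.1| ≤
        3 * Cb * ‖v1‖ * ‖v2‖ :=
      mul_le_mul (mul_le_mul h0 c1 (abs_nonneg _) (by positivity)) d1 (abs_nonneg _)
        (by positivity)
    calc |-deriv b w.1 - w.1 * deriv (deriv b) w.1| * |v1.1| * |v2.1| / N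
        ≤ |-deriv b w.1 - w.1 * deriv (deriv b) w.1| * |v1.1| * |v2.1| :=
          div_le_self (by positivity) hN
      _ ≤ 3 * Cb * ‖v1‖ * ‖v2‖ := h3
      _ ≤ _ := by nlinarith
  · rw [abs_zero]
    positivity

/-- bilinear estimate -/
theorem Gl_bd_aux_bil (M E c1 c2 r1 r2 : ℝ) (T2 : Gl_bd_auxY →L[ℝ] Gl_bd_auxY →L[ℝ] ℝ)
    (u x1 x2 : Gl_bd_auxY) (a1 a2 : ℝ)
    (hM : ‖T2‖ ≤ M) (hM0 : 0 ≤ M) (hE : |T2 u u| ≤ E) (hE0 : 0 ≤ E)
    (hu : ‖u‖ ≤ 2) (h1 : |a1| ≤ c1) (h2 : |a2| ≤ c2)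
    (hx1 : ‖x1‖ ≤ r1) (hx2 : ‖x2‖ ≤ r2) :
    |T2 (a1 • u + x1) (a2 • u + x2)| ≤ c1 * c2 * E + 2 * M * c1 * r2 + 2 * M * c2 * r1 +
      M * r1 * r2 := by
  have hc1 : 0 ≤ c1 := (abs_nonneg _).trans h1
  have hc2 : 0 ≤ c2 := (abs_nonneg _).trans h2
  have hr1 : 0 ≤ r1 := (norm_nonneg _).trans hx1
  have hr2 : 0 ≤ r2 := (norm_nonneg _).trans hx2
  have hexp : T2 (a1 • u + x1) (a2 • u + x2) =
      a1 * a2 * T2 u u + a1 * T2 u x2 + a2 * T2 x1 u + T2 x1 x2 := by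
    simp only [map_add, map_smul, ContinuousLinearMap.add_apply, ContinuousLinearMap.smul_apply,
      smul_eq_mul]
    ring
  have hb : ∀ (x y : Gl_bd_auxY) (p q : ℝ), ‖x‖ ≤ p → ‖y‖ ≤ q → |T2 x y| ≤ M * p * q := by
    intro x y p q hx hy
    have hp : 0 ≤ p := (norm_nonneg _).trans hx
    calc |T2 x y| ≤ ‖T2‖ * ‖x‖ * ‖y‖ := T2.le_opNorm₂ x y
      _ ≤ M * p * q := mul_le_mul (mul_le_mul hM hx (norm_nonneg _) hM0) hy (norm_nonneg _)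
          (by positivity)
  have k1 := hb u x2 2 r2 hu hx2
  have k2 := hb x1 u r1 2 hx1 hu
  have k3 := hb x1 x2 r1 r2 hx1 hx2
  rw [hexp]
  have t1 : |a1 * a2 * T2 u u| ≤ c1 * c2 * E := by
    rw [abs_mul, abs_mul]
    exact mul_le_mul (mul_le_mul h1 h2 (abs_nonneg _) hc1) hE (abs_nonneg _) (by positivity)
  have t2 : |a1 * T2 u x2| ≤ c1 * (M * 2 * r2) := by
    rw [abs_mul]
    exact mul_le_mul h1 k1 (abs_nonneg _) hc1
  have t3 : |a2 * T2 x1 u| ≤ c2 * (M * r1 * 2) := by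
    rw [abs_mul]
    exact mul_le_mul h2 k2 (abs_nonneg _) hc2
  calc |a1 * a2 * T2 u u + a1 * T2 u x2 + a2 * T2 x1 u + T2 x1 x2|
      ≤ |a1 * a2 * T2 u u| + |a1 * T2 u x2| + |a2 * T2 x1 u| + |T2 x1 x2| := by
        refine (abs_add_le _ _).trans (add_le_add_left ?_ _)
        refine (abs_add_le _ _).trans (add_le_add_left ?_ _)
        exact abs_add_le _ _
    _ ≤ c1 * c2 * E + c1 * (M * 2 * r2) + c2 * (M * r1 * 2) + M * r1 * r2 := by linarith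
    _ = _ := by ring

theorem Gl_bd_aux_DPn (Cb R N lam : ℝ) (hCb : 0 ≤ Cb) (hR : 0 ≤ R) (hN : 1 ≤ N) (hl : 0 < lam)
    (hl1 : lam ≤ 1) (b k : ℝ → ℝ) (w v : Gl_bd_auxW) (ht : |w.1| ≤ 2 * N) (hp : |w.2.2.1| ≤ R)
    (hb : |deriv b w.1| ≤ Cb / N) (hk : deriv k w.1 = -w.1 * deriv b w.1) :
    ‖Gl_bd_auxDP N lam b k w v‖ ≤ (2 * N + (1 + R + 2 * Cb)) / lam * ‖v‖ := by
  have hN0 : 0 < N := by linarith
  rw [Gl_bd_aux_dec N lam hN hl]
  have h1 : ‖(N / lam * v.2.2.1) • Gl_bd_auxU N w‖ ≤ N / lam * ‖v‖ * 2 := by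
    rw [norm_smul, Real.norm_eq_abs, abs_mul, abs_of_pos (div_pos hN0 hl)]
    exact mul_le_mul (mul_le_mul_of_nonneg_left (Gl_bd_aux_cmp v).2.2.1 (by positivity))
      (Gl_bd_aux_Un N hN w ht) (norm_nonneg _) (by positivity)
  have h2 := Gl_bd_aux_Rn Cb R N lam hCb hR hN hl hl1 b k w v ht hp hb hk
  calc ‖(N / lam * v.2.2.1) • Gl_bd_auxU N w + Gl_bd_auxR N lam b k w v‖
      ≤ ‖(N / lam * v.2.2.1) • Gl_bd_auxU N w‖ + ‖Gl_bd_auxR N lam b k w v‖ := norm_add_le _ _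
    _ ≤ N / lam * ‖v‖ * 2 + (1 + R + 2 * Cb) / lam * ‖v‖ := add_le_add h1 h2
    _ = _ := by ring

theorem Gl_bd_aux_coef {N lam c X B M' : ℝ} (hN : 1 ≤ N) (h : |c| ≤ B) (hX : |X| ≤ M') :
    |-(lam ^ 2 / N) * c * X| ≤ lam ^ 2 / N * B * M' := by
  have hN0 : 0 < N := by linarith
  have hB : 0 ≤ B := (abs_nonneg _).trans h
  rw [abs_mul, abs_mul, abs_neg, abs_of_nonneg (show (0 : ℝ) ≤ lam ^ 2 / N by positivity)]
  exact mul_le_mul (mul_le_mul_of_nonneg_left h (by positivity)) hX (abs_nonneg _) (by positivity)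

theorem Gl_bd_aux_num (M Cb N lam K1 K2 : ℝ) (hM : 0 ≤ M) (hCb : 0 ≤ Cb) (hN : 1 ≤ N)
    (hl : 0 < lam) (hl1 : lam ≤ 1) (hK1 : 0 ≤ K1) (hK2 : 0 ≤ K2) :
    Cb * M * ((lam ^ 2 + 2 * lam * (2 * N + K1) + 4 * K1 * N + K1 ^ 2 + K2 * lam) / N ^ 2) ≤
      Cb * M * (5 + 6 * K1 + K1 ^ 2 + K2) / N := by
  have hN0 : 0 < N := by linarith
  rw [mul_div_assoc]
  apply mul_le_mul_of_nonneg_left _ (by positivity)
  rw [div_le_div_iff₀ (by positivity) hN0]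
  have h1 : lam ^ 2 ≤ N := by nlinarith
  have h2 : lam * N ≤ N := by nlinarith
  have h3 : lam * K1 ≤ N * K1 := by nlinarith
  have h4 : K1 ^ 2 ≤ N * K1 ^ 2 := by nlinarith [sq_nonneg K1]
  have h5 : K2 * lam ≤ N * K2 := by nlinarith
  have h6 : lam ^ 2 + 2 * lam * (2 * N + K1) + 4 * K1 * N + K1 ^ 2 + K2 * lam ≤
      N * (5 + 6 * K1 + K1 ^ 2 + K2) := by nlinarith
  calc (lam ^ 2 + 2 * lam * (2 * N + K1) + 4 * K1 * N + K1 ^ 2 + K2 * lam) * N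
      ≤ N * (5 + 6 * K1 + K1 ^ 2 + K2) * N := mul_le_mul_of_nonneg_right h6 hN0.le
    _ = _ := by ring

theorem Gl_bd (M R Cb : ℝ) (hM : 0 ≤ M) (hR : 0 ≤ R) :
    ∃ C : ℝ, 0 ≤ C ∧ ∀ (N lam : ℝ) (gd : Set ℤ) (b k : ℝ → ℝ) (T : ℝ × ℝ × ℝ × ℝ × ℝ × ℝ → ℝ)
      (E : ℝ), 1 ≤ N → 0 < lam → lam ≤ 1 → Prof Cb N gd b k → 0 ≤ E →
      (∀ y, Reg y → ContDiffAt ℝ 2 T y) →
      (∀ y : ℝ × ℝ × ℝ × ℝ × ℝ × ℝ, Reg y → R < |y.2.1| → T y = 0) →
      (∀ y : ℝ × ℝ × ℝ × ℝ × ℝ × ℝ, Reg y → |y.2.2.2.2.2| ≤ 2 →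
        |T y| ≤ M ∧ ‖fderiv ℝ T y‖ ≤ M ∧ ‖fderiv ℝ (fderiv ℝ T) y‖ ≤ M ∧
        |fderiv ℝ (fderiv ℝ T) y (-y.2.2.2.2.2, 1, 0, 0, 0, 0) (-y.2.2.2.2.2, 1, 0, 0, 0, 0)| ≤ E) →
      ∀ w, |Gl N lam b k T w| ≤ C / N ∧ ‖fderiv ℝ (Gl N lam b k T) w‖ ≤ C / N ∧
        ‖fderiv ℝ (fderiv ℝ (Gl N lam b k T)) w‖ ≤ Cb * E + C / N := by
  refine ⟨|Cb| * M * (5 + 6 * (1 + R + 2 * |Cb|) + (1 + R + 2 * |Cb|) ^ 2 + (2 + 3 * |Cb|)),
    by positivity, ?_⟩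
  intro N lam gd b k T E hN hl hl1 hp hE hT hTz hTb w
  have hN0 : 0 < N := by linarith
  have hCb : 0 ≤ Cb := by
    have := (abs_nonneg _).trans (hp.bd1 0)
    rwa [le_div_iff₀ hN0, zero_mul] at this
  rw [abs_of_nonneg hCb]
  obtain ⟨K1, hK1d⟩ : ∃ K1, K1 = 1 + R + 2 * Cb := ⟨_, rfl⟩
  obtain ⟨K2, hK2d⟩ : ∃ K2, K2 = 2 + 3 * Cb := ⟨_, rfl⟩
  rw [← hK1d, ← hK2d]
  have hK1 : 0 ≤ K1 := by rw [hK1d]; positivity
  have hK2 : 0 ≤ K2 := by rw [hK2d]; positivity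
  have hC0 : 0 ≤ Cb * M * (5 + 6 * K1 + K1 ^ 2 + K2) / N := by positivity
  have hCE0 : 0 ≤ Cb * E + Cb * M * (5 + 6 * K1 + K1 ^ 2 + K2) / N := by positivity
  have hnum := Gl_bd_aux_num M Cb N lam K1 K2 hM hCb hN hl hl1 hK1 hK2
  have hGl : ∀ w, Gl N lam b k T w =
      -(lam ^ 2 / N) * deriv b w.1 * T (Gl_bd_auxPsi N lam b k w) := fun _ => rfl
  have hReg : ∀ w, Reg (Gl_bd_auxPsi N lam b k w) := by
    intro w
    refine ⟨?_, hp.ble _, ?_⟩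
    · have := hp.bge w.1
      have h2 : (1 : ℝ) / 4000000 - 1 = 1 / 2000 ^ 2 - 1 := by norm_num
      rw [h2]
      exact this
    · change |k w.1 / N| ≤ 3
      rw [abs_div, abs_of_pos hN0, div_le_iff₀ hN0]
      exact hp.kle _
  have hzero : (Gl N lam b k T) =ᶠ[𝓝 w] (fun _ => 0) →
      |Gl N lam b k T w| ≤ Cb * M * (5 + 6 * K1 + K1 ^ 2 + K2) / N ∧
      ‖fderiv ℝ (Gl N lam b k T) w‖ ≤ Cb * M * (5 + 6 * K1 + K1 ^ 2 + K2) / N ∧
      ‖fderiv ℝ (fderiv ℝ (Gl N lam b k T)) w‖ ≤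
        Cb * E + Cb * M * (5 + 6 * K1 + K1 ^ 2 + K2) / N := by
    intro h
    obtain ⟨h1, h2, h3⟩ := Gl_bd_aux_zero h
    refine ⟨?_, ?_, ?_⟩
    · rw [h1, abs_zero]; exact hC0
    · rw [h2]; rw [norm_zero]; exact hC0
    · rw [h3]
      exact (norm_zero (E := Gl_bd_auxW →L[ℝ] Gl_bd_auxW →L[ℝ] ℝ)).le.trans hCE0
  by_cases ht : |w.1| ≤ 2 * N
  swap
  · apply hzero
    have hopen : IsOpen {w' : Gl_bd_auxW | 2 * N < |w'.1|} :=
      isOpen_lt continuous_const continuous_fst.abs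
    filter_upwards [hopen.mem_nhds (not_le.1 ht)] with w' hw'
    have hd : deriv b w'.1 = 0 := by
      have : b =ᶠ[𝓝 w'.1] fun _ => 0 := by
        filter_upwards [(isOpen_lt continuous_const continuous_abs).mem_nhds hw'] with t ht'
        exact hp.bout t (le_of_lt ht')
      rw [this.deriv_eq]
      simp
    rw [hGl, hd]
    ring
  by_cases hpR : |w.2.2.1 * N / lam| ≤ R
  swap
  · apply hzero
    have hopen : IsOpen {w' : Gl_bd_auxW | R < |w'.2.2.1 * N / lam|} := by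
      apply isOpen_lt continuous_const
      fun_prop
    filter_upwards [hopen.mem_nhds (not_le.1 hpR)] with w' hw'
    rw [hGl, hTz _ (hReg w') hw']
    ring
  have hpw : |w.2.2.1| ≤ R := by
    refine le_trans ?_ hpR
    rw [abs_div, abs_mul, abs_of_pos hN0, abs_of_pos hl, le_div_iff₀ hl]
    exact mul_le_mul_of_nonneg_left (hl1.trans hN) (abs_nonneg _)
  obtain ⟨B1, B2, B3, B4⟩ := hTb (Gl_bd_auxPsi N lam b k w) (hReg w) (by
    change |w.1 / N| ≤ 2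
    rw [abs_div, abs_of_pos hN0, div_le_iff₀ hN0]
    exact ht)
  have hb1 := hp.bd1 w.1
  have hb2 := hp.bd2 w.1
  have hb3 := hp.bd3 w.1
  have hk1 := hp.kd w.1
  have hk2 : deriv (deriv k) w.1 = -deriv b w.1 - w.1 * deriv (deriv b) w.1 := by
    have h1 : deriv k = fun t => -t * deriv b t := funext hp.kd
    have hb3' : ContDiff ℝ 3 (deriv b) := by
      have h4 : ContDiff ℝ (3 + 1) b := by
        have := hp.bC
        norm_num
        exact this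
      exact ((contDiff_succ_iff_deriv (n := 3)).1 h4).2.2
    have hb' : Differentiable ℝ (deriv b) := hb3'.differentiable (by norm_num)
    rw [h1]
    have h2 : HasDerivAt (fun t => -t * deriv b t)
        (-1 * deriv b w.1 + -w.1 * deriv (deriv b) w.1) w.1 :=
      (hasDerivAt_neg' w.1).mul (hb' w.1).hasDerivAt
    rw [h2.deriv]
    ring
  have hDP : ∀ v, ‖Gl_bd_auxDP N lam b k w v‖ ≤ (2 * N + K1) / lam * ‖v‖ := by
    intro v
    rw [hK1d]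
    exact Gl_bd_aux_DPn Cb R N lam hCb hR hN hl hl1 b k w v ht hpw hb1 hk1
  have hT1 : ∀ (y : Gl_bd_auxY) (r : ℝ), ‖y‖ ≤ r →
      |fderiv ℝ T (Gl_bd_auxPsi N lam b k w) y| ≤ M * r := by
    intro y r hy
    exact (ContinuousLinearMap.le_opNorm _ _).trans (mul_le_mul B2 hy (norm_nonneg _) hM)
  refine ⟨?_, ?_, ?_⟩
  · rw [hGl]
    refine (Gl_bd_aux_coef hN hb1 B1).trans (le_trans ?_ hnum)
    have e1 : lam ^ 2 / N * (Cb / N) * M = Cb * M * (lam ^ 2 / N ^ 2) := by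
      field_simp
    rw [e1]
    apply mul_le_mul_of_nonneg_left _ (by positivity)
    apply div_le_div_of_nonneg_right _ (by positivity)
    have : 0 ≤ 2 * lam * (2 * N + K1) + 4 * K1 * N + K1 ^ 2 + K2 * lam := by positivity
    linarith
  · refine ContinuousLinearMap.opNorm_le_bound _ hC0 fun v => ?_
    have hn : 0 ≤ ‖v‖ := norm_nonneg v
    rw [Gl_bd_aux_D1 Cb N lam gd b k hN hl hp T hReg hT w v, Real.norm_eq_abs]
    have s1 : |-(lam ^ 2 / N) * (deriv (deriv b) w.1 * v.1) * T (Gl_bd_auxPsi N lam b k w)| ≤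
        lam ^ 2 / N * (Cb / N * ‖v‖) * M := by
      apply Gl_bd_aux_coef hN _ B1
      rw [abs_mul]
      exact mul_le_mul hb2 (Gl_bd_aux_cmp v).1 (abs_nonneg _) (by positivity)
    have s2 : |-(lam ^ 2 / N) * deriv b w.1 *
        fderiv ℝ T (Gl_bd_auxPsi N lam b k w) (Gl_bd_auxDP N lam b k w v)| ≤
        lam ^ 2 / N * (Cb / N) * (M * ((2 * N + K1) / lam * ‖v‖)) :=
      Gl_bd_aux_coef hN hb1 (hT1 _ _ (hDP v))
    refine (abs_add_le _ _).trans ((add_le_add s1 s2).trans ?_)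
    have e1 : lam ^ 2 / N * (Cb / N * ‖v‖) * M +
        lam ^ 2 / N * (Cb / N) * (M * ((2 * N + K1) / lam * ‖v‖)) =
        Cb * M * ((lam ^ 2 + lam * (2 * N + K1)) / N ^ 2) * ‖v‖ := by
      field_simp
    rw [e1]
    apply mul_le_mul_of_nonneg_right _ hn
    refine le_trans ?_ hnum
    apply mul_le_mul_of_nonneg_left _ (by positivity)
    apply div_le_div_of_nonneg_right _ (by positivity)
    have h1 : 0 ≤ 4 * K1 * N + K1 ^ 2 + K2 * lam := by positivity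
    have h2 : 0 ≤ lam * (2 * N + K1) := by positivity
    linarith
  · refine ContinuousLinearMap.opNorm_le_bound₂ _ hCE0 fun v1 v2 => ?_
    have hn1 : 0 ≤ ‖v1‖ := norm_nonneg v1
    have hn2 : 0 ≤ ‖v2‖ := norm_nonneg v2
    rw [Gl_bd_aux_D2 Cb N lam gd b k hN hl hp T hReg hT w v1 v2, Real.norm_eq_abs]
    have s1 : |-(lam ^ 2 / N) * (deriv (deriv (deriv b)) w.1 * v1.1 * v2.1) *
        T (Gl_bd_auxPsi N lam b k w)| ≤ lam ^ 2 / N * (Cb / N * ‖v1‖ * ‖v2‖) * M := by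
      apply Gl_bd_aux_coef hN _ B1
      rw [abs_mul, abs_mul]
      exact mul_le_mul (mul_le_mul hb3 (Gl_bd_aux_cmp v1).1 (abs_nonneg _) (by positivity))
        (Gl_bd_aux_cmp v2).1 (abs_nonneg _) (by positivity)
    have s2 : |-(lam ^ 2 / N) * (deriv (deriv b) w.1 * v2.1) *
        fderiv ℝ T (Gl_bd_auxPsi N lam b k w) (Gl_bd_auxDP N lam b k w v1)| ≤
        lam ^ 2 / N * (Cb / N * ‖v2‖) * (M * ((2 * N + K1) / lam * ‖v1‖)) := by
      apply Gl_bd_aux_coef hN _ (hT1 _ _ (hDP v1))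
      rw [abs_mul]
      exact mul_le_mul hb2 (Gl_bd_aux_cmp v2).1 (abs_nonneg _) (by positivity)
    have s3 : |-(lam ^ 2 / N) * (deriv (deriv b) w.1 * v1.1) *
        fderiv ℝ T (Gl_bd_auxPsi N lam b k w) (Gl_bd_auxDP N lam b k w v2)| ≤
        lam ^ 2 / N * (Cb / N * ‖v1‖) * (M * ((2 * N + K1) / lam * ‖v2‖)) := by
      apply Gl_bd_aux_coef hN _ (hT1 _ _ (hDP v2))
      rw [abs_mul]
      exact mul_le_mul hb2 (Gl_bd_aux_cmp v1).1 (abs_nonneg _) (by positivity)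
    have hcc : ∀ v : Gl_bd_auxW, |N / lam * v.2.2.1| ≤ N / lam * ‖v‖ := by
      intro v
      rw [abs_mul, abs_of_pos (div_pos hN0 hl)]
      exact mul_le_mul_of_nonneg_left (Gl_bd_aux_cmp v).2.2.1 (by positivity)
    have hRn : ∀ v, ‖Gl_bd_auxR N lam b k w v‖ ≤ K1 / lam * ‖v‖ := by
      intro v
      rw [hK1d]
      exact Gl_bd_aux_Rn Cb R N lam hCb hR hN hl hl1 b k w v ht hpw hb1 hk1
    have s4a := Gl_bd_aux_bil M E (N / lam * ‖v1‖) (N / lam * ‖v2‖) (K1 / lam * ‖v1‖)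
      (K1 / lam * ‖v2‖) (fderiv ℝ (fderiv ℝ T) (Gl_bd_auxPsi N lam b k w))
      (Gl_bd_auxU N w) (Gl_bd_auxR N lam b k w v1) (Gl_bd_auxR N lam b k w v2)
      (N / lam * v1.2.2.1) (N / lam * v2.2.2.1) B3 hM B4 hE (Gl_bd_aux_Un N hN w ht)
      (hcc v1) (hcc v2) (hRn v1) (hRn v2)
    rw [← Gl_bd_aux_dec N lam hN hl b k w v1, ← Gl_bd_aux_dec N lam hN hl b k w v2] at s4a
    have s4b := hT1 (Gl_bd_auxD2P N lam b k w v1 v2) (K2 / lam * (‖v1‖ * ‖v2‖)) (by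
      rw [hK2d]
      exact Gl_bd_aux_D2n Cb N lam hCb hN hl hl1 b k w v1 v2 ht hb1 hb2 hk2)
    have s4 := Gl_bd_aux_coef (lam := lam) hN hb1 ((abs_add_le _ _).trans (add_le_add s4a s4b))
    refine (abs_add_le _ _).trans ((add_le_add ((abs_add_le _ _).trans (add_le_add s1 s2))
      ((abs_add_le _ _).trans (add_le_add s3 s4))).trans ?_)
    have e1 : lam ^ 2 / N * (Cb / N * ‖v1‖ * ‖v2‖) * M +
        lam ^ 2 / N * (Cb / N * ‖v2‖) * (M * ((2 * N + K1) / lam * ‖v1‖)) +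
        (lam ^ 2 / N * (Cb / N * ‖v1‖) * (M * ((2 * N + K1) / lam * ‖v2‖)) +
        lam ^ 2 / N * (Cb / N) * (N / lam * ‖v1‖ * (N / lam * ‖v2‖) * E +
          2 * M * (N / lam * ‖v1‖) * (K1 / lam * ‖v2‖) +
          2 * M * (N / lam * ‖v2‖) * (K1 / lam * ‖v1‖) +
          M * (K1 / lam * ‖v1‖) * (K1 / lam * ‖v2‖) + M * (K2 / lam * (‖v1‖ * ‖v2‖)))) =
        (Cb * E + Cb * M * ((lam ^ 2 + 2 * lam * (2 * N + K1) + 4 * K1 * N + K1 ^ 2 +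
          K2 * lam) / N ^ 2)) * ‖v1‖ * ‖v2‖ := by
      field_simp
      ring
    rw [e1]
    apply mul_le_mul_of_nonneg_right _ hn2
    apply mul_le_mul_of_nonneg_right _ hn1
    linarith

end H867.FB
end
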