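import Pool.Agent.Helper867.FB.Defs2

set_option autoImplicit false
open Topology Set
open scoped ContDiff

noncomputable section

namespace H867.FB
open H930.FF

theorem cd_z {Y : Type*} [NormedAddCommGroup Y] [NormedSpace ℝ Y] (f : ℝ × ℝ × Y → ℝ)
    (O : Set (ℝ × ℝ × Y)) (hO : IsOpen O) (hf : ∀ v ∈ O, ContDiffAt ℝ ∞ f v) :
    ∀ v ∈ O, ContDiffAt ℝ ∞ (fun v : ℝ × ℝ × Y => deriv (fun z => f (z, v.2.1, v.2.2)) v.1) v := by
  intro v hv
  have h1 : ∀ w ∈ O, deriv (fun z => f (z, w.2.1, w.2.2)) w.1 = fderiv ℝ f w (1, 0, 0) := by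
    intro w hw
    have hd : HasFDerivAt f (fderiv ℝ f w) w :=
      ((hf w hw).differentiableAt (by simp)).hasFDerivAt
    have hg : HasDerivAt (fun z : ℝ => ((z, w.2.1, w.2.2) : ℝ × ℝ × Y)) (1, 0, 0) w.1 :=
      (hasDerivAt_id w.1).prodMk ((hasDerivAt_const _ _).prodMk (hasDerivAt_const _ _))
    have hd' : HasFDerivAt f (fderiv ℝ f w)
        ((fun z : ℝ => ((z, w.2.1, w.2.2) : ℝ × ℝ × Y)) w.1) := hd
    exact (hd'.comp_hasDerivAt w.1 hg).deriv
  have h2 : ContDiffAt ℝ ∞ (fun w => fderiv ℝ f w (1, 0, 0)) v :=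
    ((hf v hv).fderiv_right (m := ∞) (by simp)).clm_apply contDiffAt_const
  refine h2.congr_of_eventuallyEq ?_
  filter_upwards [hO.mem_nhds hv] with w hw using h1 w hw

end H867.FB
end
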