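import Pool.Agent.Helper867.FB.Defs2

set_option autoImplicit false
open Topology Set
open scoped ContDiff

noncomputable section

namespace H867.FB
open H930.FF

theorem sm_SS_aux1 (d : ℝ) :
    ContDiff ℝ ∞ (fun v : ℝ × ℝ × ℝ × ℝ × ℝ => sS d v.1 v.2.1 v.2.2.1) := by
  unfold sS amp chi
  have h1 : ContDiff ℝ ∞ (fun v : ℝ × ℝ × ℝ × ℝ × ℝ => Real.log (1 + v.1 ^ 2 + v.2.1 ^ 2)) := by
    apply ContDiff.log
    · fun_prop
    · intro v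
      positivity
  have h2 : ContDiff ℝ ∞ Real.smoothTransition := Real.smoothTransition.contDiff
  have h3 : ContDiff ℝ ∞ (fun v : ℝ × ℝ × ℝ × ℝ × ℝ =>
      2 - d * Real.log (1 + v.1 ^ 2 + v.2.1 ^ 2)) := contDiff_const.sub (contDiff_const.mul h1)
  have h4 : ContDiff ℝ ∞ (fun v : ℝ × ℝ × ℝ × ℝ × ℝ => v.2.2.1) := by fun_prop
  exact (h2.comp h4).mul (h2.comp h3)

theorem sm_SS_aux2 (d z g a b : ℝ) (hb : -1 < b) : 0 < 1 + sS d z g a * b := by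
  have h0 : 0 ≤ sS d z g a :=
    mul_nonneg (Real.smoothTransition.nonneg _) (Real.smoothTransition.nonneg _)
  have h1 : sS d z g a ≤ 1 :=
    mul_le_one₀ (Real.smoothTransition.le_one _) (Real.smoothTransition.nonneg _)
      (Real.smoothTransition.le_one _)
  rcases le_or_gt 0 b with h | h
  · have := mul_nonneg h0 h
    linarith
  · nlinarith

theorem sm_SS (d : ℝ) (v : ℝ × ℝ × ℝ × ℝ × ℝ) (hv : -1 < v.2.2.2.1) :
    ContDiffAt ℝ ∞ (fun v : ℝ × ℝ × ℝ × ℝ × ℝ =>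
      SS d v.1 v.2.1 v.2.2.1 v.2.2.2.1 v.2.2.2.2) v := by
  unfold SS QQ
  have h1 := (sm_SS_aux1 d).contDiffAt (x := v)
  have hz : ContDiffAt ℝ ∞ (fun v : ℝ × ℝ × ℝ × ℝ × ℝ => v.1) v := by fun_prop
  have hg : ContDiffAt ℝ ∞ (fun v : ℝ × ℝ × ℝ × ℝ × ℝ => v.2.1) v := by fun_prop
  have hb : ContDiffAt ℝ ∞ (fun v : ℝ × ℝ × ℝ × ℝ × ℝ => v.2.2.2.1) v := by fun_prop
  have hk : ContDiffAt ℝ ∞ (fun v : ℝ × ℝ × ℝ × ℝ × ℝ => v.2.2.2.2) v := by fun_prop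
  have h2 : ContDiffAt ℝ ∞ (fun v : ℝ × ℝ × ℝ × ℝ × ℝ =>
      1 + sS d v.1 v.2.1 v.2.2.1 * v.2.2.2.1) v := contDiffAt_const.add (h1.mul hb)
  have h3 : ContDiffAt ℝ ∞ (fun v : ℝ × ℝ × ℝ × ℝ × ℝ =>
      Real.sqrt (1 + sS d v.1 v.2.1 v.2.2.1 * v.2.2.2.1)) v :=
    h2.sqrt (sm_SS_aux2 d _ _ _ _ hv).ne'
  exact ((hg.mul hz).mul h3).sub ((((hg.pow 2).div_const 2).mul h1).mul hk)

end H867.FB
end
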