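import Pool.Agent.Helper867.FB.Defs2
import Pool.Agent.Helper867.FB.L_cd_z
import Pool.Agent.Helper867.FB.L_sm_SS

set_option autoImplicit false
open Topology Set
open scoped ContDiff

noncomputable section

namespace H867.FB
open H930.FF

theorem sm_Pz (d : ℝ) (v : ℝ × ℝ × ℝ × ℝ × ℝ) (hv : -1 < v.2.2.2.1) :
    ContDiffAt ℝ ∞ (fun v : ℝ × ℝ × ℝ × ℝ × ℝ =>
      Pz d v.1 v.2.1 v.2.2.1 v.2.2.2.1 v.2.2.2.2) v := by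
  have hO : IsOpen {v : ℝ × ℝ × ℝ × ℝ × ℝ | -1 < v.2.2.2.1} :=
    isOpen_lt continuous_const (by fun_prop)
  exact cd_z (fun v : ℝ × ℝ × ℝ × ℝ × ℝ => SS d v.1 v.2.1 v.2.2.1 v.2.2.2.1 v.2.2.2.2)
    {v : ℝ × ℝ × ℝ × ℝ × ℝ | -1 < v.2.2.2.1} hO (fun v hv => sm_SS d v hv) v hv

end H867.FB
end
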