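import Pool.Agent.Helper867.FB.Defs2
import Pool.Agent.Helper867.FB.L_sm_SS
import Pool.Agent.Helper867.FB.L_sm_Pz

set_option autoImplicit false
open Topology Set
open scoped ContDiff

noncomputable section

namespace H867.FB
open H930.FF

theorem L_C2 (d K Cb N lam : ℝ) (gd : Set ℤ) (b k : ℝ → ℝ) (h : Good d K) (hN : 1 ≤ N)
    (hl : 0 < lam) (hp : Prof Cb N gd b k) (ζ : ℝ × ℝ × ℝ × ℝ × ℝ → ℝ) (hζ : ZetOK d ζ) (a : ℝ) :
    ContDiff ℝ 2 (ZL ζ N lam b k a) ∧ ContDiff ℝ 2 (PL d ζ N lam b k a) ∧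
    ContDiff ℝ 2 (XL d ζ N lam b k a) ∧ ContDiff ℝ 2 (FL d ζ N lam b k a) := by
  have hN0 : (0 : ℝ) < N := by linarith
  have hInB : ∀ w : ℝ × ℝ × ℝ, InB (b w.1) (k w.1 / N) := by
    intro w
    refine ⟨?_, ?_, ?_⟩
    · have := hp.bge w.1
      norm_num at this ⊢
      linarith
    · have := hp.ble w.1
      linarith
    · rw [abs_div, abs_of_pos hN0, div_lt_iff₀ hN0]
      have := hp.kle w.1
      linarith
  have h24 : (2 : WithTop ℕ∞) ≤ 4 := by norm_num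
  have h2i : (2 : WithTop ℕ∞) ≤ ∞ := by
    exact WithTop.coe_le_coe.mpr (le_top : (2 : ℕ∞) ≤ ⊤)
  have hb : ContDiff ℝ 2 (fun w : ℝ × ℝ × ℝ => b w.1) := (hp.bC.of_le h24).comp contDiff_fst
  have hk : ContDiff ℝ 2 (fun w : ℝ × ℝ × ℝ => k w.1 / N) :=
    ((hp.kC.of_le h24).comp contDiff_fst).div_const N
  have hy : ContDiff ℝ 2 (fun w : ℝ × ℝ × ℝ => (w.2.1 - w.1 * w.2.2) / lam) := by fun_prop
  have hg : ContDiff ℝ 2 (fun w : ℝ × ℝ × ℝ => w.2.2 * N / lam) := by fun_prop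
  have hZ : ContDiff ℝ 2 (ZL ζ N lam b k a) := by
    rw [contDiff_iff_contDiffAt]
    intro w
    have h1 := (hζ.sm ((w.2.1 - w.1 * w.2.2) / lam) (w.2.2 * N / lam) a (b w.1) (k w.1 / N)
      (hInB w)).of_le h2i
    exact ContDiffAt.comp w (f := fun w : ℝ × ℝ × ℝ =>
      ((w.2.1 - w.1 * w.2.2) / lam, w.2.2 * N / lam, a, b w.1, k w.1 / N)) h1
      (hy.prodMk (hg.prodMk (contDiff_const.prodMk (hb.prodMk hk)))).contDiffAt
  have hin : ContDiff ℝ 2 (fun w : ℝ × ℝ × ℝ =>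
      (ZL ζ N lam b k a w, w.2.2 * N / lam, a, b w.1, k w.1 / N)) :=
    hZ.prodMk (hg.prodMk (contDiff_const.prodMk (hb.prodMk hk)))
  have hlow : ∀ w : ℝ × ℝ × ℝ, -1 < b w.1 := by
    intro w
    have := hp.bge w.1
    norm_num at this ⊢
    linarith
  have hPz : ContDiff ℝ 2 (fun w : ℝ × ℝ × ℝ =>
      Pz d (ZL ζ N lam b k a w) (w.2.2 * N / lam) a (b w.1) (k w.1 / N)) := by
    rw [contDiff_iff_contDiffAt]
    intro w
    have h1 := (sm_Pz d (ZL ζ N lam b k a w, w.2.2 * N / lam, a, b w.1, k w.1 / N)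
      (hlow w)).of_le h2i
    exact ContDiffAt.comp w (f := fun w : ℝ × ℝ × ℝ =>
      (ZL ζ N lam b k a w, w.2.2 * N / lam, a, b w.1, k w.1 / N)) h1 hin.contDiffAt
  have hSS : ContDiff ℝ 2 (fun w : ℝ × ℝ × ℝ =>
      SS d (ZL ζ N lam b k a w) (w.2.2 * N / lam) a (b w.1) (k w.1 / N)) := by
    rw [contDiff_iff_contDiffAt]
    intro w
    have h1 := (sm_SS d (ZL ζ N lam b k a w, w.2.2 * N / lam, a, b w.1, k w.1 / N)
      (hlow w)).of_le h2i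
    exact ContDiffAt.comp w (f := fun w : ℝ × ℝ × ℝ =>
      (ZL ζ N lam b k a w, w.2.2 * N / lam, a, b w.1, k w.1 / N)) h1 hin.contDiffAt
  have hP : ContDiff ℝ 2 (PL d ζ N lam b k a) := contDiff_const.mul hPz
  have hX : ContDiff ℝ 2 (XL d ζ N lam b k a) :=
    (contDiff_const.mul hZ).add (contDiff_fst.mul hP)
  refine ⟨hZ, hP, hX, ?_⟩
  have h5 : ContDiff ℝ 2 (fun w : ℝ × ℝ × ℝ => w.2.2) := contDiff_snd.snd
  exact (contDiff_const.mul (hSS.sub (hg.mul hy))).add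
    ((contDiff_fst.mul ((hP.pow 2).sub (h5.pow 2))).div_const 2)

end H867.FB
end
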