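import Pool.Agent.Helper867.FB.Defs2
import Pool.Agent.Helper867.FB.L_sm_SS

set_option autoImplicit false
open Topology Set
open scoped ContDiff

noncomputable section

namespace H867.FB
open H930.FF

theorem axis_aux_deriv (h : ℝ → ℝ) (hc : ContinuousAt h 0) :
    HasDerivAt (fun g : ℝ => g * h g) (h 0) 0 := by
  rw [hasDerivAt_iff_tendsto_slope]
  have h1 : Filter.Tendsto h (𝓝[≠] 0) (𝓝 (h 0)) := hc.tendsto.mono_left nhdsWithin_le_nhds
  refine h1.congr' ?_
  filter_upwards [self_mem_nhdsWithin] with g hg
  have hg' : g ≠ 0 := hg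
  rw [slope_def_field]
  field_simp
  ring

theorem axis_aux_chi : Continuous chi := by
  unfold chi
  exact Real.smoothTransition.continuous.comp (continuous_const.sub continuous_id)

theorem axis_aux_sS (d z a : ℝ) : Continuous (fun g : ℝ => sS d z g a) := by
  unfold sS
  refine continuous_const.mul (axis_aux_chi.comp (continuous_const.mul ?_))
  refine Continuous.log (by fun_prop) (fun g => ?_)
  positivity

theorem axis_aux_QQ (d z a b : ℝ) : Continuous (fun g : ℝ => QQ d z g a b) := by
  unfold QQ
  exact (continuous_const.add ((axis_aux_sS d z a).mul continuous_const)).sqrt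

theorem axis (d z a b κ : ℝ) (hb : -1 < b) :
    Pz d z 0 a b κ = 0 ∧ Th d z 0 a b κ = z * QQ d z 0 a b := by
  constructor
  · unfold Pz pz SSa SS
    simp
  · unfold Th pg SSa
    have hH : Continuous (fun g : ℝ => z * QQ d z g a b - g / 2 * sS d z g a * κ) :=
      (continuous_const.mul (axis_aux_QQ d z a b)).sub
        (((continuous_id.div_const 2).mul (axis_aux_sS d z a)).mul continuous_const)
    have h1 := axis_aux_deriv (fun g : ℝ => z * QQ d z g a b - g / 2 * sS d z g a * κ)
      hH.continuousAt
    have h2 : (fun g' : ℝ => SS d z g' a b κ)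
        = fun g : ℝ => g * (z * QQ d z g a b - g / 2 * sS d z g a * κ) := by
      funext g
      unfold SS
      ring
    show deriv (fun g' : ℝ => SS d z g' a b κ) 0 = _
    rw [h2, h1.deriv]
    ring

end H867.FB
end
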