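import Pool.Agent.Helper867.FB.Defs2

set_option autoImplicit false
open Topology Set
open scoped ContDiff

noncomputable section

namespace H867.FB
open H930.FF

theorem mixed_bd_aux_s (d z g a : ℝ) : 0 ≤ sS d z g a ∧ sS d z g a ≤ 1 := by
  unfold sS amp chi
  refine ⟨mul_nonneg (Real.smoothTransition.nonneg _) (Real.smoothTransition.nonneg _), ?_⟩
  exact mul_le_one₀ (Real.smoothTransition.le_one _) (Real.smoothTransition.nonneg _)
    (Real.smoothTransition.le_one _)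

/-- size of the mixed derivative -/
theorem mixed_bd (d K a b κ z g : ℝ) (h : Good d K) (hb : 1 / 8000000 - 1 ≤ b) (hb3 : b ≤ 3)
    (hk : |κ| ≤ 4) :
    1 / 4000 ≤ pg (pz (SSa d a b κ)) z g ∧ pg (pz (SSa d a b κ)) z g ≤ 9 / 4 ∧
    (b ≤ 2 → pg (pz (SSa d a b κ)) z g ≤ 1.74) := by
  obtain ⟨hs0, hs1⟩ := mixed_bd_aux_s d z g a
  have h1 := abs_le.1 ((h.zg a b κ z g hb hb3 hk).trans h.Kd)
  have hlow : (1 / 8000000 : ℝ) ≤ 1 + sS d z g a * b := by
    nlinarith
  have hQ : (3.5 / 10 ^ 4 : ℝ) ≤ QQ d z g a b := by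
    unfold QQ
    refine Real.le_sqrt_of_sq_le ?_
    refine le_trans ?_ hlow
    norm_num
  have hQ2 : QQ d z g a b ≤ 2 := by
    unfold QQ
    rw [Real.sqrt_le_left (by norm_num)]
    nlinarith
  refine ⟨?_, ?_, ?_⟩
  · norm_num at hQ h1 ⊢
    linarith [h1.1]
  · norm_num at h1 ⊢
    linarith [h1.2]
  · intro hb2
    have hQ3 : QQ d z g a b ≤ 1.7321 := by
      unfold QQ
      rw [Real.sqrt_le_left (by norm_num)]
      nlinarith
    norm_num at h1 hQ3 ⊢
    linarith [h1.2]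

end H867.FB
end
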