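import Pool.Agent.Helper867.FB.Defs2
import Pool.Agent.Helper867.FB.L_axis
import Pool.Agent.Helper867.FB.L_mixed_bd
import Pool.Agent.Helper867.FB.L_sm_Pz

set_option autoImplicit false
open Topology Set
open scoped ContDiff

noncomputable section

namespace H867.FB
open H930.FF

theorem Pz_le_aux1 (d z a b κ : ℝ) (hb : -1 < b) (g : ℝ) :
    DifferentiableAt ℝ (fun g' => Pz d z g' a b κ) g := by
  have h1 := (sm_Pz d (z, g, a, b, κ) hb).differentiableAt (by simp)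
  have h2 : DifferentiableAt ℝ (fun g' : ℝ => ((z, g', a, b, κ) : ℝ × ℝ × ℝ × ℝ × ℝ)) g := by
    fun_prop
  have h3 := DifferentiableAt.comp (f := fun g' : ℝ => ((z, g', a, b, κ) : ℝ × ℝ × ℝ × ℝ × ℝ))
    (g := fun v : ℝ × ℝ × ℝ × ℝ × ℝ => Pz d v.1 v.2.1 v.2.2.1 v.2.2.2.1 v.2.2.2.2) g h1 h2
  exact h3

theorem Pz_le_aux2 (d K z a b κ : ℝ) (hb : -1 < b) (C : ℝ)
    (hC : ∀ g, |pg (pz (SSa d a b κ)) z g| ≤ C) (g : ℝ) :
    |Pz d z g a b κ| ≤ C * |g| := by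
  have h1 := Convex.norm_image_sub_le_of_norm_deriv_le (f := fun g' => Pz d z g' a b κ) (C := C)
    (s := Set.univ) (x := 0) (y := g) (fun x _ => Pz_le_aux1 d z a b κ hb x)
    (fun x _ => hC x) convex_univ (Set.mem_univ _) (Set.mem_univ _)
  have h2 := (axis d z a b κ hb).1
  simp only [h2, sub_zero, Real.norm_eq_abs] at h1
  exact h1

theorem Pz_le (d K z g a b κ : ℝ) (h : Good d K) (hb : 1 / 8000000 - 1 ≤ b) (hb3 : b ≤ 3)
    (hk : |κ| ≤ 4) :
    |Pz d z g a b κ| ≤ 9 / 4 * |g| ∧ (b ≤ 2 → |Pz d z g a b κ| ≤ 1.74 * |g|) := by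
  have hb1 : -1 < b := by
    have : (0 : ℝ) < 1 / 8000000 := by norm_num
    linarith
  constructor
  · refine Pz_le_aux2 d K z a b κ hb1 _ (fun g' => ?_) g
    obtain ⟨h1, h2, _⟩ := mixed_bd d K a b κ z g' h hb hb3 hk
    rw [abs_of_nonneg (le_trans (by norm_num) h1)]
    exact h2
  · intro hb2
    refine Pz_le_aux2 d K z a b κ hb1 _ (fun g' => ?_) g
    obtain ⟨h1, _, h3⟩ := mixed_bd d K a b κ z g' h hb hb3 hk
    rw [abs_of_nonneg (le_trans (by norm_num) h1)]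
    exact h3 hb2

end H867.FB
end
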