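import Pool.Agent.Helper867.FB.Defs2
import Pool.Agent.Helper867.FB.L_Pz_le

set_option autoImplicit false
open Topology Set
open scoped ContDiff

noncomputable section

namespace H867.FB
open H930.FF

theorem Tc_supp_aux1 (d z g a : ℝ) (hd : 0 < d)
    (h : Real.exp (1 / d) < |z| ∨ Real.exp (1 / d) < |g|) : sS d z g a = 0 := by
  have he : 0 < Real.exp (1 / d) := Real.exp_pos _
  have h2 : Real.exp (1 / d) ^ 2 = Real.exp (2 / d) := by
    rw [← Real.exp_nat_mul]; congr 1; push_cast; ring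
  have h1 : Real.exp (2 / d) < 1 + z ^ 2 + g ^ 2 := by
    rw [← h2]
    rcases h with h | h
    · have : Real.exp (1 / d) ^ 2 < |z| ^ 2 := pow_lt_pow_left₀ h he.le (by norm_num)
      rw [sq_abs] at this
      nlinarith [sq_nonneg g]
    · have : Real.exp (1 / d) ^ 2 < |g| ^ 2 := pow_lt_pow_left₀ h he.le (by norm_num)
      rw [sq_abs] at this
      nlinarith [sq_nonneg z]
  have h3 : 2 / d < Real.log (1 + z ^ 2 + g ^ 2) := by
    rw [Real.lt_log_iff_exp_lt (by positivity)]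
    exact h1
  have h4 : 2 < d * Real.log (1 + z ^ 2 + g ^ 2) := by
    rw [div_lt_iff₀ hd] at h3
    linarith
  unfold sS chi
  rw [Real.smoothTransition.zero_of_nonpos (by linarith), mul_zero]

theorem Tc_supp (d K : ℝ) (h : Good d K) (Γ : ℝ × ℝ × ℝ × ℝ × ℝ → ℝ) (hΓ : GamOK d Γ)
    (z p a b κ τ : ℝ) (hy : InB b κ)
    (hzp : Real.exp (1 / d) < |z| ∨ 5 / 2 * Real.exp (1 / d) < |p|) :
    Tc d Γ (z, p, a, b, κ, τ) = 0 := by
  have hs : sS d z (Γ (z, p, a, b, κ)) a = 0 := by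
    apply Tc_supp_aux1 d z _ a h.d0
    rcases hzp with h1 | h1
    · exact Or.inl h1
    · right
      obtain ⟨hb1, hb2, hb3⟩ := hy
      have h2 := (Pz_le d K z (Γ (z, p, a, b, κ)) a b κ h hb1.le hb2.le hb3.le).1
      rw [hΓ.r z p a b κ ⟨hb1, hb2, hb3⟩] at h2
      have he : 0 < Real.exp (1 / d) := Real.exp_pos _
      linarith
  unfold Tc TT
  simp only
  rw [hs]
  ring

end H867.FB
end
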