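import Pool.Agent.Helper867.FB.Defs2
import Pool.Agent.Helper867.FB.L_axis

set_option autoImplicit false
open Topology Set
open scoped ContDiff

noncomputable section

namespace H867.FB
open H930.FF

theorem Tc_zero (d K : ℝ) (h : Good d K) (Γ : ℝ × ℝ × ℝ × ℝ × ℝ → ℝ) (hΓ : GamOK d Γ)
    (z p a b κ τ : ℝ) (hy : InB b κ) (hzp : p = 0 ∨ a ≤ 0) :
    Tc d Γ (z, p, a, b, κ, τ) = 0 := by
  rcases hzp with rfl | ha
  · have hb : -1 < b := by
      have := hy.1
      linarith
    have h1 := hΓ.l z 0 a b κ hy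
    rw [(axis d z a b κ hb).1] at h1
    simp only [Tc]
    rw [h1]
    simp [TT]
  · have h1 : amp a = 0 := Real.smoothTransition.zero_of_nonpos ha
    simp [Tc, TT, sS, h1]

end H867.FB
end
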