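import Pool.Agent.Helper867.FB.Defs2
import Pool.Agent.Helper867.FB.L_Tc_supp
import Pool.Agent.Helper867.FB.L_Tc_zero

set_option autoImplicit false
open Topology Set
open scoped ContDiff

noncomputable section

namespace H867.FB
open H930.FF

theorem L_G_aux_act (Cb N : ℝ) (gd : Set ℤ) (b k : ℝ → ℝ) (hN : 1 ≤ N) (hp : Prof Cb N gd b k)
    (t : ℝ) (ht : 2 * N < |t|) : deriv b t = 0 := by
  refine hp.act t (fun i hi hti => ?_)
  have h1 : |t| ≤ 2 * N := by
    rw [abs_le]
    rcases hp.gdr i hi with h | h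
    · constructor <;> linarith [h.1, h.2, hti.1, hti.2]
    · constructor <;> linarith [h.1, h.2, hti.1, hti.2]
  linarith

/-- support of the perturbation -/
theorem L_G (d K Cb N lam : ℝ) (gd : Set ℤ) (b k : ℝ → ℝ) (h : Good d K) (hN : 1 ≤ N)
    (hl : 0 < lam) (hp : Prof Cb N gd b k) (Γ : ℝ × ℝ × ℝ × ℝ × ℝ → ℝ) (hΓ : GamOK d Γ)
    (t x p a : ℝ) :
    (3 * Real.exp (1 / d) * lam / N ≤ |p| → Gl N lam b k (Tc d Γ) (t, x, p, a) = 0) ∧
    Gl N lam b k (Tc d Γ) (t, x, 0, a) = 0 ∧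
    (a ≤ 0 → Gl N lam b k (Tc d Γ) (t, x, p, a) = 0) ∧
    (((∀ i ∈ gd, ¬ ((i : ℝ) ≤ t ∧ t ≤ i + 1)) ∨ 7 * Real.exp (1 / d) * lam < |x|) →
      Gl N lam b k (Tc d Γ) (t, x, p, a) = 0) := by
  have hN0 : 0 < N := by linarith
  have hR : 0 < Real.exp (1 / d) := Real.exp_pos _
  set R := Real.exp (1 / d) with hRdef
  have hB : InB (b t) (k t / N) := by
    refine ⟨?_, ?_, ?_⟩
    · have := hp.bge t
      norm_num at this ⊢
      linarith
    · have := hp.ble t
      linarith
    · rw [abs_div, abs_of_pos hN0, div_lt_iff₀ hN0]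
      have := hp.kle t
      linarith
  have hz : ∀ p, (Tc d Γ ((x - t * p) / lam, p * N / lam, a, b t, k t / N, t / N) = 0 ∨
      deriv b t = 0) → Gl N lam b k (Tc d Γ) (t, x, p, a) = 0 := by
    intro p hp0
    show -(lam ^ 2 / N) * deriv b t *
      Tc d Γ ((x - t * p) / lam, p * N / lam, a, b t, k t / N, t / N) = 0
    rcases hp0 with h0 | h0
    · rw [h0, mul_zero]
    · rw [h0, mul_zero, zero_mul]
  have habs : ∀ p : ℝ, |p * N / lam| = |p| * N / lam := by
    intro p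
    rw [abs_div, abs_mul, abs_of_pos hN0, abs_of_pos hl]
  refine ⟨?_, ?_, ?_, ?_⟩
  · intro h1
    refine hz p (Or.inl ?_)
    refine Tc_supp d K h Γ hΓ _ _ _ _ _ _ hB (Or.inr ?_)
    rw [habs, lt_div_iff₀ hl]
    rw [div_le_iff₀ hN0] at h1
    have : 0 < R * lam := mul_pos hR hl
    nlinarith
  · refine hz 0 (Or.inl ?_)
    exact Tc_zero d K h Γ hΓ _ _ _ _ _ _ hB (Or.inl (by simp))
  · intro ha
    refine hz p (Or.inl ?_)
    exact Tc_zero d K h Γ hΓ _ _ _ _ _ _ hB (Or.inr ha)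
  · intro h1
    rcases h1 with h1 | h1
    · exact hz p (Or.inr (hp.act t h1))
    · by_cases ht : 2 * N < |t|
      · exact hz p (Or.inr (L_G_aux_act Cb N gd b k hN hp t ht))
      · push Not at ht
        refine hz p (Or.inl ?_)
        by_cases hpp : 5 / 2 * R < |p * N / lam|
        · exact Tc_supp d K h Γ hΓ _ _ _ _ _ _ hB (Or.inr hpp)
        · push Not at hpp
          refine Tc_supp d K h Γ hΓ _ _ _ _ _ _ hB (Or.inl ?_)
          rw [habs, div_le_iff₀ hl] at hpp
          rw [abs_div, abs_of_pos hl, lt_div_iff₀ hl]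
          have h2 : |x| - |t * p| ≤ |x - t * p| := abs_sub_abs_le_abs_sub x (t * p)
          have h3 : |t * p| ≤ 2 * N * |p| := by
            rw [abs_mul]
            exact mul_le_mul_of_nonneg_right ht (abs_nonneg p)
          have h4 : 2 * N * |p| ≤ 5 * R * lam := by nlinarith
          have : 0 < R * lam := mul_pos hR hl
          nlinarith

end H867.FB
end
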