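import Pool.Agent.Helper867.FB.Defs2

set_option autoImplicit false
open Topology Set
open scoped ContDiff

noncomputable section

namespace H867.FB
open H930.FF

theorem far_aux_s (d a z g : ℝ) (h : 2 < d * Real.log (1 + z ^ 2 + g ^ 2)) :
    sS d z g a = 0 := by
  unfold sS chi
  rw [Real.smoothTransition.zero_of_nonpos (by linarith), mul_zero]

theorem far_aux_cont1 (d g : ℝ) : Continuous fun z : ℝ => d * Real.log (1 + z ^ 2 + g ^ 2) := by
  refine continuous_const.mul (Continuous.log (by fun_prop) fun z => ?_)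
  positivity

theorem far_aux_cont2 (d z : ℝ) : Continuous fun g : ℝ => d * Real.log (1 + z ^ 2 + g ^ 2) := by
  refine continuous_const.mul (Continuous.log (by fun_prop) fun g => ?_)
  positivity

theorem far_aux_pz (d : ℝ) (f h : ℝ → ℝ → ℝ)
    (hfh : ∀ z g, 2 < d * Real.log (1 + z ^ 2 + g ^ 2) → f z g = h z g) (z g : ℝ)
    (hU : 2 < d * Real.log (1 + z ^ 2 + g ^ 2)) : pz f z g = pz h z g := by
  unfold pz
  apply Filter.EventuallyEq.deriv_eq
  filter_upwards [(isOpen_lt continuous_const (far_aux_cont1 d g)).mem_nhds hU] with z' hz'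
  exact hfh z' g hz'

theorem far_aux_pg (d : ℝ) (f h : ℝ → ℝ → ℝ)
    (hfh : ∀ z g, 2 < d * Real.log (1 + z ^ 2 + g ^ 2) → f z g = h z g) (z g : ℝ)
    (hU : 2 < d * Real.log (1 + z ^ 2 + g ^ 2)) : pg f z g = pg h z g := by
  unfold pg
  apply Filter.EventuallyEq.deriv_eq
  filter_upwards [(isOpen_lt continuous_const (far_aux_cont2 d z)).mem_nhds hU] with g' hg'
  exact hfh z g' hg'

theorem far (d a b κ τ z g : ℝ) (hd : 0 < d) (h : 2 < d * Real.log (1 + z ^ 2 + g ^ 2)) :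
    sS d z g a = 0 ∧ QQ d z g a b = 1 ∧ pz (pz (SSa d a b κ)) z g = 0 ∧
    pg (pz (SSa d a b κ)) z g = 1 ∧ pg (pg (SSa d a b κ)) z g = 0 ∧
    DD (SSa d a b κ) τ (DD (SSa d a b κ) τ (TTa d a b τ)) z g = 0 ∧
    Pz d z g a b κ = g ∧ Th d z g a b κ = z ∧ SS d z g a b κ = g * z := by
  have hs : ∀ z g, 2 < d * Real.log (1 + z ^ 2 + g ^ 2) → sS d z g a = 0 :=
    fun z g h => far_aux_s d a z g h
  have hQ : ∀ z g, 2 < d * Real.log (1 + z ^ 2 + g ^ 2) → QQ d z g a b = 1 := by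
    intro z g h
    unfold QQ
    rw [hs z g h, zero_mul, add_zero, Real.sqrt_one]
  have hS : ∀ z g, 2 < d * Real.log (1 + z ^ 2 + g ^ 2) →
      SSa d a b κ z g = (fun z g => g * z) z g := by
    intro z g h
    unfold SSa SS
    rw [hs z g h, hQ z g h]
    ring
  have hT : ∀ z g, 2 < d * Real.log (1 + z ^ 2 + g ^ 2) →
      TTa d a b τ z g = (fun _ _ => (0:ℝ)) z g := by
    intro z g h
    unfold TTa TT
    rw [hs z g h]
    ring
  have hzero1 : ∀ z g, pz (fun _ _ => (0:ℝ)) z g = 0 := by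
    intro z g; unfold pz; simp
  have hzero2 : ∀ z g, pg (fun _ _ => (0:ℝ)) z g = 0 := by
    intro z g; unfold pg; simp
  have hpzS : ∀ z g, 2 < d * Real.log (1 + z ^ 2 + g ^ 2) →
      pz (SSa d a b κ) z g = (fun _ g => g) z g := by
    intro z g h
    rw [far_aux_pz d _ _ hS z g h]
    unfold pz
    have h1 : HasDerivAt (fun z' : ℝ => g * z') (g * 1) z := (hasDerivAt_id z).const_mul g
    rw [h1.deriv, mul_one]
  have hpgS : ∀ z g, 2 < d * Real.log (1 + z ^ 2 + g ^ 2) →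
      pg (SSa d a b κ) z g = (fun z _ => z) z g := by
    intro z g h
    rw [far_aux_pg d _ _ hS z g h]
    unfold pg
    have h1 : HasDerivAt (fun g' : ℝ => g' * z) (1 * z) g := (hasDerivAt_id g).mul_const z
    rw [h1.deriv, one_mul]
  have hDT : ∀ z g, 2 < d * Real.log (1 + z ^ 2 + g ^ 2) →
      DD (SSa d a b κ) τ (TTa d a b τ) z g = (fun _ _ => (0:ℝ)) z g := by
    intro z g h
    unfold DD
    rw [far_aux_pz d _ _ hT z g h, far_aux_pg d _ _ hT z g h, hzero1, hzero2]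
    ring
  refine ⟨hs z g h, hQ z g h, ?_, ?_, ?_, ?_, hpzS z g h, hpgS z g h, hS z g h⟩
  · rw [far_aux_pz d _ _ hpzS z g h]
    unfold pz
    simp
  · rw [far_aux_pg d _ _ hpzS z g h]
    unfold pg
    simp
  · rw [far_aux_pg d _ _ hpgS z g h]
    unfold pg
    simp
  · have : DD (SSa d a b κ) τ (DD (SSa d a b κ) τ (TTa d a b τ)) z g =
        -τ * pz (DD (SSa d a b κ) τ (TTa d a b τ)) z g +
          om (SSa d a b κ) τ z g * pg (DD (SSa d a b κ) τ (TTa d a b τ)) z g := rfl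
    rw [this, far_aux_pz d _ _ hDT z g h, far_aux_pg d _ _ hDT z g h, hzero1, hzero2]
    ring

end H867.FB
end
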