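import Pool.Agent.Helper867.FB.Defs2
import Pool.Agent.Helper867.FB.L_far

set_option autoImplicit false
open Topology Set
open scoped ContDiff

noncomputable section

namespace H867.FB
open H930.FF

theorem L_id_aux1 (d a z g : ℝ) : SS d z g a 0 0 = g * z := by
  simp [SS, QQ]

theorem L_id_aux2 (d a z g : ℝ) : Pz d z g a 0 0 = g ∧ Th d z g a 0 0 = z := by
  have h : SSa d a 0 0 = fun z g => g * z := by
    funext z g
    exact L_id_aux1 d a z g
  constructor
  · unfold Pz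
    rw [h]
    show deriv (fun z' : ℝ => g * z') z = g
    rw [((hasDerivAt_id' z).const_mul g).deriv, mul_one]
  · unfold Th
    rw [h]
    show deriv (fun g' : ℝ => g' * z) g = z
    rw [((hasDerivAt_id' g).mul_const z).deriv, one_mul]

theorem L_id (d K Cb N lam : ℝ) (gd : Set ℤ) (b k : ℝ → ℝ) (h : Good d K) (hN : 1 ≤ N)
    (hl : 0 < lam) (hp : Prof Cb N gd b k) (ζ : ℝ × ℝ × ℝ × ℝ × ℝ → ℝ) (hζ : ZetOK d ζ) (a : ℝ)
    (w : ℝ × ℝ × ℝ)
    (hw : 2 * N ≤ |w.1| ∨ 2 < d * Real.log (1 + ZL ζ N lam b k a w ^ 2 + (w.2.2 * N / lam) ^ 2)) :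
    XL d ζ N lam b k a w = w.2.1 ∧ PL d ζ N lam b k a w = w.2.2 ∧ FL d ζ N lam b k a w = 0 := by
  have hN0 : 0 < N := by linarith
  have key : ZL ζ N lam b k a w = (w.2.1 - w.1 * w.2.2) / lam ∧
      Pz d (ZL ζ N lam b k a w) (w.2.2 * N / lam) a (b w.1) (k w.1 / N) = w.2.2 * N / lam ∧
      SS d (ZL ζ N lam b k a w) (w.2.2 * N / lam) a (b w.1) (k w.1 / N) =
        w.2.2 * N / lam * ZL ζ N lam b k a w := by
    rcases hw with hw | hw
    · have hb := hp.bout _ hw
      have hk := hp.kout _ hw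
      have hB : InB 0 0 := ⟨by norm_num, by norm_num, by norm_num⟩
      have e1 : ZL ζ N lam b k a w =
          ζ ((w.2.1 - w.1 * w.2.2) / lam, w.2.2 * N / lam, a, 0, 0) := by
        simp only [ZL, hb, hk, zero_div]
      have e2 := hζ.l ((w.2.1 - w.1 * w.2.2) / lam) (w.2.2 * N / lam) a 0 0 hB
      rw [(L_id_aux2 _ _ _ _).2] at e2
      rw [hb, hk, zero_div]
      exact ⟨e1.trans e2, (L_id_aux2 _ _ _ _).1, L_id_aux1 _ _ _ _⟩
    · have hB : InB (b w.1) (k w.1 / N) := by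
        refine ⟨?_, ?_, ?_⟩
        · have := hp.bge w.1
          norm_num at this ⊢
          linarith
        · have := hp.ble w.1
          linarith
        · rw [abs_div, abs_of_pos hN0, div_lt_iff₀ hN0]
          have := hp.kle w.1
          linarith
      obtain ⟨_, _, _, _, _, _, h7, h8, h9⟩ := far d a (b w.1) (k w.1 / N) 0
        (ZL ζ N lam b k a w) (w.2.2 * N / lam) h.d0 hw
      have e2 := hζ.r ((w.2.1 - w.1 * w.2.2) / lam) (w.2.2 * N / lam) a (b w.1) (k w.1 / N) hB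
      refine ⟨?_, h7, h9⟩
      rw [← e2]
      exact h8.symm
  obtain ⟨k1, k2, k3⟩ := key
  have hP : PL d ζ N lam b k a w = w.2.2 := by
    unfold PL
    rw [k2]
    field_simp
  refine ⟨?_, hP, ?_⟩
  · unfold XL
    rw [hP, k1]
    field_simp
    ring
  · unfold FL
    rw [k3, hP, k1]
    ring

end H867.FB
end
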