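import Pool.Agent.Helper867.FB.Defs2

set_option autoImplicit false
open Topology Set
open scoped ContDiff

noncomputable section

namespace H867.FB
open H930.FF

theorem cd_g {Y : Type*} [NormedAddCommGroup Y] [NormedSpace ℝ Y] (f : ℝ × ℝ × Y → ℝ)
    (O : Set (ℝ × ℝ × Y)) (hO : IsOpen O) (hf : ∀ v ∈ O, ContDiffAt ℝ ∞ f v) :
    ∀ v ∈ O, ContDiffAt ℝ ∞ (fun v : ℝ × ℝ × Y => deriv (fun g => f (v.1, g, v.2.2)) v.2.1) v := by
  have h : ∀ v ∈ O, deriv (fun g => f (v.1, g, v.2.2)) v.2.1 = fderiv ℝ f v (0, 1, 0) := by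
    intro v hv
    have hd : HasFDerivAt f (fderiv ℝ f v) v :=
      ((hf v hv).differentiableAt (by simp)).hasFDerivAt
    have hc : HasDerivAt (fun g : ℝ => (v.1, g, v.2.2)) ((0 : ℝ), (1 : ℝ), (0 : Y)) v.2.1 :=
      (hasDerivAt_const _ _).prodMk ((hasDerivAt_id _).prodMk (hasDerivAt_const _ _))
    exact (HasFDerivAt.comp_hasDerivAt v.2.1 hd hc).deriv
  intro v hv
  have h1 : ContDiffAt ℝ ∞ (fderiv ℝ f) v := (hf v hv).fderiv_right (by simp)
  have h2 : ContDiffAt ℝ ∞ (fun v => fderiv ℝ f v ((0 : ℝ), (1 : ℝ), (0 : Y))) v :=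
    h1.clm_apply contDiffAt_const
  refine h2.congr_of_eventuallyEq ?_
  filter_upwards [hO.mem_nhds hv] with w hw
  exact h w hw

end H867.FB
end
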