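import Pool.Agent.Helper867.FB.Defs2
import Pool.Agent.Helper867.FB.L_axis
import Pool.Agent.Helper867.FB.L_sm_Th

set_option autoImplicit false
open Topology Set
open scoped ContDiff

noncomputable section

namespace H867.FB
open H930.FF

theorem Th_le_aux_s (d z g a : ℝ) : 0 ≤ sS d z g a ∧ sS d z g a ≤ 1 := by
  unfold sS amp chi
  have h1 := Real.smoothTransition.nonneg a
  have h2 := Real.smoothTransition.le_one a
  have h3 := Real.smoothTransition.nonneg (2 - d * Real.log (1 + z ^ 2 + g ^ 2))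
  have h4 := Real.smoothTransition.le_one (2 - d * Real.log (1 + z ^ 2 + g ^ 2))
  exact ⟨mul_nonneg h1 h3, mul_le_one₀ h2 h3 h4⟩

theorem Th_le_aux_q (d z g a b : ℝ) (hb2 : b ≤ 2) : QQ d z g a b ≤ 1.74 := by
  obtain ⟨h0, h1⟩ := Th_le_aux_s d z g a
  unfold QQ
  rw [Real.sqrt_le_left (by norm_num)]
  have : sS d z g a * b ≤ 2 := by
    rcases le_total b 0 with hb | hb
    · have := mul_nonpos_of_nonneg_of_nonpos h0 hb
      linarith
    · nlinarith
  norm_num
  linarith

theorem Th_le (d K z g a b κ : ℝ) (h : Good d K) (hb : 1 / 8000000 - 1 ≤ b) (hb2 : b ≤ 2)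
    (hk : |κ| ≤ 3) :
    |Th d z g a b κ| ≤ 1.74 * |z| + 3.01 * |g| := by
  have hb1 : -1 < b := by linarith
  have hdiff : ∀ t : ℝ, DifferentiableAt ℝ (fun t : ℝ => Th d z t a b κ) t := by
    intro t
    have h1 := (sm_Th d (z, t, a, b, κ) hb1).differentiableAt (by simp)
    have h2 : DifferentiableAt ℝ (fun t : ℝ => (z, t, a, b, κ)) t := by fun_prop
    exact DifferentiableAt.comp (f := fun t : ℝ => (z, t, a, b, κ))
      (g := fun v : ℝ × ℝ × ℝ × ℝ × ℝ => Th d v.1 v.2.1 v.2.2.1 v.2.2.2.1 v.2.2.2.2) t h1 h2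
  have hder : ∀ t : ℝ, ‖deriv (fun t : ℝ => Th d z t a b κ) t‖ ≤ 3.01 := by
    intro t
    have h1 := h.gg a b κ z t hb (by linarith) (by linarith)
    have h2 : deriv (fun t : ℝ => Th d z t a b κ) t = pg (pg (SSa d a b κ)) z t := rfl
    rw [h2, Real.norm_eq_abs]
    obtain ⟨h3, h4⟩ := Th_le_aux_s d z t a
    have h5 : |sS d z t a * κ| ≤ 3 := by
      rw [abs_mul, abs_of_nonneg h3]
      calc sS d z t a * |κ| ≤ 1 * 3 := mul_le_mul h4 hk (abs_nonneg _) (by norm_num)
        _ = 3 := by norm_num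
    have h6 := h.Kd
    have h7 : |pg (pg (SSa d a b κ)) z t| ≤
        |pg (pg (SSa d a b κ)) z t + sS d z t a * κ| + |sS d z t a * κ| := by
      have := abs_sub (pg (pg (SSa d a b κ)) z t + sS d z t a * κ) (sS d z t a * κ)
      rwa [add_sub_cancel_right] at this
    norm_num at h6 ⊢
    linarith
  have hmv := Convex.norm_image_sub_le_of_norm_deriv_le (f := fun t : ℝ => Th d z t a b κ)
    (s := Set.univ) (x := 0) (y := g) (C := 3.01) (fun t _ => hdiff t) (fun t _ => hder t)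
    convex_univ (Set.mem_univ _) (Set.mem_univ _)
  have h0 := (axis d z a b κ hb1).2
  have hq := Th_le_aux_q d z 0 a b hb2
  have hq0 : 0 ≤ QQ d z 0 a b := Real.sqrt_nonneg _
  have h1 : |Th d z 0 a b κ| ≤ 1.74 * |z| := by
    rw [h0, abs_mul, abs_of_nonneg hq0, mul_comm]
    exact mul_le_mul_of_nonneg_right hq (abs_nonneg _)
  simp only [Real.norm_eq_abs, sub_zero] at hmv
  have h2 : |Th d z g a b κ| ≤ |Th d z g a b κ - Th d z 0 a b κ| + |Th d z 0 a b κ| := by
    have := abs_add_le (Th d z g a b κ - Th d z 0 a b κ) (Th d z 0 a b κ)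
    rwa [sub_add_cancel] at this
  linarith

end H867.FB
end
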