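import Pool.Agent.Helper867.FB.Defs2
import Pool.Agent.Helper867.FB.L_L_id
import Pool.Agent.Helper867.FB.L_Pz_le
import Pool.Agent.Helper867.FB.L_Th_le

set_option autoImplicit false
open Topology Set
open scoped ContDiff

noncomputable section

namespace H867.FB
open H930.FF

theorem L_box_aux1 (d z g : ℝ) (hd : 0 < d) (h : d * Real.log (1 + z ^ 2 + g ^ 2) ≤ 2) :
    |z| ≤ Real.exp (1 / d) ∧ |g| ≤ Real.exp (1 / d) := by
  have hpos : 0 < 1 + z ^ 2 + g ^ 2 := by positivity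
  have h1 : Real.log (1 + z ^ 2 + g ^ 2) ≤ 2 / d := by
    rw [le_div_iff₀ hd]
    linarith
  have h2 : 1 + z ^ 2 + g ^ 2 ≤ Real.exp (2 / d) := by
    rw [← Real.exp_log hpos]
    exact Real.exp_le_exp.mpr h1
  have h3 : Real.exp (2 / d) = Real.exp (1 / d) ^ 2 := by
    rw [← Real.exp_nat_mul]
    congr 1
    push_cast
    ring
  rw [h3] at h2
  have h4 := Real.exp_pos (1 / d)
  constructor
  · exact abs_le_of_sq_le_sq (by nlinarith [sq_nonneg g]) h4.le
  · exact abs_le_of_sq_le_sq (by nlinarith [sq_nonneg z]) h4.le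

theorem L_box (d K Cb N lam : ℝ) (gd : Set ℤ) (b k : ℝ → ℝ) (h : Good d K) (hN : 1 ≤ N)
    (hl : 0 < lam) (hp : Prof Cb N gd b k) (ζ : ℝ × ℝ × ℝ × ℝ × ℝ → ℝ) (hζ : ZetOK d ζ) (a : ℝ)
    (w : ℝ × ℝ × ℝ) :
    (XL d ζ N lam b k a w = w.2.1 ∧ PL d ζ N lam b k a w = w.2.2 ∧ FL d ζ N lam b k a w = 0) ∨
    (|w.1| ≤ 2 * N ∧ |w.2.1| ≤ 7 * Real.exp (1 / d) * lam ∧
      |XL d ζ N lam b k a w| ≤ 7 * Real.exp (1 / d) * lam) := by
  by_cases hw : 2 * N ≤ |w.1| ∨
      2 < d * Real.log (1 + ZL ζ N lam b k a w ^ 2 + (w.2.2 * N / lam) ^ 2)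
  · exact Or.inl (L_id d K Cb N lam gd b k h hN hl hp ζ hζ a w hw)
  · right
    push Not at hw
    obtain ⟨ht, hw2⟩ := hw
    obtain ⟨hz, hg⟩ := L_box_aux1 d _ _ h.d0 hw2
    have hN0 : 0 < N := by linarith
    have hb0 := hp.bge w.1
    have hb2 := hp.ble w.1
    have hb8 : 1 / 8000000 - 1 ≤ b w.1 := by norm_num at hb0 ⊢; linarith
    have hb8' : 1 / 8000000 - 1 < b w.1 := by norm_num at hb0 ⊢; linarith
    have hk3 : |k w.1 / N| ≤ 3 := by
      rw [abs_div, abs_of_pos hN0, div_le_iff₀ hN0]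
      exact hp.kle w.1
    have hB : InB (b w.1) (k w.1 / N) := ⟨hb8', by linarith, by linarith⟩
    have hr := hζ.r ((w.2.1 - w.1 * w.2.2) / lam) (w.2.2 * N / lam) a (b w.1) (k w.1 / N) hB
    change Th d (ZL ζ N lam b k a w) (w.2.2 * N / lam) a (b w.1) (k w.1 / N) =
      (w.2.1 - w.1 * w.2.2) / lam at hr
    have hTh := Th_le d K (ZL ζ N lam b k a w) (w.2.2 * N / lam) a (b w.1) (k w.1 / N) h hb8 hb2 hk3
    have hPz := (Pz_le d K (ZL ζ N lam b k a w) (w.2.2 * N / lam) a (b w.1) (k w.1 / N) h hb8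
      (by linarith) (by linarith)).2 hb2
    rw [hr] at hTh
    set R := Real.exp (1 / d) with hR
    have hRpos : 0 < R := Real.exp_pos _
    set z := ZL ζ N lam b k a w with hzdef
    set g := w.2.2 * N / lam with hgdef
    refine ⟨ht.le, ?_, ?_⟩
    · have e1 : w.2.1 = lam * ((w.2.1 - w.1 * w.2.2) / lam) + w.1 / N * (lam * g) := by
        rw [hgdef]
        field_simp
        ring
      have h1 : |(w.2.1 - w.1 * w.2.2) / lam| ≤ 4.75 * R := by linarith
      have h2 : |w.1 / N| ≤ 2 := by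
        rw [abs_div, abs_of_pos hN0, div_le_iff₀ hN0]
        exact ht.le
      rw [e1]
      calc |lam * ((w.2.1 - w.1 * w.2.2) / lam) + w.1 / N * (lam * g)|
          ≤ |lam * ((w.2.1 - w.1 * w.2.2) / lam)| + |w.1 / N * (lam * g)| := abs_add_le _ _
        _ = lam * |(w.2.1 - w.1 * w.2.2) / lam| + |w.1 / N| * (lam * |g|) := by
            rw [abs_mul, abs_mul, abs_mul, abs_of_pos hl]
        _ ≤ lam * (4.75 * R) + 2 * (lam * R) := by
            refine add_le_add (mul_le_mul_of_nonneg_left h1 hl.le) ?_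
            exact mul_le_mul h2 (mul_le_mul_of_nonneg_left hg hl.le) (by positivity) (by norm_num)
        _ ≤ 7 * R * lam := by nlinarith [mul_pos hl hRpos]
    · have h2 : |w.1 / N| ≤ 2 := by
        rw [abs_div, abs_of_pos hN0, div_le_iff₀ hN0]
        exact ht.le
      have e1 : XL d ζ N lam b k a w =
          lam * z + w.1 / N * (lam * Pz d z g a (b w.1) (k w.1 / N)) := by
        unfold XL PL
        rw [← hzdef, ← hgdef]
        field_simp
      rw [e1]
      calc |lam * z + w.1 / N * (lam * Pz d z g a (b w.1) (k w.1 / N))|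
          ≤ |lam * z| + |w.1 / N * (lam * Pz d z g a (b w.1) (k w.1 / N))| := abs_add_le _ _
        _ = lam * |z| + |w.1 / N| * (lam * |Pz d z g a (b w.1) (k w.1 / N)|) := by
            rw [abs_mul, abs_mul, abs_mul, abs_of_pos hl]
        _ ≤ lam * R + 2 * (lam * (1.74 * R)) := by
            refine add_le_add (mul_le_mul_of_nonneg_left hz hl.le) ?_
            refine mul_le_mul h2 (mul_le_mul_of_nonneg_left ?_ hl.le) (by positivity) (by norm_num)
            exact hPz.trans (by nlinarith)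
        _ ≤ 7 * R * lam := by nlinarith [mul_pos hl hRpos]

end H867.FB
end
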