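import Pool.Agent.Helper867.FB.Defs2
import Pool.Agent.Helper867.FB.L_sm_SS

set_option autoImplicit false
open Topology Set
open scoped ContDiff

noncomputable section

namespace H867.FB
open H930.FF

theorem symm_S_aux1 (h : ℝ × ℝ → ℝ) (z g : ℝ) (hh : DifferentiableAt ℝ h (z, g)) :
    deriv (fun z' => h (z', g)) z = fderiv ℝ h (z, g) (1, 0) := by
  have h1 : HasDerivAt (fun z' : ℝ => (z', g)) ((1 : ℝ), (0 : ℝ)) z :=
    (hasDerivAt_id z).prodMk (hasDerivAt_const z g)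
  exact (hh.hasFDerivAt.comp_hasDerivAt z h1).deriv

theorem symm_S_aux2 (h : ℝ × ℝ → ℝ) (z g : ℝ) (hh : DifferentiableAt ℝ h (z, g)) :
    deriv (fun g' => h (z, g')) g = fderiv ℝ h (z, g) (0, 1) := by
  have h1 : HasDerivAt (fun g' : ℝ => (z, g')) ((0 : ℝ), (1 : ℝ)) g :=
    (hasDerivAt_const g z).prodMk (hasDerivAt_id g)
  exact (hh.hasFDerivAt.comp_hasDerivAt g h1).deriv

theorem symm_S_aux3 (h : ℝ × ℝ → ℝ) (hh : ContDiff ℝ ∞ h) (v w : ℝ × ℝ) :
    HasFDerivAt (fun v => fderiv ℝ h v w)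
      ((ContinuousLinearMap.apply ℝ ℝ w).comp (fderiv ℝ (fderiv ℝ h) v)) v := by
  have hd : ContDiff ℝ ∞ (fderiv ℝ h) := hh.fderiv_right (m := ∞) (by simp)
  have hd2 : DifferentiableAt ℝ (fderiv ℝ h) v := (hd.differentiable (by simp)) v
  exact (ContinuousLinearMap.apply ℝ ℝ w).hasFDerivAt.comp v hd2.hasFDerivAt

theorem symm_S_aux4 (h : ℝ × ℝ → ℝ) (hh : ContDiff ℝ ∞ h) (z g : ℝ) :
    deriv (fun z' => deriv (fun g' => h (z', g')) g) z =
      deriv (fun g' => deriv (fun z' => h (z', g')) z) g := by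
  have hd : Differentiable ℝ h := hh.differentiable (by simp)
  have e1 : (fun z' => deriv (fun g' => h (z', g')) g) =
      fun z' => (fun v => fderiv ℝ h v (0, 1)) (z', g) := by
    funext z'
    exact symm_S_aux2 h z' g (hd _)
  have e2 : (fun g' => deriv (fun z' => h (z', g')) z) =
      fun g' => (fun v => fderiv ℝ h v (1, 0)) (z, g') := by
    funext g'
    exact symm_S_aux1 h z g' (hd _)
  rw [e1, e2, symm_S_aux1 _ z g (symm_S_aux3 h hh (z, g) (0, 1)).differentiableAt,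
    symm_S_aux2 _ z g (symm_S_aux3 h hh (z, g) (1, 0)).differentiableAt,
    (symm_S_aux3 h hh (z, g) (0, 1)).fderiv, (symm_S_aux3 h hh (z, g) (1, 0)).fderiv]
  have hsym : IsSymmSndFDerivAt ℝ h (z, g) :=
    hh.contDiffAt.isSymmSndFDerivAt (by
      rw [minSmoothness_of_isRCLikeNormedField]
      exact WithTop.coe_le_coe.mpr (le_top : (2 : ℕ∞) ≤ ⊤))
  exact hsym (1, 0) (0, 1)

theorem symm_S (d a b κ z g : ℝ) (hb : -1 < b) :
    pz (pg (SSa d a b κ)) z g = pg (pz (SSa d a b κ)) z g := by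
  have hh : ContDiff ℝ ∞ (fun v : ℝ × ℝ => SS d v.1 v.2 a b κ) := by
    rw [contDiff_iff_contDiffAt]
    intro v
    have h1 := sm_SS d (v.1, v.2, a, b, κ) hb
    have h2 : ContDiffAt ℝ ∞ (fun v : ℝ × ℝ => ((v.1, v.2, a, b, κ) : ℝ × ℝ × ℝ × ℝ × ℝ)) v := by
      fun_prop
    exact h1.comp v h2
  exact symm_S_aux4 (fun v : ℝ × ℝ => SS d v.1 v.2 a b κ) hh z g

end H867.FB
end
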