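import Pool.Agent.Helper867.FB.Defs2
import Pool.Agent.Helper867.FB.L_L_C2
import Pool.Agent.Helper867.FB.L_L_id
import Pool.Agent.Helper867.FB.L_mixed_bd
import Pool.Agent.Helper867.FB.L_symm_S
import Pool.Agent.Helper867.FB.L_sm_Pz
import Pool.Agent.Helper867.FB.L_sm_Th

set_option autoImplicit false
open Topology Set
open scoped ContDiff

noncomputable section

namespace H867.FB
open H930.FF

theorem L_cone_aux_chain (F : ℝ → ℝ → ℝ) (Z G : ℝ → ℝ) (z' g' : ℝ)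
    (hF : DifferentiableAt ℝ (fun p : ℝ × ℝ => F p.1 p.2) (Z 0, G 0))
    (hZ : HasDerivAt Z z' 0) (hG : HasDerivAt G g' 0) :
    HasDerivAt (fun s => F (Z s) (G s))
      (pz F (Z 0) (G 0) * z' + pg F (Z 0) (G 0) * g') 0 := by
  set A := fderiv ℝ (fun p : ℝ × ℝ => F p.1 p.2) (Z 0, G 0) with hA
  have h1 : HasDerivAt (fun s => F (Z s) (G s)) (A (z', g')) 0 :=
    HasFDerivAt.comp_hasDerivAt (0 : ℝ) (f := fun s => (Z s, G s))
      (l := fun p : ℝ × ℝ => F p.1 p.2) hF.hasFDerivAt (hZ.prodMk hG)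
  have h2 : HasDerivAt (fun z => F z (G 0)) (A (1, 0)) (Z 0) :=
    HasFDerivAt.comp_hasDerivAt (Z 0) (f := fun z => (z, G 0))
      (l := fun p : ℝ × ℝ => F p.1 p.2) hF.hasFDerivAt
      ((hasDerivAt_id (Z 0)).prodMk (hasDerivAt_const (Z 0) (G 0)))
  have h3 : HasDerivAt (fun g => F (Z 0) g) (A (0, 1)) (G 0) :=
    HasFDerivAt.comp_hasDerivAt (G 0) (f := fun g => (Z 0, g))
      (l := fun p : ℝ × ℝ => F p.1 p.2) hF.hasFDerivAt
      ((hasDerivAt_const (G 0) (Z 0)).prodMk (hasDerivAt_id (G 0)))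
  have h4 : pz F (Z 0) (G 0) = A (1, 0) := h2.deriv
  have h5 : pg F (Z 0) (G 0) = A (0, 1) := h3.deriv
  have h6 : A (z', g') = pz F (Z 0) (G 0) * z' + pg F (Z 0) (G 0) * g' := by
    rw [h4, h5]
    have e : ((z', g') : ℝ × ℝ) = z' • ((1, 0) : ℝ × ℝ) + g' • ((0, 1) : ℝ × ℝ) := by
      ext <;> simp
    rw [e, map_add, map_smul, map_smul, smul_eq_mul, smul_eq_mul]
    ring
  rw [← h6]
  exact h1

theorem L_cone_aux_line (f : ℝ × ℝ × ℝ → ℝ) (w : ℝ × ℝ × ℝ) (σ : ℝ)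
    (hf : DifferentiableAt ℝ f w) :
    HasDerivAt (fun s : ℝ => f (w.1, w.2.1 + s, w.2.2 + s * σ)) (fderiv ℝ f w (0, 1, σ)) 0 := by
  have hw : ((w.1, w.2.1 + 0, w.2.2 + 0 * σ) : ℝ × ℝ × ℝ) = w := by
    ext <;> simp
  have h1 : HasDerivAt (fun s : ℝ => ((w.1, w.2.1 + s, w.2.2 + s * σ) : ℝ × ℝ × ℝ))
      (0, 1, σ) 0 := by
    refine (hasDerivAt_const (0 : ℝ) w.1).prodMk ?_
    refine HasDerivAt.prodMk ?_ ?_
    · simpa using (hasDerivAt_id (0 : ℝ)).const_add w.2.1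
    · have := ((hasDerivAt_id (0 : ℝ)).mul_const σ).const_add w.2.2
      simpa using this
  have h2 : HasFDerivAt f (fderiv ℝ f w) ((w.1, w.2.1 + 0, w.2.2 + 0 * σ) : ℝ × ℝ × ℝ) := by
    rw [hw]
    exact hf.hasFDerivAt
  exact HasFDerivAt.comp_hasDerivAt (0 : ℝ)
    (f := fun s : ℝ => ((w.1, w.2.1 + s, w.2.2 + s * σ) : ℝ × ℝ × ℝ)) h2 h1

/-- the final numerical estimate -/
theorem L_cone_aux_num (N t σ u m h e P X : ℝ) (hN : 1 ≤ N) (ht : |t| ≤ 2 * N)
    (hσ : |σ| ≤ 1 / (1000 * N)) (hm1 : 1 / 4000 ≤ m) (hm2 : m ≤ 1.74) (hh : |h| ≤ 3.01)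
    (he : |e| ≤ 1 / 10 ^ 6) (hu : m * u + h * (σ * N) = 1 - t * σ)
    (hP : N * P = e * u + m * (σ * N)) (hX : X = u + t * P) :
    0 < X ∧ |P| ≤ 1 / N * X := by
  have hN0 : 0 < N := by linarith
  have hq : |σ * N| ≤ 1 / 1000 := by
    rw [abs_mul, abs_of_pos hN0]
    calc |σ| * N ≤ 1 / (1000 * N) * N := mul_le_mul_of_nonneg_right hσ hN0.le
      _ = 1 / 1000 := by field_simp
  have htσ : |t * σ| ≤ 2 / 1000 := by
    rw [abs_mul]
    calc |t| * |σ| ≤ (2 * N) * (1 / (1000 * N)) :=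
          mul_le_mul ht hσ (abs_nonneg _) (by positivity)
      _ = 2 / 1000 := by field_simp
  have hhq : |h * (σ * N)| ≤ 3.01 / 1000 := by
    rw [abs_mul]
    calc |h| * |σ * N| ≤ 3.01 * (1 / 1000) :=
          mul_le_mul hh hq (abs_nonneg _) (by norm_num)
      _ = _ := by norm_num
  have hm0 : 0 < m := by linarith
  have hmq : |m * (σ * N)| ≤ 0.00174 := by
    rw [abs_mul, abs_of_pos hm0]
    calc m * |σ * N| ≤ 1.74 * (1 / 1000) :=
          mul_le_mul hm2 hq (abs_nonneg _) (by norm_num)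
      _ = _ := by norm_num
  obtain ⟨a1, a2⟩ := abs_le.1 htσ
  obtain ⟨b1, b2⟩ := abs_le.1 hhq
  have hmu1 : 0.99499 ≤ m * u := by linarith
  have hmu2 : m * u ≤ 1.00501 := by linarith
  have hu0 : 0 < u := by
    by_contra hcon
    have : m * u ≤ 0 := mul_nonpos_of_nonneg_of_nonpos hm0.le (not_lt.1 hcon)
    linarith
  have hu1 : 0.57 ≤ u := by nlinarith
  have hu2 : u ≤ 4020.04 := by nlinarith
  have heu : |e * u| ≤ 0.00402004 := by
    rw [abs_mul, abs_of_pos hu0]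
    calc |e| * u ≤ (1 / 10 ^ 6) * 4020.04 :=
          mul_le_mul he hu2 hu0.le (by positivity)
      _ = _ := by norm_num
  have hNP : |N * P| ≤ 0.006 := by
    rw [hP]
    refine (abs_add_le _ _).trans ?_
    linarith
  have hNP' : N * |P| ≤ 0.006 := by
    rwa [abs_mul, abs_of_pos hN0] at hNP
  have htP : |t * P| ≤ 0.012 := by
    rw [abs_mul]
    calc |t| * |P| ≤ (2 * N) * |P| := mul_le_mul_of_nonneg_right ht (abs_nonneg _)
      _ = 2 * (N * |P|) := by ring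
      _ ≤ _ := by linarith
  obtain ⟨c1, c2⟩ := abs_le.1 htP
  have hX1 : 0.5 ≤ X := by rw [hX]; linarith
  refine ⟨by linarith, ?_⟩
  rw [one_div, inv_mul_eq_div, le_div_iff₀ hN0]
  linarith

theorem L_cone (d K Cb N lam : ℝ) (gd : Set ℤ) (b k : ℝ → ℝ) (h : Good d K) (hN : 1 ≤ N)
    (hl : 0 < lam) (hp : Prof Cb N gd b k) (ζ : ℝ × ℝ × ℝ × ℝ × ℝ → ℝ) (hζ : ZetOK d ζ) (a : ℝ)
    (w : ℝ × ℝ × ℝ) (σ : ℝ) (hσ : |σ| ≤ 1 / (1000 * N)) :
    0 < fderiv ℝ (XL d ζ N lam b k a) w (0, 1, σ) ∧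
    |fderiv ℝ (PL d ζ N lam b k a) w (0, 1, σ)|
      ≤ 1 / N * fderiv ℝ (XL d ζ N lam b k a) w (0, 1, σ) := by
  obtain ⟨hZC, hPC, hXC, -⟩ := L_C2 d K Cb N lam gd b k h hN hl hp ζ hζ a
  have hN0 : 0 < N := by linarith
  have hZd : DifferentiableAt ℝ (ZL ζ N lam b k a) w := (hZC.differentiable (by norm_num)) w
  have hPd : DifferentiableAt ℝ (PL d ζ N lam b k a) w := (hPC.differentiable (by norm_num)) w
  have hXd : DifferentiableAt ℝ (XL d ζ N lam b k a) w := (hXC.differentiable (by norm_num)) w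
  have hZ := L_cone_aux_line _ w σ hZd
  have hP := L_cone_aux_line _ w σ hPd
  have hX := L_cone_aux_line _ w σ hXd
  have hid : HasDerivAt (fun s : ℝ => w.2.1 + s) 1 0 := by
    simpa using (hasDerivAt_id (0 : ℝ)).const_add w.2.1
  have hcd : HasDerivAt (fun s : ℝ => w.2.2 + s * σ) σ 0 := by
    have := ((hasDerivAt_id (0 : ℝ)).mul_const σ).const_add w.2.2
    simpa using this
  rcases le_or_gt (2 * N) |w.1| with ht | ht
  · have hX1 : HasDerivAt (fun s : ℝ => w.2.1 + s) (fderiv ℝ (XL d ζ N lam b k a) w (0, 1, σ)) 0 := by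
      refine hX.congr_of_eventuallyEq (Filter.Eventually.of_forall fun s => ?_)
      exact (L_id d K Cb N lam gd b k h hN hl hp ζ hζ a (w.1, w.2.1 + s, w.2.2 + s * σ)
        (Or.inl ht)).1.symm
    have hP1 : HasDerivAt (fun s : ℝ => w.2.2 + s * σ)
        (fderiv ℝ (PL d ζ N lam b k a) w (0, 1, σ)) 0 := by
      refine hP.congr_of_eventuallyEq (Filter.Eventually.of_forall fun s => ?_)
      exact (L_id d K Cb N lam gd b k h hN hl hp ζ hζ a (w.1, w.2.1 + s, w.2.2 + s * σ)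
        (Or.inl ht)).2.1.symm
    have hX2 := hX1.unique hid
    have hP2 := hP1.unique hcd
    rw [hX2, hP2]
    refine ⟨one_pos, hσ.trans ?_⟩
    rw [mul_one]
    apply one_div_le_one_div_of_le hN0
    linarith
  · -- parameters
    set B := b w.1 with hB
    set κ := k w.1 / N with hκ
    have hB1 : 1 / 8000000 - 1 < B := by
      have := hp.bge w.1
      norm_num at this ⊢
      linarith
    have hB2 : B ≤ 2 := hp.ble w.1
    have hκ3 : |κ| ≤ 3 := by
      rw [hκ, abs_div, abs_of_pos hN0, div_le_iff₀ hN0]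
      exact hp.kle w.1
    have hIn : InB B κ := ⟨hB1, by linarith, by linarith⟩
    have hBm : -1 < B := by norm_num at hB1 ⊢; linarith
    set z0 := ZL ζ N lam b k a w with hz0
    set g0 := w.2.2 * N / lam with hg0
    set z' := fderiv ℝ (ZL ζ N lam b k a) w (0, 1, σ) with hz'
    set Zs : ℝ → ℝ := fun s => ZL ζ N lam b k a (w.1, w.2.1 + s, w.2.2 + s * σ) with hZs
    set Gs : ℝ → ℝ := fun s => (w.2.2 + s * σ) * N / lam with hGs
    have hw : ((w.1, w.2.1 + 0, w.2.2 + 0 * σ) : ℝ × ℝ × ℝ) = w := by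
      ext <;> simp
    have hZs0 : Zs 0 = z0 := by
      simp only [hZs, hw, hz0]
    have hGs0 : Gs 0 = g0 := by
      simp only [hGs, hg0]
      ring
    have hGd : HasDerivAt Gs (σ * N / lam) 0 := (hcd.mul_const N).div_const lam
    have hemb : ∀ p : ℝ × ℝ, ContDiffAt ℝ ∞ (fun p : ℝ × ℝ =>
        ((p.1, p.2, a, B, κ) : ℝ × ℝ × ℝ × ℝ × ℝ)) p := by
      intro p
      exact contDiffAt_fst.prodMk (contDiffAt_snd.prodMk (contDiffAt_const.prodMk
        (contDiffAt_const.prodMk contDiffAt_const)))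
    have hTd : DifferentiableAt ℝ (fun p : ℝ × ℝ => (pg (SSa d a B κ)) p.1 p.2)
        (Zs 0, Gs 0) := by
      have h1 := (sm_Th d (Zs 0, Gs 0, a, B, κ) hBm).comp
        ((Zs 0, Gs 0) : ℝ × ℝ) (hemb (Zs 0, Gs 0))
      exact h1.differentiableAt (by norm_num)
    have hPzd : DifferentiableAt ℝ (fun p : ℝ × ℝ => (pz (SSa d a B κ)) p.1 p.2)
        (Zs 0, Gs 0) := by
      have h1 := (sm_Pz d (Zs 0, Gs 0, a, B, κ) hBm).comp
        ((Zs 0, Gs 0) : ℝ × ℝ) (hemb (Zs 0, Gs 0))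
      exact h1.differentiableAt (by norm_num)
    have hT := L_cone_aux_chain (pg (SSa d a B κ)) Zs Gs z' (σ * N / lam) hTd hZ hGd
    have hPz := L_cone_aux_chain (pz (SSa d a B κ)) Zs Gs z' (σ * N / lam) hPzd hZ hGd
    rw [hZs0, hGs0] at hT hPz
    -- equation for z'
    have hy : HasDerivAt (fun s : ℝ => ((w.2.1 + s) - w.1 * (w.2.2 + s * σ)) / lam)
        ((1 - w.1 * σ) / lam) 0 := (hid.sub (hcd.const_mul w.1)).div_const lam
    have hTy : (fun s => pg (SSa d a B κ) (Zs s) (Gs s)) =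
        fun s : ℝ => ((w.2.1 + s) - w.1 * (w.2.2 + s * σ)) / lam := by
      funext s
      exact hζ.r (((w.2.1 + s) - w.1 * (w.2.2 + s * σ)) / lam) (Gs s) a B κ hIn
    rw [hTy] at hT
    have hE1 := hT.unique hy
    -- P
    have hPL : (fun s : ℝ => PL d ζ N lam b k a (w.1, w.2.1 + s, w.2.2 + s * σ)) =
        fun s => lam / N * pz (SSa d a B κ) (Zs s) (Gs s) := by
      funext s
      rfl
    have hP3 := hP
    rw [hPL] at hP3
    have hE2 := hP3.unique (hPz.const_mul (lam / N))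
    have hXL : (fun s : ℝ => XL d ζ N lam b k a (w.1, w.2.1 + s, w.2.2 + s * σ)) =
        fun s => lam * Zs s + w.1 * PL d ζ N lam b k a (w.1, w.2.1 + s, w.2.2 + s * σ) := by
      funext s
      rfl
    rw [hXL] at hX
    have hE3 := hX.unique ((hZ.const_mul lam).add (hP.const_mul w.1))
    rw [symm_S d a B κ z0 g0 hBm] at hE1
    obtain ⟨hm1, -, hm2⟩ := mixed_bd d K a B κ z0 g0 h hB1.le (by linarith) (by linarith)
    have hm2' := hm2 hB2
    have hgg := h.gg a B κ z0 g0 hB1.le (by linarith) (by linarith)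
    have hzz := h.zz a B κ z0 g0 hB1.le (by linarith) (by linarith)
    have hKd := h.Kd
    have hsS : |sS d z0 g0 a * κ| ≤ 3 := by
      rw [abs_mul]
      have h1 : |sS d z0 g0 a| ≤ 1 := by
        unfold sS amp chi
        rw [abs_of_nonneg (mul_nonneg (Real.smoothTransition.nonneg _)
          (Real.smoothTransition.nonneg _))]
        exact mul_le_one₀ (Real.smoothTransition.le_one _) (Real.smoothTransition.nonneg _)
          (Real.smoothTransition.le_one _)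
      calc |sS d z0 g0 a| * |κ| ≤ 1 * 3 := mul_le_mul h1 hκ3 (abs_nonneg _) (by norm_num)
        _ = 3 := by norm_num
    have hh : |pg (pg (SSa d a B κ)) z0 g0| ≤ 3.01 := by
      have e : pg (pg (SSa d a B κ)) z0 g0 =
          (pg (pg (SSa d a B κ)) z0 g0 + sS d z0 g0 a * κ) - sS d z0 g0 a * κ := by ring
      rw [e]
      refine (abs_sub _ _).trans ?_
      have hKd2 : K * d ≤ 0.01 := hKd.trans (by norm_num)
      linarith
    refine L_cone_aux_num N w.1 σ (lam * z') (pg (pz (SSa d a B κ)) z0 g0)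
      (pg (pg (SSa d a B κ)) z0 g0) (pz (pz (SSa d a B κ)) z0 g0) _ _ hN ht.le hσ hm1 hm2' hh
      (hzz.trans hKd) ?_ ?_ hE3
    · have e1 : pg (pz (SSa d a B κ)) z0 g0 * (lam * z') +
          pg (pg (SSa d a B κ)) z0 g0 * (σ * N) =
          lam * (pg (pz (SSa d a B κ)) z0 g0 * z' +
            pg (pg (SSa d a B κ)) z0 g0 * (σ * N / lam)) := by
        field_simp
      rw [e1, hE1]
      field_simp
    · rw [hE2]
      field_simp

end H867.FB
end
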