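import Pool.Agent.Helper867.FB.Defs2
import Pool.Agent.Helper867.FB.L_axis

set_option autoImplicit false
open Topology Set
open scoped ContDiff

noncomputable section

namespace H867.FB
open H930.FF

theorem L_pz (d K Cb N lam : ℝ) (gd : Set ℤ) (b k : ℝ → ℝ) (h : Good d K) (hN : 1 ≤ N)
    (hl : 0 < lam) (hp : Prof Cb N gd b k) (ζ : ℝ × ℝ × ℝ × ℝ × ℝ → ℝ) (hζ : ZetOK d ζ)
    (a t θ : ℝ) : PL d ζ N lam b k a (t, θ, 0) = 0 := by
  have hb : -1 < b t := by
    have h1 := hp.bge t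
    have h2 : (0 : ℝ) < 1 / 2000 ^ 2 := by norm_num
    linarith
  have h3 := (axis d (ZL ζ N lam b k a (t, θ, 0)) a (b t) (k t / N) hb).1
  unfold PL
  simp only [zero_mul, zero_div]
  rw [h3, mul_zero]

end H867.FB
end
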