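import Pool.Agent.Helper867.FB.Defs2
import Pool.Agent.Helper867.FB.L_axis
import Pool.Agent.Helper867.FB.L_L_pz

set_option autoImplicit false
open Topology Set
open scoped ContDiff

noncomputable section

namespace H867.FB
open H930.FF

theorem L_core (d K Cb N lam : ℝ) (gd : Set ℤ) (b k : ℝ → ℝ) (h : Good d K) (hN : 1 ≤ N)
    (hl : 0 < lam) (hp : Prof Cb N gd b k) (ζ : ℝ × ℝ × ℝ × ℝ × ℝ → ℝ) (hζ : ZetOK d ζ)
    (t θ : ℝ) (ht : |t| ≤ N / 2) (hθ : |θ| ≤ lam / 2000) :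
    XL d ζ N lam b k 1 (t, θ, 0) = 2000 * θ := by
  have hPL := L_pz d K Cb N lam gd b k h hN hl hp ζ hζ 1 t θ
  have hb : b t = 1 / 2000 ^ 2 - 1 := hp.bin t ht
  have hk : k t = 0 := hp.kin t ht
  set z : ℝ := 2000 * θ / lam with hz
  have hz1 : |z| ≤ 1 := by
    rw [hz, abs_div, abs_mul, abs_of_pos hl, div_le_one hl, abs_of_pos (by norm_num : (0:ℝ) < 2000)]
    linarith
  have hzz : z ^ 2 ≤ 1 := by
    have := abs_le.mp hz1
    nlinarith [this.1, this.2]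
  have hlog : d * Real.log (1 + z ^ 2 + (0:ℝ) ^ 2) ≤ 1 := by
    have h1 : Real.log (1 + z ^ 2 + (0:ℝ) ^ 2) ≤ 1 := by
      have h2 := Real.log_le_sub_one_of_pos (show 0 < 1 + z ^ 2 + (0:ℝ) ^ 2 by positivity)
      linarith
    have h3 : 0 ≤ Real.log (1 + z ^ 2 + (0:ℝ) ^ 2) := Real.log_nonneg (by nlinarith [sq_nonneg z])
    have h4 := h.d0
    have h5 := h.d1
    calc d * Real.log (1 + z ^ 2 + (0:ℝ) ^ 2) ≤ 1 * Real.log (1 + z ^ 2 + (0:ℝ) ^ 2) :=
          mul_le_mul_of_nonneg_right h5 h3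
      _ ≤ 1 := by linarith
  have hsS : sS d z 0 1 = 1 := by
    unfold sS amp chi
    rw [Real.smoothTransition.one, Real.smoothTransition.one_of_one_le (by linarith), one_mul]
  have hQ : QQ d z 0 1 (b t) = 1 / 2000 := by
    unfold QQ
    rw [hsS, hb, one_mul]
    rw [show (1:ℝ) + (1 / 2000 ^ 2 - 1) = (1 / 2000) ^ 2 by norm_num]
    exact Real.sqrt_sq (by norm_num)
  have hTh : Th d z 0 1 (b t) (k t / N) = θ / lam := by
    rw [(axis d z 1 (b t) (k t / N) (by rw [hb]; norm_num)).2, hQ, hz]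
    ring
  have hIn : InB (b t) (k t / N) := by
    rw [hb, hk]
    refine ⟨by norm_num, by norm_num, by norm_num⟩
  have hl2 := hζ.l z 0 1 (b t) (k t / N) hIn
  rw [hTh] at hl2
  unfold XL
  rw [hPL]
  have hZ : ZL ζ N lam b k 1 (t, θ, 0) = z := by
    unfold ZL
    simp only [mul_zero, sub_zero, zero_mul, zero_div]
    exact hl2
  rw [hZ, hz]
  field_simp
  try ring

end H867.FB
end
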