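import Pool.Agent.Helper867.FB.Defs2
import Pool.Agent.Helper867.FB.L_L_id
import Pool.Agent.Helper867.FB.L_Pz_le

set_option autoImplicit false
open Topology Set
open scoped ContDiff

noncomputable section

namespace H867.FB
open H930.FF

theorem L_pc (d K Cb N lam : ℝ) (gd : Set ℤ) (b k : ℝ → ℝ) (h : Good d K) (hN : 1 ≤ N)
    (hl : 0 < lam) (hp : Prof Cb N gd b k) (ζ : ℝ × ℝ × ℝ × ℝ × ℝ → ℝ) (hζ : ZetOK d ζ) (a : ℝ)
    (w : ℝ × ℝ × ℝ) :
    PL d ζ N lam b k a w = w.2.2 ∨ (|w.2.2| ≤ 3 * Real.exp (1 / d) * lam / N ∧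
      |PL d ζ N lam b k a w| ≤ 3 * Real.exp (1 / d) * lam / N) := by
  by_cases hw : 2 * N ≤ |w.1| ∨ 2 < d * Real.log (1 + ZL ζ N lam b k a w ^ 2 + (w.2.2 * N / lam) ^ 2)
  · exact Or.inl (L_id d K Cb N lam gd b k h hN hl hp ζ hζ a w hw).2.1
  · right
    push Not at hw
    obtain ⟨_, hw⟩ := hw
    have hN0 : 0 < N := by linarith
    set z := ZL ζ N lam b k a w with hz
    set g := w.2.2 * N / lam with hg
    have hE : 0 < Real.exp (1 / d) := Real.exp_pos _
    have hd := h.d0
    have hpos : 0 < 1 + z ^ 2 + g ^ 2 := by positivity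
    have h1 : Real.log (1 + z ^ 2 + g ^ 2) ≤ 2 / d := by
      rw [le_div_iff₀ hd]; linarith
    have h2 : 1 + z ^ 2 + g ^ 2 ≤ Real.exp (2 / d) := by
      rwa [Real.log_le_iff_le_exp hpos] at h1
    have h3 : Real.exp (2 / d) = Real.exp (1 / d) ^ 2 := by
      rw [← Real.exp_nat_mul]; congr 1; push_cast; ring
    have h4 : g ^ 2 ≤ Real.exp (1 / d) ^ 2 := by
      rw [← h3]; nlinarith [sq_nonneg z]
    have h5 : |g| ≤ Real.exp (1 / d) := by
      exact abs_le_of_sq_le_sq h4 hE.le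
    have h6 : w.2.2 = g * (lam / N) := by
      rw [hg]; field_simp
    have hlN : 0 < lam / N := by positivity
    have h7 : 3 * Real.exp (1 / d) * lam / N = 3 * Real.exp (1 / d) * (lam / N) := by ring
    rw [h7]
    constructor
    · rw [h6, abs_mul, abs_of_pos hlN]
      apply mul_le_mul_of_nonneg_right _ hlN.le
      linarith
    · have hb1 := hp.bge w.1
      have hb2 := hp.ble w.1
      have hk := hp.kle w.1
      have hk' : |k w.1 / N| ≤ 4 := by
        rw [abs_div, abs_of_pos hN0, div_le_iff₀ hN0]; linarith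
      have h8 := (Pz_le d K z g a (b w.1) (k w.1 / N) h (by norm_num at hb1 ⊢; linarith)
        (by linarith) hk').1
      have h9 : PL d ζ N lam b k a w = lam / N * Pz d z g a (b w.1) (k w.1 / N) := rfl
      rw [h9, abs_mul, abs_of_pos hlN, mul_comm]
      apply mul_le_mul_of_nonneg_right _ hlN.le
      linarith

end H867.FB
end
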