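import Pool.Agent.Helper867.FB.Defs2
import Pool.Agent.Helper867.FB.L_sm_SS

set_option autoImplicit false
open Topology Set
open scoped ContDiff

noncomputable section

namespace H867.FB
open H930.FF

theorem chain_SS_aux_s (d z g a : ℝ) : 0 ≤ sS d z g a ∧ sS d z g a ≤ 1 := by
  unfold sS amp chi
  have h1 := Real.smoothTransition.nonneg a
  have h2 := Real.smoothTransition.le_one a
  have h3 := Real.smoothTransition.nonneg (2 - d * Real.log (1 + z ^ 2 + g ^ 2))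
  have h4 := Real.smoothTransition.le_one (2 - d * Real.log (1 + z ^ 2 + g ^ 2))
  exact ⟨mul_nonneg h1 h3, mul_le_one₀ h2 h3 h4⟩

theorem chain_SS_aux_pos (d z g a b : ℝ) (hb : -1 < b) : 0 < 1 + sS d z g a * b := by
  obtain ⟨h1, h2⟩ := chain_SS_aux_s d z g a
  rcases le_or_gt 0 b with h | h
  · have := mul_nonneg h1 h
    linarith
  · nlinarith

/-- chain rule for the generating function along a curve -/
theorem chain_SS (d a N : ℝ) (Cb : ℝ) (gd : Set ℤ) (b k : ℝ → ℝ) (hN : 1 ≤ N)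
    (hp : Prof Cb N gd b k) (t z g : ℝ → ℝ) (t' z' g' : ℝ)
    (ht : HasDerivAt t t' 0) (hz : HasDerivAt z z' 0) (hg : HasDerivAt g g' 0) :
    HasDerivAt (fun s => SS d (z s) (g s) a (b (t s)) (k (t s) / N))
      (Pz d (z 0) (g 0) a (b (t 0)) (k (t 0) / N) * z'
        + Th d (z 0) (g 0) a (b (t 0)) (k (t 0) / N) * g'
        + deriv b (t 0) * TT d (z 0) (g 0) a (b (t 0)) (t 0 / N) * t') 0 := by
  have hN0 : N ≠ 0 := by linarith
  have hb1 : -1 < b (t 0) := by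
    have := hp.bge (t 0)
    have h2 : (-1 : ℝ) < 1 / 2000 ^ 2 - 1 := by norm_num
    linarith
  set Φ : ℝ × ℝ × ℝ × ℝ × ℝ → ℝ := fun v => SS d v.1 v.2.1 v.2.2.1 v.2.2.2.1 v.2.2.2.2 with hΦ
  set q : ℝ × ℝ × ℝ × ℝ × ℝ := (z 0, g 0, a, b (t 0), k (t 0) / N) with hq
  have hd : HasFDerivAt Φ (fderiv ℝ Φ q) q :=
    ((sm_SS d q hb1).differentiableAt (by simp)).hasFDerivAt
  have hbd : HasDerivAt b (deriv b (t 0)) (t 0) :=
    ((hp.bC.differentiable (by norm_num)).differentiableAt).hasDerivAt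
  have hkd : HasDerivAt k (deriv k (t 0)) (t 0) :=
    ((hp.kC.differentiable (by norm_num)).differentiableAt).hasDerivAt
  have hbt : HasDerivAt (fun s => b (t s)) (deriv b (t 0) * t') 0 :=
    HasDerivAt.comp (h₂ := b) (h := t) 0 hbd ht
  have hkt : HasDerivAt (fun s => k (t s) / N) (deriv k (t 0) * t' / N) 0 :=
    (HasDerivAt.comp (h₂ := k) (h := t) 0 hkd ht).div_const N
  have hcurve : HasDerivAt (fun s => ((z s, g s, a, b (t s), k (t s) / N) : ℝ × ℝ × ℝ × ℝ × ℝ))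
      (z', g', 0, deriv b (t 0) * t', deriv k (t 0) * t' / N) 0 :=
    hz.prodMk (hg.prodMk ((hasDerivAt_const 0 a).prodMk (hbt.prodMk hkt)))
  have hmain : HasDerivAt (fun s => SS d (z s) (g s) a (b (t s)) (k (t s) / N))
      (fderiv ℝ Φ q (z', g', 0, deriv b (t 0) * t', deriv k (t 0) * t' / N)) 0 :=
    HasFDerivAt.comp_hasDerivAt (l := Φ) 0 hd hcurve
  -- the partial derivatives
  have e1 : fderiv ℝ Φ q (1, 0, 0, 0, 0) = Pz d (z 0) (g 0) a (b (t 0)) (k (t 0) / N) := by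
    have h1 : HasDerivAt (fun s => ((s, g 0, a, b (t 0), k (t 0) / N) : ℝ × ℝ × ℝ × ℝ × ℝ))
        (1, 0, 0, 0, 0) (z 0) :=
      (hasDerivAt_id (z 0)).prodMk ((hasDerivAt_const _ _).prodMk ((hasDerivAt_const _ _).prodMk
        ((hasDerivAt_const _ _).prodMk (hasDerivAt_const _ _))))
    have h2 : HasDerivAt (fun s => SS d s (g 0) a (b (t 0)) (k (t 0) / N))
        (fderiv ℝ Φ q (1, 0, 0, 0, 0)) (z 0) :=
      HasFDerivAt.comp_hasDerivAt (l := Φ) (z 0) hd h1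
    exact h2.deriv.symm
  have e2 : fderiv ℝ Φ q (0, 1, 0, 0, 0) = Th d (z 0) (g 0) a (b (t 0)) (k (t 0) / N) := by
    have h1 : HasDerivAt (fun s => ((z 0, s, a, b (t 0), k (t 0) / N) : ℝ × ℝ × ℝ × ℝ × ℝ))
        (0, 1, 0, 0, 0) (g 0) :=
      (hasDerivAt_const _ _).prodMk ((hasDerivAt_id (g 0)).prodMk ((hasDerivAt_const _ _).prodMk
        ((hasDerivAt_const _ _).prodMk (hasDerivAt_const _ _))))
    have h2 : HasDerivAt (fun s => SS d (z 0) s a (b (t 0)) (k (t 0) / N))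
        (fderiv ℝ Φ q (0, 1, 0, 0, 0)) (g 0) :=
      HasFDerivAt.comp_hasDerivAt (l := Φ) (g 0) hd h1
    exact h2.deriv.symm
  have hQ : 0 < QQ d (z 0) (g 0) a (b (t 0)) :=
    Real.sqrt_pos.2 (chain_SS_aux_pos d _ _ a _ hb1)
  have e4 : fderiv ℝ Φ q (0, 0, 0, 1, 0) =
      g 0 * z 0 * (sS d (z 0) (g 0) a / (2 * QQ d (z 0) (g 0) a (b (t 0)))) := by
    have h1 : HasDerivAt (fun s => ((z 0, g 0, a, s, k (t 0) / N) : ℝ × ℝ × ℝ × ℝ × ℝ))
        (0, 0, 0, 1, 0) (b (t 0)) :=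
      (hasDerivAt_const _ _).prodMk ((hasDerivAt_const _ _).prodMk ((hasDerivAt_const _ _).prodMk
        ((hasDerivAt_id (b (t 0))).prodMk (hasDerivAt_const _ _))))
    have h2 : HasDerivAt (fun s => SS d (z 0) (g 0) a s (k (t 0) / N))
        (fderiv ℝ Φ q (0, 0, 0, 1, 0)) (b (t 0)) :=
      HasFDerivAt.comp_hasDerivAt (l := Φ) (b (t 0)) hd h1
    have h3 : HasDerivAt (fun s => SS d (z 0) (g 0) a s (k (t 0) / N))
        (g 0 * z 0 * (sS d (z 0) (g 0) a / (2 * QQ d (z 0) (g 0) a (b (t 0))))) (b (t 0)) := by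
      have h4 : HasDerivAt (fun s => 1 + sS d (z 0) (g 0) a * s) (sS d (z 0) (g 0) a) (b (t 0)) := by
        have := ((hasDerivAt_id (b (t 0))).const_mul (sS d (z 0) (g 0) a)).const_add 1
        rw [mul_one] at this
        exact this
      have h5 := h4.sqrt (chain_SS_aux_pos d _ _ a _ hb1).ne'
      exact (h5.const_mul (g 0 * z 0)).sub_const (g 0 ^ 2 / 2 * sS d (z 0) (g 0) a * (k (t 0) / N))
    exact h2.unique h3
  have e5 : fderiv ℝ Φ q (0, 0, 0, 0, 1) = - (g 0 ^ 2 / 2 * sS d (z 0) (g 0) a) := by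
    have h1 : HasDerivAt (fun s => ((z 0, g 0, a, b (t 0), s) : ℝ × ℝ × ℝ × ℝ × ℝ))
        (0, 0, 0, 0, 1) (k (t 0) / N) :=
      (hasDerivAt_const _ _).prodMk ((hasDerivAt_const _ _).prodMk ((hasDerivAt_const _ _).prodMk
        ((hasDerivAt_const _ _).prodMk (hasDerivAt_id (k (t 0) / N)))))
    have h2 : HasDerivAt (fun s => SS d (z 0) (g 0) a (b (t 0)) s)
        (fderiv ℝ Φ q (0, 0, 0, 0, 1)) (k (t 0) / N) :=
      HasFDerivAt.comp_hasDerivAt (l := Φ) (k (t 0) / N) hd h1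
    have h3 : HasDerivAt (fun s => SS d (z 0) (g 0) a (b (t 0)) s)
        (- (g 0 ^ 2 / 2 * sS d (z 0) (g 0) a)) (k (t 0) / N) := by
      have h4 := ((hasDerivAt_id (k (t 0) / N)).const_mul
        (g 0 ^ 2 / 2 * sS d (z 0) (g 0) a)).const_sub (g 0 * z 0 * QQ d (z 0) (g 0) a (b (t 0)))
      rw [mul_one] at h4
      exact h4
    exact h2.unique h3
  have hdec : ((z', g', 0, deriv b (t 0) * t', deriv k (t 0) * t' / N) : ℝ × ℝ × ℝ × ℝ × ℝ) =
      z' • (1, 0, 0, 0, 0) + g' • (0, 1, 0, 0, 0) + (deriv b (t 0) * t') • (0, 0, 0, 1, 0)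
      + (deriv k (t 0) * t' / N) • (0, 0, 0, 0, 1) := by
    simp
  rw [hdec, map_add, map_add, map_add, map_smul, map_smul, map_smul, map_smul, e1, e2, e4, e5,
    hp.kd] at hmain
  convert! hmain using 1
  simp only [smul_eq_mul]
  unfold TT
  have hQ' := hQ.ne'
  field_simp
  ring

end H867.FB
end
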