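import Pool.Agent.Helper867.FB.Defs2
import Pool.Agent.Helper867.FB.L_L_C2
import Pool.Agent.Helper867.FB.L_chain_SS

set_option autoImplicit false
open Topology Set
open scoped ContDiff

noncomputable section

namespace H867.FB
open H930.FF

theorem L_rel_aux_InB {Cb N : ℝ} {gd : Set ℤ} {b k : ℝ → ℝ} (hN : 1 ≤ N)
    (hp : Prof Cb N gd b k) (t : ℝ) : InB (b t) (k t / N) := by
  refine ⟨?_, ?_, ?_⟩
  · have := hp.bge t
    norm_num at this ⊢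
    linarith
  · have := hp.ble t
    linarith
  · have hN0 : 0 < N := by linarith
    rw [abs_div, abs_of_pos hN0, div_lt_iff₀ hN0]
    have := hp.kle t
    nlinarith

theorem L_rel (d K Cb N lam : ℝ) (gd : Set ℤ) (b k : ℝ → ℝ) (h : Good d K) (hN : 1 ≤ N)
    (hl : 0 < lam) (hp : Prof Cb N gd b k) (ζ : ℝ × ℝ × ℝ × ℝ × ℝ → ℝ) (hζ : ZetOK d ζ)
    (Γ : ℝ × ℝ × ℝ × ℝ × ℝ → ℝ) (hΓ : GamOK d Γ) (a : ℝ) (w v : ℝ × ℝ × ℝ) :
    PL d ζ N lam b k a w * fderiv ℝ (XL d ζ N lam b k a) w v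
      - (PL d ζ N lam b k a w ^ 2 / 2
          + Gl N lam b k (Tc d Γ) (w.1, XL d ζ N lam b k a w, PL d ζ N lam b k a w, a)) * v.1
      = w.2.2 * v.2.1 - w.2.2 ^ 2 / 2 * v.1 + fderiv ℝ (FL d ζ N lam b k a) w v := by
  obtain ⟨cZ, cP, cX, cF⟩ := L_C2 d K Cb N lam gd b k h hN hl hp ζ hζ a
  have hN0 : 0 < N := by linarith
  have hInB := L_rel_aux_InB hN hp w.1
  -- the line
  obtain ⟨γ, hγ⟩ : ∃ γ : ℝ → ℝ × ℝ × ℝ, γ = fun s => w + s • v := ⟨_, rfl⟩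
  have hγ0 : γ 0 = w := by rw [hγ]; simp
  have hγd : HasDerivAt γ v 0 := by
    rw [hγ]
    have h1 : HasDerivAt (fun s : ℝ => s • v) ((1 : ℝ) • v) 0 := (hasDerivAt_id (0 : ℝ)).smul_const v
    rw [one_smul] at h1
    exact h1.const_add w
  have hline : ∀ f : ℝ × ℝ × ℝ → ℝ, ContDiff ℝ 2 f →
      HasDerivAt (fun s => f (γ s)) (fderiv ℝ f w v) 0 := by
    intro f hf
    have h1 : HasFDerivAt f (fderiv ℝ f w) (γ 0) := by
      rw [hγ0]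
      exact ((hf.differentiable (by norm_num)) w).hasFDerivAt
    exact h1.comp_hasDerivAt 0 hγd
  have ht : HasDerivAt (fun s => (γ s).1) v.1 0 := by
    have := hasFDerivAt_fst (𝕜 := ℝ) (E := ℝ) (F := ℝ × ℝ) (p := γ 0)
    exact this.comp_hasDerivAt 0 hγd
  have h2 : HasDerivAt (fun s => (γ s).2) v.2 0 := by
    have := hasFDerivAt_snd (𝕜 := ℝ) (E := ℝ) (F := ℝ × ℝ) (p := γ 0)
    exact this.comp_hasDerivAt 0 hγd
  have hθ : HasDerivAt (fun s => (γ s).2.1) v.2.1 0 := by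
    have := hasFDerivAt_fst (𝕜 := ℝ) (E := ℝ) (F := ℝ) (p := (γ 0).2)
    exact this.comp_hasDerivAt 0 h2
  have hc : HasDerivAt (fun s => (γ s).2.2) v.2.2 0 := by
    have := hasFDerivAt_snd (𝕜 := ℝ) (E := ℝ) (F := ℝ) (p := (γ 0).2)
    exact this.comp_hasDerivAt 0 h2
  have hZ := hline _ cZ
  have hP := hline _ cP
  have hX := hline _ cX
  have hF := hline _ cF
  have hg : HasDerivAt (fun s => (γ s).2.2 * N / lam) (v.2.2 * N / lam) 0 :=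
    (hc.mul_const N).div_const lam
  have hSS := chain_SS d a N Cb gd b k hN hp (fun s => (γ s).1)
    (fun s => ZL ζ N lam b k a (γ s)) (fun s => (γ s).2.2 * N / lam) v.1
    (fderiv ℝ (ZL ζ N lam b k a) w v) (v.2.2 * N / lam) ht hZ hg
  beta_reduce at hSS
  rw [hγ0] at hSS
  -- names
  obtain ⟨z0, hz0⟩ : ∃ z0, z0 = ZL ζ N lam b k a w := ⟨_, rfl⟩
  obtain ⟨P0, hP0⟩ : ∃ P0, P0 = PL d ζ N lam b k a w := ⟨_, rfl⟩
  obtain ⟨Z', hZ'⟩ : ∃ Z', Z' = fderiv ℝ (ZL ζ N lam b k a) w v := ⟨_, rfl⟩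
  obtain ⟨P', hP'⟩ : ∃ P', P' = fderiv ℝ (PL d ζ N lam b k a) w v := ⟨_, rfl⟩
  have hTh : Th d (ZL ζ N lam b k a w) (w.2.2 * N / lam) a (b w.1) (k w.1 / N)
      = (w.2.1 - w.1 * w.2.2) / lam := hζ.r _ _ _ _ _ hInB
  have hPz : Pz d (ZL ζ N lam b k a w) (w.2.2 * N / lam) a (b w.1) (k w.1 / N) = P0 * N / lam := by
    rw [hP0, PL]
    field_simp
  have hΓ' : Γ (ZL ζ N lam b k a w, P0 * N / lam, a, b w.1, k w.1 / N) = w.2.2 * N / lam := by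
    rw [← hPz]
    exact hΓ.l _ _ _ _ _ hInB
  obtain ⟨T0, hT0⟩ : ∃ T0, T0 = TT d (ZL ζ N lam b k a w) (w.2.2 * N / lam) a (b w.1) (w.1 / N) :=
    ⟨_, rfl⟩
  have hGl : Gl N lam b k (Tc d Γ) (w.1, XL d ζ N lam b k a w, PL d ζ N lam b k a w, a)
      = -(lam ^ 2 / N) * deriv b w.1 * T0 := by
    have h3 : (XL d ζ N lam b k a w - w.1 * PL d ζ N lam b k a w) / lam = ZL ζ N lam b k a w := by
      rw [XL]
      field_simp
      ring
    simp only [Gl, Tc]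
    rw [h3, ← hP0, hΓ', hT0]
  -- derivative of X
  have hX2 : HasDerivAt (fun s => lam * ZL ζ N lam b k a (γ s) + (γ s).1 * PL d ζ N lam b k a (γ s))
      (lam * Z' + (v.1 * P0 + w.1 * P')) 0 := by
    have h3 := (hZ.const_mul lam).add (ht.mul hP)
    refine h3.congr_deriv ?_
    rw [hγ0, ← hZ', ← hP', ← hP0]
  have hXeq : fderiv ℝ (XL d ζ N lam b k a) w v = lam * Z' + (v.1 * P0 + w.1 * P') :=
    hX.unique hX2
  -- derivative of F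
  have hy : HasDerivAt (fun s => ((γ s).2.1 - (γ s).1 * (γ s).2.2) / lam)
      ((v.2.1 - (v.1 * w.2.2 + w.1 * v.2.2)) / lam) 0 := by
    have h3 := (hθ.sub (ht.mul hc)).div_const lam
    refine h3.congr_deriv ?_
    rw [hγ0]
  have hF2 : HasDerivAt (fun s => lam ^ 2 / N * (SS d (ZL ζ N lam b k a (γ s)) ((γ s).2.2 * N / lam)
        a (b (γ s).1) (k (γ s).1 / N) - (γ s).2.2 * N / lam *
          (((γ s).2.1 - (γ s).1 * (γ s).2.2) / lam))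
      + (γ s).1 * (PL d ζ N lam b k a (γ s) ^ 2 - (γ s).2.2 ^ 2) / 2)
      (lam ^ 2 / N * ((P0 * N / lam * Z' + (w.2.1 - w.1 * w.2.2) / lam * (v.2.2 * N / lam)
        + deriv b w.1 * T0 * v.1) - (v.2.2 * N / lam * ((w.2.1 - w.1 * w.2.2) / lam)
        + w.2.2 * N / lam * ((v.2.1 - (v.1 * w.2.2 + w.1 * v.2.2)) / lam)))
        + (v.1 * (P0 ^ 2 - w.2.2 ^ 2) + w.1 * (2 * P0 * P' - 2 * w.2.2 * v.2.2)) / 2) 0 := by
    have h3 := ((hSS.sub (hg.mul hy)).const_mul (lam ^ 2 / N)).add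
      ((ht.mul ((hP.pow 2).sub (hc.pow 2))).div_const 2)
    refine h3.congr_deriv ?_
    have e : ((fun s => PL d ζ N lam b k a (γ s)) ^ 2 - (fun s => (γ s).2.2) ^ 2) (0 : ℝ)
        = P0 ^ 2 - w.2.2 ^ 2 := by
      change PL d ζ N lam b k a (γ 0) ^ 2 - (γ 0).2.2 ^ 2 = _
      rw [hγ0, ← hP0]
    rw [e, hγ0, hTh, hPz, ← hZ', ← hP', ← hP0, ← hT0]
    push_cast
    ring
  have hFeq : fderiv ℝ (FL d ζ N lam b k a) w v = _ := hF.unique hF2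
  rw [hXeq, hFeq, hGl, ← hP0]
  field_simp
  ring

end H867.FB
end
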