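import Pool.Agent.Helper867.FB.Defs2

set_option autoImplicit false
open Topology Set
open scoped ContDiff

noncomputable section

namespace H867.FB
open H930.FF

theorem sm_TT (d : ℝ) (v : ℝ × ℝ × ℝ × ℝ × ℝ) (hv : -1 < v.2.2.2.1) :
    ContDiffAt ℝ ∞ (fun v : ℝ × ℝ × ℝ × ℝ × ℝ =>
      TT d v.1 v.2.1 v.2.2.1 v.2.2.2.1 v.2.2.2.2) v := by
  have hz : ContDiffAt ℝ ∞ (fun v : ℝ × ℝ × ℝ × ℝ × ℝ => v.1) v := contDiffAt_fst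
  have hg : ContDiffAt ℝ ∞ (fun v : ℝ × ℝ × ℝ × ℝ × ℝ => v.2.1) v :=
    (contDiff_fst.comp contDiff_snd).contDiffAt
  have ha : ContDiffAt ℝ ∞ (fun v : ℝ × ℝ × ℝ × ℝ × ℝ => v.2.2.1) v :=
    (contDiff_fst.comp (contDiff_snd.comp contDiff_snd)).contDiffAt
  have hb : ContDiffAt ℝ ∞ (fun v : ℝ × ℝ × ℝ × ℝ × ℝ => v.2.2.2.1) v :=
    (contDiff_fst.comp (contDiff_snd.comp (contDiff_snd.comp contDiff_snd))).contDiffAt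
  have ht : ContDiffAt ℝ ∞ (fun v : ℝ × ℝ × ℝ × ℝ × ℝ => v.2.2.2.2) v :=
    (contDiff_snd.comp (contDiff_snd.comp (contDiff_snd.comp contDiff_snd))).contDiffAt
  have hA : ContDiffAt ℝ ∞ (fun v : ℝ × ℝ × ℝ × ℝ × ℝ => Real.smoothTransition v.2.2.1) v :=
    (Real.smoothTransition.contDiff (n := ⊤)).contDiffAt.comp v ha
  have hin : ContDiffAt ℝ ∞ (fun v : ℝ × ℝ × ℝ × ℝ × ℝ => 1 + v.1 ^ 2 + v.2.1 ^ 2) v :=
    (contDiffAt_const.add (hz.pow 2)).add (hg.pow 2)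
  have hlog : ContDiffAt ℝ ∞
      (fun v : ℝ × ℝ × ℝ × ℝ × ℝ => Real.log (1 + v.1 ^ 2 + v.2.1 ^ 2)) v :=
    hin.log (by positivity)
  have hC : ContDiffAt ℝ ∞ (fun v : ℝ × ℝ × ℝ × ℝ × ℝ =>
      Real.smoothTransition (2 - d * Real.log (1 + v.1 ^ 2 + v.2.1 ^ 2))) v :=
    (Real.smoothTransition.contDiff (n := ⊤)).contDiffAt.comp v
      (contDiffAt_const.sub (contDiffAt_const.mul hlog))
  have hS : ContDiffAt ℝ ∞ (fun v : ℝ × ℝ × ℝ × ℝ × ℝ => sS d v.1 v.2.1 v.2.2.1) v := hA.mul hC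
  have s0 : 0 ≤ sS d v.1 v.2.1 v.2.2.1 :=
    mul_nonneg (Real.smoothTransition.nonneg _) (Real.smoothTransition.nonneg _)
  have s1 : sS d v.1 v.2.1 v.2.2.1 ≤ 1 :=
    mul_le_one₀ (Real.smoothTransition.le_one _) (Real.smoothTransition.nonneg _)
      (Real.smoothTransition.le_one _)
  have hpos : 0 < 1 + sS d v.1 v.2.1 v.2.2.1 * v.2.2.2.1 := by
    rcases le_or_gt 0 v.2.2.2.1 with h | h
    · have := mul_nonneg s0 h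
      linarith
    · nlinarith
  have hQ : ContDiffAt ℝ ∞ (fun v : ℝ × ℝ × ℝ × ℝ × ℝ => QQ d v.1 v.2.1 v.2.2.1 v.2.2.2.1) v :=
    (contDiffAt_const.add (hS.mul hb)).sqrt hpos.ne'
  have hQpos : 0 < QQ d v.1 v.2.1 v.2.2.1 v.2.2.2.1 := Real.sqrt_pos.2 hpos
  have h2Q : (2 : ℝ) * QQ d v.1 v.2.1 v.2.2.1 v.2.2.2.1 ≠ 0 := by positivity
  have hD : ContDiffAt ℝ ∞ (fun v : ℝ × ℝ × ℝ × ℝ × ℝ =>
      v.1 / (2 * QQ d v.1 v.2.1 v.2.2.1 v.2.2.2.1)) v :=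
    hz.div (contDiffAt_const.mul hQ) h2Q
  have hE : ContDiffAt ℝ ∞ (fun v : ℝ × ℝ × ℝ × ℝ × ℝ => v.2.1 * v.2.2.2.2 / 2) v :=
    (hg.mul ht).div_const 2
  exact (hS.mul hg).mul (hD.add hE)

end H867.FB
end
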