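import Pool.Agent.Helper867.FB.Defs2
import Pool.Agent.Helper867.FB.L_sm_TT

set_option autoImplicit false
open Topology Set
open scoped ContDiff

noncomputable section

namespace H867.FB
open H930.FF

theorem Tc_sm (d : ℝ) (Γ : ℝ × ℝ × ℝ × ℝ × ℝ → ℝ) (hΓ : GamOK d Γ)
    (y : ℝ × ℝ × ℝ × ℝ × ℝ × ℝ) (hy : InB y.2.2.2.1 y.2.2.2.2.1) :
    ContDiffAt ℝ ∞ (Tc d Γ) y := by
  have hp : ContDiffAt ℝ ∞ (fun y : ℝ × ℝ × ℝ × ℝ × ℝ × ℝ =>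
      ((y.1, y.2.1, y.2.2.1, y.2.2.2.1, y.2.2.2.2.1) : ℝ × ℝ × ℝ × ℝ × ℝ)) y := by
    apply ContDiff.contDiffAt
    fun_prop
  have hG : ContDiffAt ℝ ∞ (fun y : ℝ × ℝ × ℝ × ℝ × ℝ × ℝ =>
      Γ (y.1, y.2.1, y.2.2.1, y.2.2.2.1, y.2.2.2.2.1)) y :=
    ContDiffAt.comp (g := Γ) y (hΓ.sm y.1 y.2.1 y.2.2.1 y.2.2.2.1 y.2.2.2.2.1 hy) hp
  have h1 : ContDiffAt ℝ ∞ (fun y : ℝ × ℝ × ℝ × ℝ × ℝ × ℝ => y.1) y := by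
    apply ContDiff.contDiffAt
    fun_prop
  have h3 : ContDiffAt ℝ ∞ (fun y : ℝ × ℝ × ℝ × ℝ × ℝ × ℝ =>
      ((y.2.2.1, y.2.2.2.1, y.2.2.2.2.2) : ℝ × ℝ × ℝ)) y := by
    apply ContDiff.contDiffAt
    fun_prop
  have hq : ContDiffAt ℝ ∞ (fun y : ℝ × ℝ × ℝ × ℝ × ℝ × ℝ =>
      ((y.1, Γ (y.1, y.2.1, y.2.2.1, y.2.2.2.1, y.2.2.2.2.1), y.2.2.1, y.2.2.2.1, y.2.2.2.2.2) :
        ℝ × ℝ × ℝ × ℝ × ℝ)) y :=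
    h1.prodMk (hG.prodMk h3)
  have hb : -1 < y.2.2.2.1 := by
    have := hy.1
    linarith
  exact ContDiffAt.comp (g := fun v : ℝ × ℝ × ℝ × ℝ × ℝ =>
      TT d v.1 v.2.1 v.2.2.1 v.2.2.2.1 v.2.2.2.2) y (sm_TT d _ hb) hq

end H867.FB
end
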