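import Pool.Agent.Helper867.FB.Defs2
import Pool.Agent.Helper867.FB.L_Tc_sm
import Pool.Agent.Helper867.FB.L_Tc_supp
import Pool.Agent.Helper867.FB.L_Tc_zero

set_option autoImplicit false
open Topology Set
open scoped ContDiff

noncomputable section

namespace H867.FB
open H930.FF

theorem Tc_bd_aux_amp (a : ℝ) (ha : 1 ≤ a) : amp a = 1 := Real.smoothTransition.one_of_one_le ha

theorem Tc_bd_aux_sS (d z g a : ℝ) (ha : 1 ≤ a) : sS d z g a = sS d z g 1 := by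
  unfold sS
  rw [Tc_bd_aux_amp a ha, Tc_bd_aux_amp 1 le_rfl]

theorem Tc_bd_aux_QQ (d z g a b : ℝ) (ha : 1 ≤ a) : QQ d z g a b = QQ d z g 1 b := by
  unfold QQ
  rw [Tc_bd_aux_sS d z g a ha]

theorem Tc_bd_aux_SSa (d a b κ : ℝ) (ha : 1 ≤ a) : SSa d a b κ = SSa d 1 b κ := by
  funext z g
  unfold SSa SS
  rw [Tc_bd_aux_sS d z g a ha, Tc_bd_aux_QQ d z g a b ha]

theorem Tc_bd_aux_G (d : ℝ) (Γ : ℝ × ℝ × ℝ × ℝ × ℝ → ℝ) (hΓ : GamOK d Γ) (z p a b κ : ℝ)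
    (ha : 1 ≤ a) (hB : InB b κ) : Γ (z, p, a, b, κ) = Γ (z, p, 1, b, κ) := by
  have r := hΓ.r z p a b κ hB
  have l := hΓ.l z (Γ (z, p, a, b, κ)) 1 b κ hB
  have e : Pz d z (Γ (z, p, a, b, κ)) a b κ = Pz d z (Γ (z, p, a, b, κ)) 1 b κ := by
    unfold Pz
    rw [Tc_bd_aux_SSa d a b κ ha]
  rw [e] at r
  rw [r] at l
  exact l.symm

theorem Tc_bd_aux_T (d : ℝ) (Γ : ℝ × ℝ × ℝ × ℝ × ℝ → ℝ) (hΓ : GamOK d Γ) (z p a b κ τ : ℝ)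
    (ha : 1 ≤ a) (hB : InB b κ) : Tc d Γ (z, p, a, b, κ, τ) = Tc d Γ (z, p, 1, b, κ, τ) := by
  change TT d z (Γ (z, p, a, b, κ)) a b τ = TT d z (Γ (z, p, 1, b, κ)) 1 b τ
  rw [Tc_bd_aux_G d Γ hΓ z p a b κ ha hB]
  unfold TT
  rw [Tc_bd_aux_sS d z _ a ha, Tc_bd_aux_QQ d z _ a b ha]

theorem Tc_bd_aux_open : IsOpen {y : ℝ × ℝ × ℝ × ℝ × ℝ × ℝ | InB y.2.2.2.1 y.2.2.2.2.1} := by
  have o1 : IsOpen {y : ℝ × ℝ × ℝ × ℝ × ℝ × ℝ | 1 / 8000000 - 1 < y.2.2.2.1} :=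
    isOpen_lt (by fun_prop) (by fun_prop)
  have o2 : IsOpen {y : ℝ × ℝ × ℝ × ℝ × ℝ × ℝ | y.2.2.2.1 < 3} :=
    isOpen_lt (by fun_prop) (by fun_prop)
  have o3 : IsOpen {y : ℝ × ℝ × ℝ × ℝ × ℝ × ℝ | |y.2.2.2.2.1| < 4} :=
    isOpen_lt (by fun_prop) (by fun_prop)
  exact o1.inter (o2.inter o3)

theorem Tc_bd_aux_zero (f : ℝ × ℝ × ℝ × ℝ × ℝ × ℝ → ℝ) (y : ℝ × ℝ × ℝ × ℝ × ℝ × ℝ)
    (h : f =ᶠ[𝓝 y] fun _ => 0) :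
    f y = 0 ∧ fderiv ℝ f y = 0 ∧ fderiv ℝ (fderiv ℝ f) y = 0 := by
  have h1 := h.fderiv (𝕜 := ℝ)
  refine ⟨h.eq_of_nhds, ?_, ?_⟩
  · rw [h1.eq_of_nhds]
    simp
  · have h2 : fderiv ℝ f =ᶠ[𝓝 y] fun _ => 0 := by
      refine h1.trans ?_
      apply Filter.Eventually.of_forall
      intro x
      simp
    rw [h2.fderiv_eq]
    simp

theorem Tc_bd_aux_shift (f : ℝ × ℝ × ℝ × ℝ × ℝ × ℝ → ℝ) (y c : ℝ × ℝ × ℝ × ℝ × ℝ × ℝ)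
    (h : f =ᶠ[𝓝 y] fun x => f (x + c)) :
    f y = f (y + c) ∧ fderiv ℝ f y = fderiv ℝ f (y + c) ∧
      fderiv ℝ (fderiv ℝ f) y = fderiv ℝ (fderiv ℝ f) (y + c) := by
  have h1 := h.fderiv (𝕜 := ℝ)
  refine ⟨h.eq_of_nhds, ?_, ?_⟩
  · rw [h1.eq_of_nhds]
    exact fderiv_comp_add_right c
  · have h2 : fderiv ℝ f =ᶠ[𝓝 y] fun x => fderiv ℝ f (x + c) := by
      refine h1.trans ?_
      apply Filter.Eventually.of_forall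
      intro x
      exact fderiv_comp_add_right c
    rw [h2.fderiv_eq]
    exact fderiv_comp_add_right c

theorem Tc_bd (d K : ℝ) (h : Good d K) (Γ : ℝ × ℝ × ℝ × ℝ × ℝ → ℝ) (hΓ : GamOK d Γ) :
    ∃ M : ℝ, 0 ≤ M ∧ ∀ y : ℝ × ℝ × ℝ × ℝ × ℝ × ℝ, Reg y → |y.2.2.2.2.2| ≤ 2 →
      |Tc d Γ y| ≤ M ∧ ‖fderiv ℝ (Tc d Γ) y‖ ≤ M ∧ ‖fderiv ℝ (fderiv ℝ (Tc d Γ)) y‖ ≤ M := by
  have hInB : ∀ y : ℝ × ℝ × ℝ × ℝ × ℝ × ℝ, Reg y → InB y.2.2.2.1 y.2.2.2.2.1 := by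
    intro y hy
    obtain ⟨h1, h2, h3⟩ := hy
    exact ⟨by linarith, by linarith, by linarith⟩
  have hsm1 : ∀ y : ℝ × ℝ × ℝ × ℝ × ℝ × ℝ, InB y.2.2.2.1 y.2.2.2.2.1 →
      ContDiffAt ℝ ∞ (fderiv ℝ (Tc d Γ)) y := by
    intro y hy
    exact (Tc_sm d Γ hΓ y hy).fderiv_right (m := ∞) (by simp)
  have hsm2 : ∀ y : ℝ × ℝ × ℝ × ℝ × ℝ × ℝ, InB y.2.2.2.1 y.2.2.2.2.1 →
      ContDiffAt ℝ ∞ (fderiv ℝ (fderiv ℝ (Tc d Γ))) y := by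
    intro y hy
    exact (hsm1 y hy).fderiv_right (m := ∞) (by simp)
  set R := Real.exp (1 / d) with hR
  let C : Set (ℝ × ℝ × ℝ × ℝ × ℝ × ℝ) := Set.Icc (-R) R ×ˢ Set.Icc (-(5 / 2 * R)) (5 / 2 * R) ×ˢ
    Set.Icc (0 : ℝ) 2 ×ˢ Set.Icc (1 / 4000000 - 1 : ℝ) 2 ×ˢ Set.Icc (-3 : ℝ) 3 ×ˢ Set.Icc (-2 : ℝ) 2
  have hC : IsCompact C := isCompact_Icc.prod (isCompact_Icc.prod (isCompact_Icc.prod
    (isCompact_Icc.prod (isCompact_Icc.prod isCompact_Icc))))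
  have hCB : ∀ y ∈ C, InB y.2.2.2.1 y.2.2.2.2.1 := by
    rintro y ⟨-, -, -, h4, h5, -⟩
    apply hInB
    exact ⟨h4.1, h4.2, abs_le.mpr h5⟩
  obtain ⟨M1, hM1⟩ := hC.exists_bound_of_continuousOn (f := Tc d Γ)
    (fun y hy => (Tc_sm d Γ hΓ y (hCB y hy)).continuousAt.continuousWithinAt)
  obtain ⟨M2, hM2⟩ := hC.exists_bound_of_continuousOn (f := fderiv ℝ (Tc d Γ))
    (fun y hy => (hsm1 y (hCB y hy)).continuousAt.continuousWithinAt)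
  obtain ⟨M3, hM3⟩ := hC.exists_bound_of_continuousOn (f := fderiv ℝ (fderiv ℝ (Tc d Γ)))
    (fun y hy => (hsm2 y (hCB y hy)).continuousAt.continuousWithinAt)
  have a1 := abs_nonneg M1
  have a2 := abs_nonneg M2
  have a3 := abs_nonneg M3
  have a1' := le_abs_self M1
  have a2' := le_abs_self M2
  have a3' := le_abs_self M3
  refine ⟨|M1| + |M2| + |M3|, by positivity, ?_⟩
  have hz : ∀ y : ℝ × ℝ × ℝ × ℝ × ℝ × ℝ, Tc d Γ =ᶠ[𝓝 y] (fun _ => 0) →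
      |Tc d Γ y| ≤ |M1| + |M2| + |M3| ∧ ‖fderiv ℝ (Tc d Γ) y‖ ≤ |M1| + |M2| + |M3| ∧
      ‖fderiv ℝ (fderiv ℝ (Tc d Γ)) y‖ ≤ |M1| + |M2| + |M3| := by
    intro y hy
    obtain ⟨e1, e2, e3⟩ := Tc_bd_aux_zero _ y hy
    have e4 : ‖fderiv ℝ (fderiv ℝ (Tc d Γ)) y‖ = 0 := by
      rw [e3]
      exact ContinuousLinearMap.opNorm_zero
    rw [e1, e2, e4, abs_zero, norm_zero]
    exact ⟨by positivity, by positivity, by positivity⟩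
  have hCb : ∀ y ∈ C, |Tc d Γ y| ≤ |M1| + |M2| + |M3| ∧ ‖fderiv ℝ (Tc d Γ) y‖ ≤ |M1| + |M2| + |M3| ∧
      ‖fderiv ℝ (fderiv ℝ (Tc d Γ)) y‖ ≤ |M1| + |M2| + |M3| := by
    intro y hy
    have b1 := hM1 y hy
    have b2 := hM2 y hy
    have b3 := hM3 y hy
    rw [Real.norm_eq_abs] at b1
    exact ⟨by linarith, by linarith, by linarith⟩
  intro y hy hτ
  have hyB := hInB y hy
  have hopen := Tc_bd_aux_open.mem_nhds (show y ∈ {y : ℝ × ℝ × ℝ × ℝ × ℝ × ℝ | InB y.2.2.2.1 y.2.2.2.2.1} from hyB)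
  by_cases hzc : R < |y.1|
  · apply hz
    have ho : IsOpen {y : ℝ × ℝ × ℝ × ℝ × ℝ × ℝ | R < |y.1|} := isOpen_lt (by fun_prop) (by fun_prop)
    filter_upwards [ho.mem_nhds hzc, hopen] with x hx1 hx2
    exact Tc_supp d K h Γ hΓ x.1 x.2.1 x.2.2.1 x.2.2.2.1 x.2.2.2.2.1 x.2.2.2.2.2 hx2 (Or.inl hx1)
  by_cases hpc : 5 / 2 * R < |y.2.1|
  · apply hz
    have ho : IsOpen {y : ℝ × ℝ × ℝ × ℝ × ℝ × ℝ | 5 / 2 * R < |y.2.1|} :=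
      isOpen_lt (by fun_prop) (by fun_prop)
    filter_upwards [ho.mem_nhds hpc, hopen] with x hx1 hx2
    exact Tc_supp d K h Γ hΓ x.1 x.2.1 x.2.2.1 x.2.2.2.1 x.2.2.2.2.1 x.2.2.2.2.2 hx2 (Or.inr hx1)
  by_cases hac : y.2.2.1 < 0
  · apply hz
    have ho : IsOpen {y : ℝ × ℝ × ℝ × ℝ × ℝ × ℝ | y.2.2.1 < 0} := isOpen_lt (by fun_prop) (by fun_prop)
    filter_upwards [ho.mem_nhds hac, hopen] with x hx1 hx2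
    exact Tc_zero d K h Γ hΓ x.1 x.2.1 x.2.2.1 x.2.2.2.1 x.2.2.2.2.1 x.2.2.2.2.2 hx2
      (Or.inr (le_of_lt hx1))
  rw [not_lt] at hzc hpc hac
  obtain ⟨r1, r2, r3⟩ := hy
  by_cases ha2 : y.2.2.1 ≤ 2
  · exact hCb y ⟨abs_le.mp hzc, abs_le.mp hpc, ⟨hac, ha2⟩, ⟨r1, r2⟩, abs_le.mp r3, abs_le.mp hτ⟩
  · rw [not_le] at ha2
    have hsh : Tc d Γ =ᶠ[𝓝 y] fun x => Tc d Γ (x + (0, 0, 2 - y.2.2.1, 0, 0, 0)) := by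
      have ho : IsOpen {x : ℝ × ℝ × ℝ × ℝ × ℝ × ℝ | y.2.2.1 - 1 < x.2.2.1} :=
        isOpen_lt (by fun_prop) (by fun_prop)
      have hmem : y ∈ {x : ℝ × ℝ × ℝ × ℝ × ℝ × ℝ | y.2.2.1 - 1 < x.2.2.1} := by
        change y.2.2.1 - 1 < y.2.2.1
        linarith
      filter_upwards [ho.mem_nhds hmem, hopen] with x hx1 hx2
      obtain ⟨z, p, a, b, κ, τ⟩ := x
      change y.2.2.1 - 1 < a at hx1
      change InB b κ at hx2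
      rw [Tc_bd_aux_T d Γ hΓ z p a b κ τ (by linarith) hx2]
      have e : ((z, p, a, b, κ, τ) : ℝ × ℝ × ℝ × ℝ × ℝ × ℝ) + (0, 0, 2 - y.2.2.1, 0, 0, 0) =
          (z, p, a + (2 - y.2.2.1), b, κ, τ) := by
        simp
      rw [e, Tc_bd_aux_T d Γ hΓ z p (a + (2 - y.2.2.1)) b κ τ (by linarith) hx2]
    obtain ⟨e1, e2, e3⟩ := Tc_bd_aux_shift _ y _ hsh
    rw [e1, e2, e3]
    apply hCb
    obtain ⟨z, p, a, b, κ, τ⟩ := y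
    have e : ((z, p, a, b, κ, τ) : ℝ × ℝ × ℝ × ℝ × ℝ × ℝ) + (0, 0, 2 - a, 0, 0, 0) =
        (z, p, 2, b, κ, τ) := by
      simp
    change ((z, p, a, b, κ, τ) : ℝ × ℝ × ℝ × ℝ × ℝ × ℝ) + (0, 0, 2 - a, 0, 0, 0) ∈ C
    rw [e]
    exact ⟨abs_le.mp hzc, abs_le.mp hpc, ⟨by norm_num, le_refl _⟩, ⟨r1, r2⟩, abs_le.mp r3, abs_le.mp hτ⟩

end H867.FB
end
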