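import Pool.Agent.Helper867.FB.Defs2
import Pool.Agent.Helper867.FB.L_sm_TT
import Pool.Agent.Helper867.FB.L_sm_SS
import Pool.Agent.Helper867.FB.L_sm_Pz
import Pool.Agent.Helper867.FB.L_Tc_sm
import Pool.Agent.Helper867.FB.L_mixed_bd

set_option autoImplicit false
open Topology Set
open scoped ContDiff

noncomputable section

namespace H867.FB
open H930.FF

/-- smooth as a function of two variables -/
def Tc_dd_auxSm (f : ℝ → ℝ → ℝ) : Prop := ContDiff ℝ ∞ (fun v : ℝ × ℝ => f v.1 v.2)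

theorem Tc_dd_aux_z {f : ℝ → ℝ → ℝ} (hf : Tc_dd_auxSm f) (z g : ℝ) :
    pz f z g = fderiv ℝ (fun v : ℝ × ℝ => f v.1 v.2) (z, g) (1, 0) := by
  have h1 : HasFDerivAt (fun v : ℝ × ℝ => f v.1 v.2)
      (fderiv ℝ (fun v : ℝ × ℝ => f v.1 v.2) (z, g)) (z, g) :=
    (hf.differentiable (by simp)).differentiableAt.hasFDerivAt
  have h2 : HasDerivAt (fun z' : ℝ => (z', g)) ((1 : ℝ), (0 : ℝ)) z :=
    (hasDerivAt_id z).prodMk (hasDerivAt_const z g)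
  have h3 := HasFDerivAt.comp_hasDerivAt z (f := fun z' : ℝ => (z', g)) h1 h2
  exact h3.deriv

theorem Tc_dd_aux_g {f : ℝ → ℝ → ℝ} (hf : Tc_dd_auxSm f) (z g : ℝ) :
    pg f z g = fderiv ℝ (fun v : ℝ × ℝ => f v.1 v.2) (z, g) (0, 1) := by
  have h1 : HasFDerivAt (fun v : ℝ × ℝ => f v.1 v.2)
      (fderiv ℝ (fun v : ℝ × ℝ => f v.1 v.2) (z, g)) (z, g) :=
    (hf.differentiable (by simp)).differentiableAt.hasFDerivAt
  have h2 : HasDerivAt (fun g' : ℝ => (z, g')) ((0 : ℝ), (1 : ℝ)) g :=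
    (hasDerivAt_const g z).prodMk (hasDerivAt_id g)
  have h3 := HasFDerivAt.comp_hasDerivAt g (f := fun g' : ℝ => (z, g')) h1 h2
  exact h3.deriv

theorem Tc_dd_aux_smz {f : ℝ → ℝ → ℝ} (hf : Tc_dd_auxSm f) : Tc_dd_auxSm (pz f) := by
  unfold Tc_dd_auxSm
  have h1 : (fun v : ℝ × ℝ => pz f v.1 v.2) =
      fun v : ℝ × ℝ => fderiv ℝ (fun v : ℝ × ℝ => f v.1 v.2) v (1, 0) := by
    funext v
    exact Tc_dd_aux_z hf v.1 v.2
  rw [h1]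
  have h2 : ContDiff ℝ ∞ (fderiv ℝ (fun v : ℝ × ℝ => f v.1 v.2)) :=
    ContDiff.fderiv_right (m := ∞) hf (by simp)
  exact h2.clm_apply contDiff_const

theorem Tc_dd_aux_smg {f : ℝ → ℝ → ℝ} (hf : Tc_dd_auxSm f) : Tc_dd_auxSm (pg f) := by
  unfold Tc_dd_auxSm
  have h1 : (fun v : ℝ × ℝ => pg f v.1 v.2) =
      fun v : ℝ × ℝ => fderiv ℝ (fun v : ℝ × ℝ => f v.1 v.2) v (0, 1) := by
    funext v
    exact Tc_dd_aux_g hf v.1 v.2
  rw [h1]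
  have h2 : ContDiff ℝ ∞ (fderiv ℝ (fun v : ℝ × ℝ => f v.1 v.2)) :=
    ContDiff.fderiv_right (m := ∞) hf (by simp)
  exact h2.clm_apply contDiff_const

theorem Tc_dd_aux_chain {f : ℝ → ℝ → ℝ} (hf : Tc_dd_auxSm f) (z τ : ℝ) (γ : ℝ → ℝ) (γ' s : ℝ)
    (hγ : HasDerivAt γ γ' s) :
    HasDerivAt (fun s => f (z - τ * s) (γ s))
      (-τ * pz f (z - τ * s) (γ s) + γ' * pg f (z - τ * s) (γ s)) s := by
  have h1 : HasFDerivAt (fun v : ℝ × ℝ => f v.1 v.2)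
      (fderiv ℝ (fun v : ℝ × ℝ => f v.1 v.2) (z - τ * s, γ s)) (z - τ * s, γ s) :=
    (hf.differentiable (by simp)).differentiableAt.hasFDerivAt
  have h0 : HasDerivAt (fun s : ℝ => z - τ * s) (-τ) s := by
    simpa using ((hasDerivAt_id s).const_mul τ).const_sub z
  have h2 : HasDerivAt (fun s : ℝ => (z - τ * s, γ s)) (-τ, γ') s := h0.prodMk hγ
  have h3 := HasFDerivAt.comp_hasDerivAt s (f := fun s : ℝ => (z - τ * s, γ s)) h1 h2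
  have h4 : ((-τ, γ') : ℝ × ℝ) = (-τ) • ((1 : ℝ), (0 : ℝ)) + γ' • ((0 : ℝ), (1 : ℝ)) := by
    simp
  have h5 : fderiv ℝ (fun v : ℝ × ℝ => f v.1 v.2) (z - τ * s, γ s) (-τ, γ') =
      -τ * pz f (z - τ * s) (γ s) + γ' * pg f (z - τ * s) (γ s) := by
    rw [h4, map_add, map_smul, map_smul, ← Tc_dd_aux_z hf, ← Tc_dd_aux_g hf, smul_eq_mul,
      smul_eq_mul]
  rw [h5] at h3
  exact h3

theorem Tc_dd_aux_S (d a b κ : ℝ) (hb : -1 < b) : Tc_dd_auxSm (SSa d a b κ) := by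
  unfold Tc_dd_auxSm
  rw [contDiff_iff_contDiffAt]
  intro v
  have h1 := sm_SS d (v.1, v.2, a, b, κ) hb
  have h2 : ContDiffAt ℝ ∞ (fun v : ℝ × ℝ => (v.1, v.2, a, b, κ)) v := by fun_prop
  exact ContDiffAt.comp v (g := fun v : ℝ × ℝ × ℝ × ℝ × ℝ =>
    SS d v.1 v.2.1 v.2.2.1 v.2.2.2.1 v.2.2.2.2) h1 h2

theorem Tc_dd_aux_T (d a b τ : ℝ) (hb : -1 < b) : Tc_dd_auxSm (TTa d a b τ) := by
  unfold Tc_dd_auxSm
  rw [contDiff_iff_contDiffAt]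
  intro v
  have h1 := sm_TT d (v.1, v.2, a, b, τ) hb
  have h2 : ContDiffAt ℝ ∞ (fun v : ℝ × ℝ => (v.1, v.2, a, b, τ)) v := by fun_prop
  exact ContDiffAt.comp v (g := fun v : ℝ × ℝ × ℝ × ℝ × ℝ =>
    TT d v.1 v.2.1 v.2.2.1 v.2.2.2.1 v.2.2.2.2) h1 h2

theorem Tc_dd_aux_DD {S f : ℝ → ℝ → ℝ} (τ : ℝ) (hS : Tc_dd_auxSm S) (hf : Tc_dd_auxSm f)
    (hne : ∀ z g, pg (pz S) z g ≠ 0) : Tc_dd_auxSm (DD S τ f) := by
  have h1 := Tc_dd_aux_smz hf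
  have h2 := Tc_dd_aux_smg hf
  have h3 := Tc_dd_aux_smz (Tc_dd_aux_smz hS)
  have h4 := Tc_dd_aux_smg (Tc_dd_aux_smz hS)
  unfold Tc_dd_auxSm at h1 h2 h3 h4 ⊢
  unfold DD om
  have h5 : ContDiff ℝ ∞ (fun v : ℝ × ℝ => (1 + τ * pz (pz S) v.1 v.2) / pg (pz S) v.1 v.2) :=
    (contDiff_const.add (contDiff_const.mul h3)).div h4 (fun v => hne v.1 v.2)
  exact (contDiff_const.mul h1).add (h5.mul h2)

theorem Tc_dd (d K : ℝ) (h : Good d K) (Γ : ℝ × ℝ × ℝ × ℝ × ℝ → ℝ) (hΓ : GamOK d Γ)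
    (z p a b κ τ : ℝ) (hy : InB b κ) :
    fderiv ℝ (fderiv ℝ (Tc d Γ)) (z, p, a, b, κ, τ) (-τ, 1, 0, 0, 0, 0) (-τ, 1, 0, 0, 0, 0)
      = DD (SSa d a b κ) τ (DD (SSa d a b κ) τ (TTa d a b τ)) z (Γ (z, p, a, b, κ)) := by
  obtain ⟨hb1, hb2, hk⟩ := hy
  have hb : -1 < b := by linarith
  have hS := Tc_dd_aux_S d a b κ hb
  have hT := Tc_dd_aux_T d a b τ hb
  have hpos : ∀ z g, 0 < pg (pz (SSa d a b κ)) z g := by
    intro z g
    have := (mixed_bd d K a b κ z g h hb1.le hb2.le hk.le).1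
    linarith
  obtain ⟨γ, hγ⟩ : ∃ γ : ℝ → ℝ, γ = fun s => Γ (z - τ * s, p + s, a, b, κ) := ⟨_, rfl⟩
  have hγd : ∀ s, HasDerivAt γ (om (SSa d a b κ) τ (z - τ * s) (γ s)) s := by
    intro s
    have h1 : DifferentiableAt ℝ γ s := by
      rw [hγ]
      have h2 : DifferentiableAt ℝ Γ (z - τ * s, p + s, a, b, κ) :=
        (hΓ.sm (z - τ * s) (p + s) a b κ ⟨hb1, hb2, hk⟩).differentiableAt (by simp)
      have h3 : DifferentiableAt ℝ (fun s : ℝ => (z - τ * s, p + s, a, b, κ)) s := by fun_prop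
      exact DifferentiableAt.comp s (f := fun s : ℝ => (z - τ * s, p + s, a, b, κ)) h2 h3
    have h2 := Tc_dd_aux_chain (Tc_dd_aux_smz hS) z τ γ (deriv γ s) s h1.hasDerivAt
    have h3 : (fun s => pz (SSa d a b κ) (z - τ * s) (γ s)) = fun s => p + s := by
      funext s
      rw [hγ]
      exact hΓ.r (z - τ * s) (p + s) a b κ ⟨hb1, hb2, hk⟩
    rw [h3] at h2
    have h4 : HasDerivAt (fun s : ℝ => p + s) 1 s := (hasDerivAt_id s).const_add p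
    have h5 := h2.unique h4
    have h6 : deriv γ s = om (SSa d a b κ) τ (z - τ * s) (γ s) := by
      unfold om
      rw [eq_div_iff (hpos _ _).ne']
      linarith
    rw [← h6]
    exact h1.hasDerivAt
  have hchain : ∀ f : ℝ → ℝ → ℝ, Tc_dd_auxSm f → ∀ s,
      HasDerivAt (fun s => f (z - τ * s) (γ s)) (DD (SSa d a b κ) τ f (z - τ * s) (γ s)) s := by
    intro f hf s
    exact Tc_dd_aux_chain hf z τ γ _ s (hγd s)
  have hDT : Tc_dd_auxSm (DD (SSa d a b κ) τ (TTa d a b τ)) :=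
    Tc_dd_aux_DD τ hS hT (fun z g => (hpos z g).ne')
  -- the line
  obtain ⟨l, hl⟩ : ∃ l : ℝ → ℝ × ℝ × ℝ × ℝ × ℝ × ℝ, l = fun s => (z - τ * s, p + s, a, b, κ, τ) :=
    ⟨_, rfl⟩
  have hld : ∀ s, HasDerivAt l ((-τ, 1, 0, 0, 0, 0) : ℝ × ℝ × ℝ × ℝ × ℝ × ℝ) s := by
    intro s
    rw [hl]
    have h0 : HasDerivAt (fun s : ℝ => z - τ * s) (-τ) s := by
      simpa using ((hasDerivAt_id s).const_mul τ).const_sub z
    have h1 : HasDerivAt (fun s : ℝ => p + s) 1 s := (hasDerivAt_id s).const_add p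
    exact h0.prodMk (h1.prodMk ((hasDerivAt_const s a).prodMk ((hasDerivAt_const s b).prodMk
      ((hasDerivAt_const s κ).prodMk (hasDerivAt_const s τ)))))
  have hTs : ∀ s, ContDiffAt ℝ ∞ (Tc d Γ) (l s) := by
    intro s
    rw [hl]
    exact Tc_sm d Γ hΓ _ ⟨hb1, hb2, hk⟩
  have hφ : ∀ s, Tc d Γ (l s) = TTa d a b τ (z - τ * s) (γ s) := by
    intro s
    rw [hl, hγ]
    rfl
  have h1 : ∀ s, fderiv ℝ (Tc d Γ) (l s) (-τ, 1, 0, 0, 0, 0) =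
      DD (SSa d a b κ) τ (TTa d a b τ) (z - τ * s) (γ s) := by
    intro s
    have e1 : HasFDerivAt (Tc d Γ) (fderiv ℝ (Tc d Γ) (l s)) (l s) :=
      ((hTs s).differentiableAt (by simp)).hasFDerivAt
    have e2 := HasFDerivAt.comp_hasDerivAt s e1 (hld s)
    have e3 : (Tc d Γ ∘ l) = fun s => TTa d a b τ (z - τ * s) (γ s) := by
      funext s
      exact hφ s
    rw [e3] at e2
    exact e2.unique (hchain _ hT s)
  have h2 : HasDerivAt (fun s => fderiv ℝ (Tc d Γ) (l s) (-τ, 1, 0, 0, 0, 0))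
      (fderiv ℝ (fderiv ℝ (Tc d Γ)) (l 0) (-τ, 1, 0, 0, 0, 0) (-τ, 1, 0, 0, 0, 0)) 0 := by
    have e1 : ContDiffAt ℝ 1 (fderiv ℝ (Tc d Γ)) (l 0) :=
      (hTs 0).fderiv_right (m := 1) (by
        norm_cast)
    have e2 : HasFDerivAt (fderiv ℝ (Tc d Γ)) (fderiv ℝ (fderiv ℝ (Tc d Γ)) (l 0)) (l 0) :=
      (e1.differentiableAt (by simp)).hasFDerivAt
    have e3 := HasFDerivAt.comp_hasDerivAt 0 e2 (hld 0)
    have e4 := e3.clm_apply (hasDerivAt_const (0 : ℝ)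
      ((-τ, 1, 0, 0, 0, 0) : ℝ × ℝ × ℝ × ℝ × ℝ × ℝ))
    simpa using e4
  have h3 : (fun s => fderiv ℝ (Tc d Γ) (l s) (-τ, 1, 0, 0, 0, 0)) =
      fun s => DD (SSa d a b κ) τ (TTa d a b τ) (z - τ * s) (γ s) := by
    funext s
    exact h1 s
  rw [h3] at h2
  have h4 := h2.unique (hchain _ hDT 0)
  have h5 : l 0 = (z, p, a, b, κ, τ) := by
    rw [hl]; simp
  have h6 : γ 0 = Γ (z, p, a, b, κ) := by
    rw [hγ]; simp
  rw [h5, h6, mul_zero, sub_zero] at h4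
  exact h4

end H867.FB
end
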