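import Pool.Agent.Helper867.FB.Defs2

set_option autoImplicit false
open Topology Set
open scoped ContDiff

noncomputable section

namespace H867.FB
open H930.FF

theorem dd_zero_aux_quad (α β γ x : ℝ) :
    deriv (fun x : ℝ => α * x ^ 2 + β * x + γ) x = 2 * α * x + β := by
  have h1 : HasDerivAt (fun x : ℝ => α * x ^ 2 + β * x + γ) (α * (2 * x) + β * 1) x := by
    have h2 : HasDerivAt (fun x : ℝ => x ^ 2) (2 * x) x := by
      simpa using hasDerivAt_pow 2 x
    exact ((h2.const_mul α).add ((hasDerivAt_id x).const_mul β)).add_const γ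
  rw [h1.deriv]; ring

theorem dd_zero_aux_quad' (f : ℝ → ℝ) (α β γ x : ℝ) (h : ∀ y, f y = α * y ^ 2 + β * y + γ) :
    deriv f x = 2 * α * x + β := by
  have e : f = fun y => α * y ^ 2 + β * y + γ := funext h
  rw [e, dd_zero_aux_quad]

theorem dd_zero (A b κ μ tt τ z g : ℝ) (h : InK A b κ μ tt τ z g) :
    DD (SF 0 A b κ μ tt) τ (DD (SF 0 A b κ μ tt) τ (TF 0 A b μ tt τ)) z g = 0 := by
  obtain ⟨s, hs⟩ : ∃ s : ℝ, s = A * chi μ := ⟨_, rfl⟩
  have hchi0 : 0 ≤ chi μ := Real.smoothTransition.nonneg _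
  have hchi1 : chi μ ≤ 1 := Real.smoothTransition.le_one _
  have hs0 : 0 ≤ s := by rw [hs]; exact mul_nonneg h.A0 hchi0
  have hs1 : s ≤ 1 := by
    rw [hs]
    have := h.A1
    have := h.A0
    nlinarith
  have hpos : 0 < 1 + s * b := by
    have := h.b0
    nlinarith
  obtain ⟨c, hc⟩ : ∃ c : ℝ, c = Real.sqrt (1 + s * b) := ⟨_, rfl⟩
  have hc0 : 0 < c := by rw [hc]; exact Real.sqrt_pos.2 hpos
  have hsF : ∀ z g, sF 0 A μ tt z g = s := by
    intro z g
    unfold sF
    rw [zero_mul, add_zero, hs]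
  have hS : SF 0 A b κ μ tt = fun z g => g * z * c - g ^ 2 / 2 * s * κ := by
    funext z g
    unfold SF QF
    rw [hsF, hc]
  have hT : TF 0 A b μ tt τ = fun z g => s * g * (z / (2 * c) + g * τ / 2) := by
    funext z g
    unfold TF QF
    rw [hsF, hc]
  rw [hS, hT]
  have hc' : c ≠ 0 := hc0.ne'
  have hpzS : pz (fun z g => g * z * c - g ^ 2 / 2 * s * κ) = fun _ g => g * c := by
    funext z g
    unfold pz
    rw [dd_zero_aux_quad' _ 0 (g * c) (-(g ^ 2 / 2 * s * κ)) z (fun y => by ring)]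
    ring
  have hom : om (fun z g => g * z * c - g ^ 2 / 2 * s * κ) τ = fun _ _ => 1 / c := by
    funext z g
    unfold om
    rw [hpzS]
    unfold pz pg
    rw [dd_zero_aux_quad' (fun z' => g * c) 0 0 (g * c) z (fun y => by ring),
      dd_zero_aux_quad' (fun g' => g' * c) 0 c 0 g (fun y => by ring)]
    ring
  have hDD : ∀ f : ℝ → ℝ → ℝ, DD (fun z g => g * z * c - g ^ 2 / 2 * s * κ) τ f =
      fun z g => -τ * pz f z g + 1 / c * pg f z g := by
    intro f
    funext z g
    unfold DD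
    rw [hom]
  rw [hDD, hDD]
  have h1 : (fun z g => -τ * pz (fun z g => s * g * (z / (2 * c) + g * τ / 2)) z g
      + 1 / c * pg (fun z g => s * g * (z / (2 * c) + g * τ / 2)) z g) =
      fun z g => s * z / (2 * c ^ 2) + s * g * τ / (2 * c) := by
    funext z g
    unfold pz pg
    rw [dd_zero_aux_quad' (fun z' => s * g * (z' / (2 * c) + g * τ / 2)) 0 (s * g / (2 * c))
        (s * g * (g * τ / 2)) z (fun y => by ring),
      dd_zero_aux_quad' (fun g' => s * g' * (z / (2 * c) + g' * τ / 2)) (s * τ / 2)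
        (s * z / (2 * c)) 0 g (fun y => by ring)]
    field_simp
    ring
  rw [h1]
  show -τ * deriv (fun z' => s * z' / (2 * c ^ 2) + s * g * τ / (2 * c)) z +
    1 / c * deriv (fun g' => s * z / (2 * c ^ 2) + s * g' * τ / (2 * c)) g = 0
  rw [dd_zero_aux_quad' (fun z' => s * z' / (2 * c ^ 2) + s * g * τ / (2 * c)) 0
      (s / (2 * c ^ 2)) (s * g * τ / (2 * c)) z (fun y => by ring),
    dd_zero_aux_quad' (fun g' => s * z / (2 * c ^ 2) + s * g' * τ / (2 * c)) 0
      (s * τ / (2 * c)) (s * z / (2 * c ^ 2)) g (fun y => by ring)]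
  field_simp
  ring

end H867.FB
end
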