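import Pool.Agent.Helper867.FB.Defs2

set_option autoImplicit false
open Topology Set
open scoped ContDiff

noncomputable section

namespace H867.FB
open H930.FF

theorem inv_family_aux_bij (φ : ℝ → ℝ) (m : ℝ) (hm : 0 < m) (hφ : Differentiable ℝ φ)
    (hd : ∀ z, m ≤ deriv φ z) : StrictMono φ ∧ Function.Surjective φ := by
  have hmono : StrictMono φ := strictMono_of_deriv_pos (fun z => hm.trans_le (hd z))
  have hψ : Monotone (fun z => φ z - m * z) := by
    apply monotone_of_deriv_nonneg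
    · exact hφ.sub ((differentiable_id).const_mul m)
    · intro z
      have h1 : HasDerivAt (fun z => φ z - m * z) (deriv φ z - m * 1) z :=
        (hφ z).hasDerivAt.sub ((hasDerivAt_id z).const_mul m)
      rw [h1.deriv]
      have := hd z
      linarith
  refine ⟨hmono, hφ.continuous.surjective ?_ ?_⟩
  · have h2 : Filter.Tendsto (fun z : ℝ => φ 0 + m * z) Filter.atTop Filter.atTop :=
      Filter.tendsto_atTop_add_const_left _ _ (Filter.tendsto_id.const_mul_atTop hm)
    apply Filter.tendsto_atTop_mono' _ _ h2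
    filter_upwards [Filter.eventually_ge_atTop 0] with z hz
    have := hψ hz
    simp only at this
    linarith
  · have h2 : Filter.Tendsto (fun z : ℝ => φ 0 + m * z) Filter.atBot Filter.atBot :=
      Filter.tendsto_atBot_add_const_left _ _ (Filter.tendsto_id.const_mul_atBot hm)
    apply Filter.tendsto_atBot_mono' _ _ h2
    filter_upwards [Filter.eventually_le_atBot 0] with z hz
    have := hψ hz
    simp only at this
    linarith

/-- the derivative of `(z,e) ↦ (f (z,e), e)` as an equivalence -/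
theorem inv_family_aux_equiv {E : Type*} [NormedAddCommGroup E] [NormedSpace ℝ E]
    (f' : ℝ × E →L[ℝ] ℝ) (a : ℝ) (ha : f' (1, 0) = a) (ha0 : a ≠ 0) :
    ∃ L : (ℝ × E) ≃L[ℝ] (ℝ × E), (L : (ℝ × E) →L[ℝ] (ℝ × E)) =
      f'.prod (ContinuousLinearMap.snd ℝ ℝ E) := by
  have hf' : ∀ v w, f' (v, w) = v * a + f' (0, w) := by
    intro v w
    have h1 : ((v, w) : ℝ × E) = v • ((1, 0) : ℝ × E) + (0, w) := by simp
    rw [h1, map_add, map_smul, ha, smul_eq_mul]
  refine ⟨ContinuousLinearEquiv.equivOfInverse (f'.prod (ContinuousLinearMap.snd ℝ ℝ E))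
    ((a⁻¹ • (ContinuousLinearMap.fst ℝ ℝ E -
      f'.comp ((ContinuousLinearMap.inr ℝ ℝ E).comp (ContinuousLinearMap.snd ℝ ℝ E)))).prod
      (ContinuousLinearMap.snd ℝ ℝ E)) ?_ ?_, ?_⟩
  · rintro ⟨v, w⟩
    apply Prod.ext
    · show a⁻¹ * (f' (v, w) - f' (0, w)) = v
      rw [hf']
      field_simp
      ring
    · rfl
  · rintro ⟨v, w⟩
    apply Prod.ext
    · show f' (a⁻¹ * (v - f' (0, w)), w) = v
      rw [hf']
      field_simp
      ring
    · rfl
  · rfl

theorem inv_family {E : Type*} [NormedAddCommGroup E] [NormedSpace ℝ E] [CompleteSpace E]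
    (f : ℝ × E → ℝ) (U : Set E) (hU : IsOpen U) (m : ℝ) (hm : 0 < m)
    (hf : ∀ e ∈ U, ∀ z, ContDiffAt ℝ ∞ f (z, e))
    (hd : ∀ e ∈ U, ∀ z, m ≤ deriv (fun z' => f (z', e)) z) :
    ∃ g : ℝ × E → ℝ, (∀ e ∈ U, ∀ y, f (g (y, e), e) = y) ∧ (∀ e ∈ U, ∀ z, g (f (z, e), e) = z) ∧
      (∀ e ∈ U, ∀ y, ContDiffAt ℝ ∞ g (y, e)) := by
  have hbij : ∀ e ∈ U, StrictMono (fun z => f (z, e)) ∧ Function.Surjective (fun z => f (z, e)) := by
    intro e he
    apply inv_family_aux_bij _ m hm _ (hd e he)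
    intro z
    have h1 : DifferentiableAt ℝ f (z, e) := (hf e he z).differentiableAt (by simp)
    exact h1.comp z (differentiableAt_id.prodMk (differentiableAt_const e))
  have hex : ∀ p : ℝ × E, ∃ z : ℝ, p.2 ∈ U → f (z, p.2) = p.1 := by
    intro p
    by_cases hp : p.2 ∈ U
    · obtain ⟨z, hz⟩ := (hbij p.2 hp).2 p.1
      exact ⟨z, fun _ => hz⟩
    · exact ⟨0, fun h => (hp h).elim⟩
  choose g hg using hex
  refine ⟨g, fun e he y => hg (y, e) he, fun e he z => ?_, fun e he y => ?_⟩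
  · exact (hbij e he).1.injective (hg (f (z, e), e) he)
  · set z := g (y, e) with hz
    have hfz : f (z, e) = y := hg (y, e) he
    have hfd : HasFDerivAt f (fderiv ℝ f (z, e)) (z, e) :=
      ((hf e he z).differentiableAt (by simp)).hasFDerivAt
    have ha : fderiv ℝ f (z, e) (1, 0) = deriv (fun z' => f (z', e)) z := by
      have h1 : HasDerivAt (fun z' : ℝ => ((z', e) : ℝ × E)) (1, 0) z :=
        (hasDerivAt_id z).prodMk (hasDerivAt_const z e)
      exact (hfd.comp_hasDerivAt z h1).deriv.symm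
    obtain ⟨L, hL⟩ := inv_family_aux_equiv (fderiv ℝ f (z, e)) _ ha (hm.trans_le (hd e he z)).ne'
    have hΦ : ContDiffAt ℝ ∞ (fun p : ℝ × E => (f p, p.2)) (z, e) :=
      (hf e he z).prodMk contDiffAt_snd
    have hΦ' : HasFDerivAt (fun p : ℝ × E => (f p, p.2)) (L : (ℝ × E) →L[ℝ] (ℝ × E)) (z, e) := by
      rw [hL]
      exact hfd.prodMk hasFDerivAt_snd
    have hn : (∞ : WithTop ℕ∞) ≠ 0 := by simp
    have hsm := hΦ.to_localInverse hΦ' hn
    have hpt : (f (z, e), ((z, e) : ℝ × E).2) = (y, e) := by rw [hfz]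
    have hri := (hΦ.hasStrictFDerivAt' hΦ' hn).eventually_right_inverse
    rw [hpt] at hri hsm
    have hUn : ∀ᶠ q : ℝ × E in 𝓝 (y, e), q.2 ∈ U :=
      (hU.preimage continuous_snd).mem_nhds he
    have heq : g =ᶠ[𝓝 (y, e)] (fun q => (hΦ.localInverse hΦ' hn q).1) := by
      filter_upwards [hri, hUn] with q hq hqU
      have hq' : (f (hΦ.localInverse hΦ' hn q), (hΦ.localInverse hΦ' hn q).2) = q := hq
      obtain ⟨hq1, hq2⟩ := Prod.ext_iff.1 hq'
      simp only at hq1 hq2
      apply (hbij q.2 hqU).1.injective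
      show f (g q, q.2) = f ((hΦ.localInverse hΦ' hn q).1, q.2)
      rw [hg q hqU, ← hq2, Prod.mk.eta, hq1]
    exact (contDiffAt_fst.comp _ hsm).congr_of_eventuallyEq heq

end H867.FB
end
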