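import Pool.Agent.Helper867.FB.Defs2
import Pool.Agent.Helper867.FB.L_sm_Pz
import Pool.Agent.Helper867.FB.L_mixed_bd
import Pool.Agent.Helper867.FB.L_inv_family

set_option autoImplicit false
open Topology Set
open scoped ContDiff

noncomputable section

namespace H867.FB
open H930.FF

theorem ex_gam_aux_open : IsOpen {e : ℝ × ℝ × ℝ × ℝ | InB e.2.2.1 e.2.2.2} := by
  have h1 : IsOpen {e : ℝ × ℝ × ℝ × ℝ | 1 / 8000000 - 1 < e.2.2.1} :=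
    isOpen_lt continuous_const (by fun_prop)
  have h2 : IsOpen {e : ℝ × ℝ × ℝ × ℝ | e.2.2.1 < 3} :=
    isOpen_lt (by fun_prop) continuous_const
  have h3 : IsOpen {e : ℝ × ℝ × ℝ × ℝ | |e.2.2.2| < 4} :=
    isOpen_lt (by fun_prop) continuous_const
  have h4 := h1.inter (h2.inter h3)
  convert! h4 using 1

theorem ex_gam (d K : ℝ) (h : Good d K) : ∃ Γ : ℝ × ℝ × ℝ × ℝ × ℝ → ℝ, GamOK d Γ := by
  obtain ⟨g, hr, hl, hs⟩ := inv_family
    (fun v : ℝ × (ℝ × ℝ × ℝ × ℝ) => Pz d v.2.1 v.1 v.2.2.1 v.2.2.2.1 v.2.2.2.2)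
    {e : ℝ × ℝ × ℝ × ℝ | InB e.2.2.1 e.2.2.2} ex_gam_aux_open (1 / 4000) (by norm_num)
    (by
      rintro ⟨z, a, b, κ⟩ he g
      have hb : InB b κ := he
      have h1 := sm_Pz d (z, g, a, b, κ) (by
        change -1 < b
        have := hb.1
        linarith)
      have h2 : ContDiffAt ℝ ∞ (fun v : ℝ × (ℝ × ℝ × ℝ × ℝ) =>
          ((v.2.1, v.1, v.2.2.1, v.2.2.2.1, v.2.2.2.2) : ℝ × ℝ × ℝ × ℝ × ℝ)) (g, z, a, b, κ) := by
        fun_prop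
      exact ContDiffAt.comp (g, z, a, b, κ) h1 h2)
    (by
      rintro ⟨z, a, b, κ⟩ he g
      have hb : InB b κ := he
      exact (mixed_bd d K a b κ z g h hb.1.le hb.2.1.le hb.2.2.le).1)
  refine ⟨fun v => g (v.2.1, v.1, v.2.2.1, v.2.2.2.1, v.2.2.2.2), ?_, ?_, ?_⟩
  · intro z p a b κ hb
    exact hr (z, a, b, κ) hb p
  · intro z g' a b κ hb
    exact hl (z, a, b, κ) hb g'
  · intro z p a b κ hb
    have h1 := hs (z, a, b, κ) hb p
    have h2 : ContDiffAt ℝ ∞ (fun v : ℝ × ℝ × ℝ × ℝ × ℝ =>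
        ((v.2.1, v.1, v.2.2.1, v.2.2.2.1, v.2.2.2.2) : ℝ × (ℝ × ℝ × ℝ × ℝ))) (z, p, a, b, κ) := by
      fun_prop
    exact ContDiffAt.comp (z, p, a, b, κ) h1 h2

end H867.FB
end
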