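import Pool.Agent.Helper867.FB.Defs2

set_option autoImplicit false
open Topology Set
open scoped ContDiff

noncomputable section

namespace H867.FB
open H930.FF

theorem inK_OF (δ A b κ μ tt τ z g : ℝ) (h : InK A b κ μ tt τ z g) :
    pt δ A b κ μ tt τ z g ∈ OF := by
  have hs0 : 0 ≤ sF δ A μ tt z g := by
    unfold sF chi
    exact mul_nonneg h.A0 (Real.smoothTransition.nonneg _)
  have hs1 : sF δ A μ tt z g ≤ 1 := by
    unfold sF chi
    exact mul_le_one₀ h.A1 (Real.smoothTransition.nonneg _) (Real.smoothTransition.le_one _)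
  constructor
  · show 0 < tt + (1 - tt) * (z ^ 2 + g ^ 2)
    have := h.lo
    linarith
  · show 0 < 1 + sF δ A μ tt z g * b
    have hb := h.b0
    rcases le_or_gt 0 b with h0 | h0
    · have := mul_nonneg hs0 h0
      linarith
    · have h1 : b ≤ sF δ A μ tt z g * b := by
        have := mul_nonneg (sub_nonneg.mpr hs1) (neg_nonneg.mpr h0.le)
        nlinarith
      linarith

end H867.FB
end
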