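import Pool.Agent.Helper867.FB.Defs2

set_option autoImplicit false
open Topology Set
open scoped ContDiff

noncomputable section

namespace H867.FB
open H930.FF

theorem open_OF : IsOpen OF := by
  rw [isOpen_iff_mem_nhds]
  intro v hv
  obtain ⟨h1, h2⟩ := hv
  have hL : Continuous (fun v : ℝ × ℝ × Y7 =>
      v.2.2.2.2.2.2.2.1 + (1 - v.2.2.2.2.2.2.2.1) * (v.1 ^ 2 + v.2.1 ^ 2)) := by
    fun_prop
  have hlog : ContinuousAt (fun v : ℝ × ℝ × Y7 =>
      Real.log (v.2.2.2.2.2.2.2.1 + (1 - v.2.2.2.2.2.2.2.1) * (v.1 ^ 2 + v.2.1 ^ 2))) v :=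
    (Real.continuousAt_log h1.ne').comp_of_eq hL.continuousAt rfl
  have hchi : Continuous chi := by
    unfold chi
    exact Real.smoothTransition.continuous.comp (by fun_prop)
  have harg : ContinuousAt (fun v : ℝ × ℝ × Y7 => v.2.2.2.2.2.2.1 + v.2.2.1 *
      Real.log (v.2.2.2.2.2.2.2.1 + (1 - v.2.2.2.2.2.2.2.1) * (v.1 ^ 2 + v.2.1 ^ 2))) v := by
    apply ContinuousAt.add
    · fun_prop
    · apply ContinuousAt.mul _ hlog
      fun_prop
  have hs : ContinuousAt sFu v := by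
    have : sFu = fun v : ℝ × ℝ × Y7 => v.2.2.2.1 * chi (v.2.2.2.2.2.2.1 + v.2.2.1 *
      Real.log (v.2.2.2.2.2.2.2.1 + (1 - v.2.2.2.2.2.2.2.1) * (v.1 ^ 2 + v.2.1 ^ 2))) := by
      funext v
      rfl
    rw [this]
    apply ContinuousAt.mul
    · fun_prop
    · exact hchi.continuousAt.comp_of_eq harg rfl
  have hg : ContinuousAt (fun v : ℝ × ℝ × Y7 => 1 + sFu v * v.2.2.2.2.1) v := by
    apply ContinuousAt.add
    · fun_prop
    · apply ContinuousAt.mul hs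
      fun_prop
  have e1 : ∀ᶠ w in 𝓝 v, 0 < w.2.2.2.2.2.2.2.1 + (1 - w.2.2.2.2.2.2.2.1) * (w.1 ^ 2 + w.2.1 ^ 2) :=
    hL.continuousAt.eventually_const_lt h1
  have e2 : ∀ᶠ w in 𝓝 v, 0 < 1 + sFu w * w.2.2.2.2.1 := hg.eventually_const_lt h2
  filter_upwards [e1, e2] with w hw1 hw2
  exact ⟨hw1, hw2⟩

end H867.FB
end
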