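import Pool.Agent.Helper867.FB.Defs2

set_option autoImplicit false
open Topology Set
open scoped ContDiff

noncomputable section

namespace H867.FB
open H930.FF

theorem sm_sF (v : ℝ × ℝ × Y7) (hv : v ∈ OF) : ContDiffAt ℝ ∞ sFu v := by
  have hpos := hv.1
  unfold sFu sF chi
  have h0 : ContDiffAt ℝ ∞ (fun v : ℝ × ℝ × Y7 =>
      v.2.2.2.2.2.2.2.1 + (1 - v.2.2.2.2.2.2.2.1) * (v.1 ^ 2 + v.2.1 ^ 2)) v := by
    fun_prop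
  have h1 : ContDiffAt ℝ ∞ (fun v : ℝ × ℝ × Y7 =>
      Real.log (v.2.2.2.2.2.2.2.1 + (1 - v.2.2.2.2.2.2.2.1) * (v.1 ^ 2 + v.2.1 ^ 2))) v :=
    h0.log hpos.ne'
  have h2 : ContDiffAt ℝ ∞ (fun v : ℝ × ℝ × Y7 =>
      2 - (v.2.2.2.2.2.2.1 + v.2.2.1 *
        Real.log (v.2.2.2.2.2.2.2.1 + (1 - v.2.2.2.2.2.2.2.1) * (v.1 ^ 2 + v.2.1 ^ 2)))) v := by
    have e1 : ContDiffAt ℝ ∞ (fun v : ℝ × ℝ × Y7 => v.2.2.2.2.2.2.1) v := by fun_prop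
    have e2 : ContDiffAt ℝ ∞ (fun v : ℝ × ℝ × Y7 => v.2.2.1) v := by fun_prop
    exact contDiffAt_const.sub (e1.add (e2.mul h1))
  have h3 : ContDiffAt ℝ ∞ (fun v : ℝ × ℝ × Y7 =>
      Real.smoothTransition (2 - (v.2.2.2.2.2.2.1 + v.2.2.1 *
        Real.log (v.2.2.2.2.2.2.2.1 + (1 - v.2.2.2.2.2.2.2.1) * (v.1 ^ 2 + v.2.1 ^ 2))))) v := by
    exact ContDiffAt.comp v (Real.smoothTransition.contDiff.contDiffAt) h2
  have e3 : ContDiffAt ℝ ∞ (fun v : ℝ × ℝ × Y7 => v.2.2.2.1) v := by fun_prop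
  exact e3.mul h3

end H867.FB
end
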