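import Pool.Agent.Helper867.FB.Defs2
import Pool.Agent.Helper867.FB.L_sm_sF

set_option autoImplicit false
open Topology Set
open scoped ContDiff

noncomputable section

namespace H867.FB
open H930.FF

theorem sm_QF (v : ℝ × ℝ × Y7) (hv : v ∈ OF) : ContDiffAt ℝ ∞ QFu v := by
  have h1 : ContDiffAt ℝ ∞ (fun w : ℝ × ℝ × Y7 => 1 + sFu w * w.2.2.2.2.1) v := by
    apply ContDiffAt.add contDiffAt_const
    apply ContDiffAt.mul (sm_sF v hv)
    have : ContDiff ℝ ∞ (fun w : ℝ × ℝ × Y7 => w.2.2.2.2.1) := by fun_prop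
    exact this.contDiffAt
  exact h1.sqrt (ne_of_gt hv.2)

end H867.FB
end
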