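import Pool.Agent.Helper867.FB.Defs2
import Pool.Agent.Helper867.FB.L_sm_sF
import Pool.Agent.Helper867.FB.L_sm_QF

set_option autoImplicit false
open Topology Set
open scoped ContDiff

noncomputable section

namespace H867.FB
open H930.FF

theorem sm_SF_aux1 : SFu = fun v : ℝ × ℝ × Y7 =>
    v.2.1 * v.1 * QFu v - v.2.1 ^ 2 / 2 * sFu v * v.2.2.2.2.2.1 := rfl

theorem sm_SF_aux2 (v : ℝ × ℝ × Y7) :
    ContDiffAt ℝ ∞ (fun v : ℝ × ℝ × Y7 => v.2.2.2.2.2.1) v := by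
  have h : ContDiff ℝ ∞ (fun v : ℝ × ℝ × Y7 => v.2.2.2.2.2.1) := by fun_prop
  exact h.contDiffAt

theorem sm_SF (v : ℝ × ℝ × Y7) (hv : v ∈ OF) : ContDiffAt ℝ ∞ SFu v := by
  rw [sm_SF_aux1]
  have h1 : ContDiffAt ℝ ∞ (fun v : ℝ × ℝ × Y7 => v.1) v := by
    have h : ContDiff ℝ ∞ (fun v : ℝ × ℝ × Y7 => v.1) := by fun_prop
    exact h.contDiffAt
  have h2 : ContDiffAt ℝ ∞ (fun v : ℝ × ℝ × Y7 => v.2.1) v := by
    have h : ContDiff ℝ ∞ (fun v : ℝ × ℝ × Y7 => v.2.1) := by fun_prop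
    exact h.contDiffAt
  exact ((h2.mul h1).mul (sm_QF v hv)).sub
    ((((h2.pow 2).div_const 2).mul (sm_sF v hv)).mul (sm_SF_aux2 v))

end H867.FB
end
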