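import Pool.Agent.Helper867.FB.Defs2

set_option autoImplicit false
open Topology Set
open scoped ContDiff

noncomputable section

namespace H867.FB
open H930.FF

theorem soft {Y : Type*} [NormedAddCommGroup Y] [NormedSpace ℝ Y] (E : ℝ × Y → ℝ) (K : Set Y)
    (hK : IsCompact K) (D : ℝ) (hD : 0 ≤ D)
    (hE : ∀ δ ∈ Icc (0 : ℝ) D, ∀ y ∈ K, ContDiffAt ℝ 1 E (δ, y))
    (h0 : ∀ y ∈ K, E (0, y) = 0) :
    ∃ C : ℝ, 0 < C ∧ ∀ δ ∈ Icc (0 : ℝ) D, ∀ y ∈ K, |E (δ, y)| ≤ C * δ := by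
  have hKc : IsCompact (Icc (0 : ℝ) D ×ˢ K) := isCompact_Icc.prod hK
  have hcont : ContinuousOn (fderiv ℝ E) (Icc (0 : ℝ) D ×ˢ K) := by
    rintro ⟨δ, y⟩ ⟨hδ, hy⟩
    have h := (hE δ hδ y hy).fderiv_right (m := 0) (by norm_num)
    exact h.continuousAt.continuousWithinAt
  obtain ⟨C0, hC0⟩ := hKc.exists_bound_of_continuousOn hcont
  refine ⟨max C0 1, lt_of_lt_of_le one_pos (le_max_right _ _), ?_⟩
  intro δ hδ y hy
  have hder : ∀ s ∈ Icc (0 : ℝ) δ,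
      HasDerivWithinAt (fun s : ℝ => E (s, y)) (fderiv ℝ E (s, y) ((1 : ℝ), (0 : Y)))
        (Icc (0 : ℝ) δ) s := by
    intro s hs
    have hs' : s ∈ Icc (0 : ℝ) D := ⟨hs.1, hs.2.trans hδ.2⟩
    have h1 : HasFDerivAt E (fderiv ℝ E (s, y)) (s, y) :=
      ((hE s hs' y hy).differentiableAt (by norm_num)).hasFDerivAt
    have h2 : HasDerivAt (fun s : ℝ => ((s, y) : ℝ × Y)) ((1 : ℝ), (0 : Y)) s :=
      (hasDerivAt_id s).prodMk (hasDerivAt_const s y)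
    exact (h1.comp_hasDerivAt s h2).hasDerivWithinAt
  have hb : ∀ s ∈ Ico (0 : ℝ) δ,
      ‖fderiv ℝ E (s, y) ((1 : ℝ), (0 : Y))‖ ≤ max C0 1 := by
    intro s hs
    have hs' : s ∈ Icc (0 : ℝ) D := ⟨hs.1, hs.2.le.trans hδ.2⟩
    have h1 := hC0 (s, y) ⟨hs', hy⟩
    have h2 : ‖((1 : ℝ), (0 : Y))‖ = 1 := by
      rw [Prod.norm_def]
      simp
    calc ‖fderiv ℝ E (s, y) ((1 : ℝ), (0 : Y))‖
        ≤ ‖fderiv ℝ E (s, y)‖ * ‖((1 : ℝ), (0 : Y))‖ :=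
          ContinuousLinearMap.le_opNorm (fderiv ℝ E (s, y)) ((1 : ℝ), (0 : Y))
      _ = ‖fderiv ℝ E (s, y)‖ := by rw [h2, mul_one]
      _ ≤ C0 := h1
      _ ≤ max C0 1 := le_max_left _ _
  have hfin := norm_image_sub_le_of_norm_deriv_le_segment' hder hb δ ⟨hδ.1, le_refl δ⟩
  simpa [h0 y hy, Real.norm_eq_abs] using hfin

end H867.FB
end
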