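import Pool.Agent.Helper867.FB.Defs2
import Pool.Agent.Helper867.FB.L_soft

set_option autoImplicit false
open Topology Set
open scoped ContDiff

noncomputable section

namespace H867.FB
open H930.FF

abbrev soft7_auxY := ℝ × ℝ × ℝ × ℝ × ℝ × ℝ × ℝ × ℝ

def soft7_auxK : Set soft7_auxY :=
  {y | InK y.1 y.2.1 y.2.2.1 y.2.2.2.1 y.2.2.2.2.1 y.2.2.2.2.2.1 y.2.2.2.2.2.2.1 y.2.2.2.2.2.2.2}

theorem soft7_aux_eq : soft7_auxK =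
    {y | (0 : ℝ) ≤ y.1} ∩ ({y | y.1 ≤ 1} ∩ ({y | 1 / 8000000 - 1 ≤ y.2.1} ∩ ({y | y.2.1 ≤ 3} ∩
    ({y | |y.2.2.1| ≤ 4} ∩ ({y | 0 ≤ y.2.2.2.1} ∩ ({y | y.2.2.2.1 ≤ 4} ∩
    ({y | 0 ≤ y.2.2.2.2.1} ∩ ({y | y.2.2.2.2.1 ≤ 1 / 2} ∩ ({y | |y.2.2.2.2.2.1| ≤ 3} ∩
    ({y | y.2.2.2.2.2.2.1 ^ 2 + y.2.2.2.2.2.2.2 ^ 2 ≤ 1} ∩
    {y | 1 / 2 ≤ y.2.2.2.2.1 + (1 - y.2.2.2.2.1) *
      (y.2.2.2.2.2.2.1 ^ 2 + y.2.2.2.2.2.2.2 ^ 2)})))))))))) := by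
  ext y
  constructor
  · rintro ⟨h1, h2, h3, h4, h5, h6, h7, h8, h9, h10, h11, h12⟩
    exact ⟨h1, h2, h3, h4, h5, h6, h7, h8, h9, h10, h11, h12⟩
  · rintro ⟨h1, h2, h3, h4, h5, h6, h7, h8, h9, h10, h11, h12⟩
    exact ⟨h1, h2, h3, h4, h5, h6, h7, h8, h9, h10, h11, h12⟩

theorem soft7_aux_closed : IsClosed soft7_auxK := by
  rw [soft7_aux_eq]
  refine IsClosed.inter ?_ (IsClosed.inter ?_ (IsClosed.inter ?_ (IsClosed.inter ?_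
    (IsClosed.inter ?_ (IsClosed.inter ?_ (IsClosed.inter ?_ (IsClosed.inter ?_
    (IsClosed.inter ?_ (IsClosed.inter ?_ (IsClosed.inter ?_ ?_)))))))))) <;>
    exact isClosed_le (by fun_prop) (by fun_prop)

theorem soft7_aux_compact : IsCompact soft7_auxK := by
  refine IsCompact.of_isClosed_subset (isCompact_Icc (a := ((0, -1, -4, 0, 0, -3, -1, -1) : soft7_auxY))
    (b := (1, 3, 4, 4, 1 / 2, 3, 1, 1))) soft7_aux_closed ?_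
  rintro ⟨A, b, κ, μ, tt, τ, z, g⟩ ⟨h1, h2, h3, h4, h5, h6, h7, h8, h9, h10, h11, h12⟩
  dsimp only at *
  rw [abs_le] at h5 h10
  have hz := abs_le.1 (abs_le_one_iff_mul_self_le_one.2 (by nlinarith [sq_nonneg g] : z * z ≤ 1))
  have hg := abs_le.1 (abs_le_one_iff_mul_self_le_one.2 (by nlinarith [sq_nonneg z] : g * g ≤ 1))
  simp only [Set.mem_Icc, Prod.mk_le_mk]
  refine ⟨⟨h1, ?_, h5.1, h6, h8, h10.1, hz.1, hg.1⟩, ⟨h2, h4, h5.2, h7, h9, h10.2, hz.2, hg.2⟩⟩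
  linarith

theorem soft7 (E : ℝ × ℝ × Y7 → ℝ) (D : ℝ) (hD : 0 ≤ D)
    (hE : ∀ δ A b κ μ tt τ z g, δ ∈ Icc (0 : ℝ) D → InK A b κ μ tt τ z g →
      ContDiffAt ℝ 1 E (pt δ A b κ μ tt τ z g))
    (h0 : ∀ A b κ μ tt τ z g, InK A b κ μ tt τ z g → E (pt 0 A b κ μ tt τ z g) = 0) :
    ∃ C : ℝ, 0 < C ∧ ∀ δ A b κ μ tt τ z g, δ ∈ Icc (0 : ℝ) D → InK A b κ μ tt τ z g →
      |E (pt δ A b κ μ tt τ z g)| ≤ C * δ := by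
  obtain ⟨C, hC, h⟩ := soft (fun w : ℝ × soft7_auxY => E (pt w.1 w.2.1 w.2.2.1 w.2.2.2.1 w.2.2.2.2.1
    w.2.2.2.2.2.1 w.2.2.2.2.2.2.1 w.2.2.2.2.2.2.2.1 w.2.2.2.2.2.2.2.2)) soft7_auxK
    soft7_aux_compact D hD (by
      intro δ hδ y hy
      have h1 := hE δ _ _ _ _ _ _ _ _ hδ hy
      refine ContDiffAt.comp (δ, y) h1 ?_
      unfold pt
      fun_prop) (by
      intro y hy
      exact h0 _ _ _ _ _ _ _ _ hy)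
  refine ⟨C, hC, fun δ A b κ μ tt τ z g hδ hK => ?_⟩
  exact h δ hδ (A, b, κ, μ, tt, τ, z, g) hK

end H867.FB
end
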