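import Pool.Agent.Helper867.FB.Defs2
import Pool.Agent.Helper867.FB.L_soft7
import Pool.Agent.Helper867.FB.L_cd_z
import Pool.Agent.Helper867.FB.L_cd_g
import Pool.Agent.Helper867.FB.L_open_OF
import Pool.Agent.Helper867.FB.L_inK_OF
import Pool.Agent.Helper867.FB.L_sm_SF
import Pool.Agent.Helper867.FB.L_sm_QF

set_option autoImplicit false
open Topology Set
open scoped ContDiff

noncomputable section

namespace H867.FB
open H930.FF

theorem fb_zg_aux0 (A b κ μ tt z g : ℝ) :
    pg (pz (SF 0 A b κ μ tt)) z g = QF 0 A b μ tt z g := by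
  have hS : ∀ z g : ℝ, SF 0 A b κ μ tt z g =
      g * z * Real.sqrt (1 + A * chi μ * b) - g ^ 2 / 2 * (A * chi μ) * κ := by
    intro z g
    simp only [SF, QF, sF, zero_mul, add_zero]
  have h1 : ∀ z g : ℝ, pz (SF 0 A b κ μ tt) z g = g * Real.sqrt (1 + A * chi μ * b) := by
    intro z g
    unfold pz
    simp only [hS]
    have := ((((hasDerivAt_id z).const_mul g).mul_const (Real.sqrt (1 + A * chi μ * b))).sub_const
      (g ^ 2 / 2 * (A * chi μ) * κ)).deriv
    simpa using this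
  unfold pg
  simp only [h1]
  have h2 := ((hasDerivAt_id g).mul_const (Real.sqrt (1 + A * chi μ * b))).deriv
  simp only [QF, sF, zero_mul, add_zero]
  simpa using h2

theorem fb_zg : ∃ K : ℝ, 0 < K ∧ ∀ δ A b κ μ tt τ z g, δ ∈ Icc (0 : ℝ) 1 →
    InK A b κ μ tt τ z g →
    |pg (pz (SF δ A b κ μ tt)) z g - QF δ A b μ tt z g| ≤ K * δ := by
  have hz := cd_z SFu OF open_OF sm_SF
  have hg := cd_g (fun v : ℝ × ℝ × Y7 => deriv (fun z => SFu (z, v.2.1, v.2.2)) v.1) OF open_OF hz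
  obtain ⟨C, hC, h⟩ := soft7
    (fun v : ℝ × ℝ × Y7 => deriv (fun g => deriv (fun z => SFu (z, g, v.2.2)) v.1) v.2.1 - QFu v)
    1 zero_le_one
    (by
      intro δ A b κ μ tt τ z g _ hK
      have hO := inK_OF δ A b κ μ tt τ z g hK
      exact ((hg _ hO).sub (sm_QF _ hO)).of_le (by exact_mod_cast le_top))
    (by
      intro A b κ μ tt τ z g _
      have := fb_zg_aux0 A b κ μ tt z g
      show pg (pz (SF 0 A b κ μ tt)) z g - QF 0 A b μ tt z g = 0
      rw [this, sub_self])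
  exact ⟨C, hC, fun δ A b κ μ tt τ z g hδ hK => h δ A b κ μ tt τ z g hδ hK⟩

end H867.FB
end
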