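import Pool.Agent.Helper867.FB.Defs2
import Pool.Agent.Helper867.FB.L_sm_sF
import Pool.Agent.Helper867.FB.L_sm_QF

set_option autoImplicit false
open Topology Set
open scoped ContDiff

noncomputable section

namespace H867.FB
open H930.FF

theorem sm_TF (v : ℝ × ℝ × Y7) (hv : v ∈ OF) : ContDiffAt ℝ ∞ TFu v := by
  have hs := sm_sF v hv
  have hQ := sm_QF v hv
  have hQ0 : 0 < QFu v := Real.sqrt_pos.2 hv.2
  have heq : TFu = fun v : ℝ × ℝ × Y7 =>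
      sFu v * v.2.1 * (v.1 / (2 * QFu v) + v.2.1 * v.2.2.2.2.2.2.2.2 / 2) := rfl
  rw [heq]
  have h1 : ContDiffAt ℝ ∞ (fun v : ℝ × ℝ × Y7 => v.1) v := by fun_prop
  have h2 : ContDiffAt ℝ ∞ (fun v : ℝ × ℝ × Y7 => v.2.1) v := by fun_prop
  have h3 : ContDiffAt ℝ ∞ (fun v : ℝ × ℝ × Y7 => v.2.1 * v.2.2.2.2.2.2.2.2 / 2) v := by fun_prop
  exact (hs.mul h2).mul ((h1.div (contDiffAt_const.mul hQ) (by positivity)).add h3)

end H867.FB
end
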