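import Pool.Agent.Helper867.FB.Defs2
import Pool.Agent.Helper867.FB.L_soft7
import Pool.Agent.Helper867.FB.L_cd_z
import Pool.Agent.Helper867.FB.L_cd_g
import Pool.Agent.Helper867.FB.L_open_OF
import Pool.Agent.Helper867.FB.L_inK_OF
import Pool.Agent.Helper867.FB.L_sm_SF
import Pool.Agent.Helper867.FB.L_sm_TF
import Pool.Agent.Helper867.FB.L_fb_zg
import Pool.Agent.Helper867.FB.L_dd_zero

set_option autoImplicit false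
open Topology Set
open scoped ContDiff

noncomputable section

namespace H867.FB
open H930.FF

def fb_dd_auxz (f : ℝ × ℝ × Y7 → ℝ) (v : ℝ × ℝ × Y7) : ℝ :=
  deriv (fun z => f (z, v.2.1, v.2.2)) v.1

def fb_dd_auxg (f : ℝ × ℝ × Y7 → ℝ) (v : ℝ × ℝ × Y7) : ℝ :=
  deriv (fun g => f (v.1, g, v.2.2)) v.2.1

def fb_dd_auxom (v : ℝ × ℝ × Y7) : ℝ :=
  (1 + v.2.2.2.2.2.2.2.2 * fb_dd_auxz (fb_dd_auxz SFu) v) / fb_dd_auxg (fb_dd_auxz SFu) v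

def fb_dd_auxE (f : ℝ × ℝ × Y7 → ℝ) (v : ℝ × ℝ × Y7) : ℝ :=
  -v.2.2.2.2.2.2.2.2 * fb_dd_auxz f v + fb_dd_auxom v * fb_dd_auxg f v

def fb_dd_auxO : Set (ℝ × ℝ × Y7) := OF ∩ fb_dd_auxg (fb_dd_auxz SFu) ⁻¹' (Ioi 0)

theorem fb_dd_auxcd (v : ℝ × ℝ × Y7) (hv : v ∈ OF) :
    ContDiffAt ℝ ∞ (fb_dd_auxg (fb_dd_auxz SFu)) v :=
  cd_g (fb_dd_auxz SFu) OF open_OF (cd_z SFu OF open_OF sm_SF) v hv

theorem fb_dd_auxcd2 (v : ℝ × ℝ × Y7) (hv : v ∈ OF) :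
    ContDiffAt ℝ ∞ (fb_dd_auxz (fb_dd_auxz SFu)) v :=
  cd_z (fb_dd_auxz SFu) OF open_OF (cd_z SFu OF open_OF sm_SF) v hv

theorem fb_dd_auxopen : IsOpen fb_dd_auxO := by
  have hc : ContinuousOn (fb_dd_auxg (fb_dd_auxz SFu)) OF :=
    fun v hv => (fb_dd_auxcd v hv).continuousAt.continuousWithinAt
  exact hc.isOpen_inter_preimage open_OF isOpen_Ioi

theorem fb_dd_auxsm (f : ℝ × ℝ × Y7 → ℝ) (hf : ∀ v ∈ fb_dd_auxO, ContDiffAt ℝ ∞ f v) :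
    ∀ v ∈ fb_dd_auxO, ContDiffAt ℝ ∞ (fb_dd_auxE f) v := by
  intro v hv
  have hτ : ContDiffAt ℝ ∞ (fun v : ℝ × ℝ × Y7 => v.2.2.2.2.2.2.2.2) v := by fun_prop
  have h1 : ContDiffAt ℝ ∞ (fb_dd_auxz f) v := cd_z f fb_dd_auxO fb_dd_auxopen hf v hv
  have h2 : ContDiffAt ℝ ∞ (fb_dd_auxg f) v := cd_g f fb_dd_auxO fb_dd_auxopen hf v hv
  have hpos : 0 < fb_dd_auxg (fb_dd_auxz SFu) v := hv.2
  have h3 : ContDiffAt ℝ ∞ fb_dd_auxom v :=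
    (contDiffAt_const.add (hτ.mul (fb_dd_auxcd2 v hv.1))).div (fb_dd_auxcd v hv.1) hpos.ne'
  exact (hτ.neg.mul h1).add (h3.mul h2)

theorem fb_dd_auxchi0 (u : ℝ) : 0 ≤ chi u := Real.smoothTransition.nonneg _

theorem fb_dd_auxchi1 (u : ℝ) : chi u ≤ 1 := Real.smoothTransition.le_one _

theorem fb_dd_auxQ (δ A b κ μ tt τ z g : ℝ) (h : InK A b κ μ tt τ z g) :
    3 / 10000 ≤ QF δ A b μ tt z g := by
  unfold QF
  apply Real.le_sqrt_of_sq_le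
  have h0 : 0 ≤ sF δ A μ tt z g := mul_nonneg h.A0 (fb_dd_auxchi0 _)
  have h1 : sF δ A μ tt z g ≤ 1 := by
    unfold sF
    calc A * chi (μ + δ * Real.log (tt + (1 - tt) * (z ^ 2 + g ^ 2))) ≤ 1 * 1 :=
          mul_le_mul h.A1 (fb_dd_auxchi1 _) (fb_dd_auxchi0 _) (by norm_num)
      _ = 1 := by norm_num
  have h2 := h.b0
  have h3 : sF δ A μ tt z g * (1 / 8000000 - 1) ≤ sF δ A μ tt z g * b :=
    mul_le_mul_of_nonneg_left h2 h0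
  have h4 : 1 * (1 / 8000000 - 1 : ℝ) ≤ sF δ A μ tt z g * (1 / 8000000 - 1) :=
    mul_le_mul_of_nonpos_right h1 (by norm_num)
  linarith

theorem fb_dd : ∃ K D : ℝ, 0 < K ∧ 0 < D ∧ ∀ δ A b κ μ tt τ z g, δ ∈ Icc (0 : ℝ) D →
    InK A b κ μ tt τ z g →
    |DD (SF δ A b κ μ tt) τ (DD (SF δ A b κ μ tt) τ (TF δ A b μ tt τ)) z g| ≤ K * δ := by
  obtain ⟨K1, hK1, hzg⟩ := fb_zg
  have hD : 0 < min 1 (1 / (10000 * K1)) := lt_min one_pos (by positivity)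
  have hmem : ∀ δ A b κ μ tt τ z g, δ ∈ Icc (0 : ℝ) (min 1 (1 / (10000 * K1))) →
      InK A b κ μ tt τ z g → pt δ A b κ μ tt τ z g ∈ fb_dd_auxO := by
    intro δ A b κ μ tt τ z g hδ hK
    refine ⟨inK_OF δ A b κ μ tt τ z g hK, ?_⟩
    have h1 := hzg δ A b κ μ tt τ z g ⟨hδ.1, le_trans hδ.2 (min_le_left _ _)⟩ hK
    have h2 := fb_dd_auxQ δ A b κ μ tt τ z g hK
    have h3 : K1 * δ ≤ 1 / 10000 := by
      calc K1 * δ ≤ K1 * (1 / (10000 * K1)) :=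
            mul_le_mul_of_nonneg_left (le_trans hδ.2 (min_le_right _ _)) hK1.le
        _ = 1 / 10000 := by field_simp
    have h4 := (abs_le.1 h1).1
    change 0 < pg (pz (SF δ A b κ μ tt)) z g
    linarith
  have hsm : ∀ v ∈ fb_dd_auxO, ContDiffAt ℝ ∞ (fb_dd_auxE (fb_dd_auxE TFu)) v :=
    fb_dd_auxsm _ (fb_dd_auxsm _ (fun v hv => sm_TF v hv.1))
  obtain ⟨C, hC, hb⟩ := soft7 (fb_dd_auxE (fb_dd_auxE TFu)) (min 1 (1 / (10000 * K1))) hD.le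
    (fun δ A b κ μ tt τ z g hδ hK => (hsm _ (hmem δ A b κ μ tt τ z g hδ hK)).of_le (by simp))
    (fun A b κ μ tt τ z g hK => dd_zero A b κ μ tt τ z g hK)
  exact ⟨C, _, hC, hD, fun δ A b κ μ tt τ z g hδ hK => hb δ A b κ μ tt τ z g hδ hK⟩

end H867.FB
end
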