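import Pool.Agent.Helper867.FB.Defs2
import Pool.Agent.Helper867.FB.L_soft7
import Pool.Agent.Helper867.FB.L_cd_g
import Pool.Agent.Helper867.FB.L_open_OF
import Pool.Agent.Helper867.FB.L_inK_OF
import Pool.Agent.Helper867.FB.L_sm_SF
import Pool.Agent.Helper867.FB.L_sm_sF

set_option autoImplicit false
open Topology Set
open scoped ContDiff

noncomputable section

namespace H867.FB
open H930.FF

def fb_gg_aux_f1 (v : ℝ × ℝ × Y7) : ℝ := deriv (fun g => SFu (v.1, g, v.2.2)) v.2.1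

def fb_gg_aux_f2 (v : ℝ × ℝ × Y7) : ℝ := deriv (fun g => fb_gg_aux_f1 (v.1, g, v.2.2)) v.2.1

theorem fb_gg_aux_zero (A b κ μ tt z g : ℝ) :
    pg (pg (SF 0 A b κ μ tt)) z g + sF 0 A μ tt z g * κ = 0 := by
  have hs : ∀ z g, sF 0 A μ tt z g = A * chi μ := by
    intro z g
    simp [sF]
  have hQ : ∀ z g, QF 0 A b μ tt z g = Real.sqrt (1 + A * chi μ * b) := by
    intro z g
    simp [QF, hs]
  have hSF : SF 0 A b κ μ tt = fun z g => g * z * Real.sqrt (1 + A * chi μ * b)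
      - g ^ 2 / 2 * (A * chi μ) * κ := by
    funext z g
    simp only [SF, hs, hQ]
  have h1 : pg (SF 0 A b κ μ tt) = fun z g => z * Real.sqrt (1 + A * chi μ * b)
      - g * (A * chi μ) * κ := by
    funext z g
    unfold pg
    rw [hSF]
    have h : HasDerivAt (fun g' : ℝ => g' * z * Real.sqrt (1 + A * chi μ * b)
      - g' ^ 2 / 2 * (A * chi μ) * κ) (1 * z * Real.sqrt (1 + A * chi μ * b)
      - (((2 : ℕ) : ℝ) * g ^ (2 - 1) * 1) / 2 * (A * chi μ) * κ) g := by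
      have hid := hasDerivAt_id' g
      exact ((hid.mul_const z).mul_const _).sub
        ((((hid.pow 2).div_const 2).mul_const _).mul_const κ)
    rw [h.deriv]
    push_cast
    ring
  have h2 : pg (pg (SF 0 A b κ μ tt)) z g = - ((A * chi μ) * κ) := by
    rw [h1]
    unfold pg
    have h : HasDerivAt (fun g' : ℝ => z * Real.sqrt (1 + A * chi μ * b)
      - g' * (A * chi μ) * κ) (0 - 1 * (A * chi μ) * κ) g := by
      have hid := hasDerivAt_id' g
      exact (hasDerivAt_const g _).sub ((hid.mul_const _).mul_const κ)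
    rw [h.deriv]
    ring
  rw [h2, hs]
  ring

theorem fb_gg : ∃ K : ℝ, 0 < K ∧ ∀ δ A b κ μ tt τ z g, δ ∈ Icc (0 : ℝ) 1 →
    InK A b κ μ tt τ z g →
    |pg (pg (SF δ A b κ μ tt)) z g + sF δ A μ tt z g * κ| ≤ K * δ := by
  have hf1 : ∀ v ∈ OF, ContDiffAt ℝ ∞ fb_gg_aux_f1 v := cd_g SFu OF open_OF sm_SF
  have hf2 : ∀ v ∈ OF, ContDiffAt ℝ ∞ fb_gg_aux_f2 v := cd_g fb_gg_aux_f1 OF open_OF hf1
  obtain ⟨C, hC, h⟩ := soft7 (fun v => fb_gg_aux_f2 v + sFu v * v.2.2.2.2.2.1) 1 zero_le_one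
    (by
      intro δ A b κ μ tt τ z g _ hK
      have hv := inK_OF δ A b κ μ tt τ z g hK
      have h1 : ContDiffAt ℝ 1 fb_gg_aux_f2 (pt δ A b κ μ tt τ z g) :=
        (hf2 _ hv).of_le (by exact_mod_cast le_top)
      have h2 : ContDiffAt ℝ 1 sFu (pt δ A b κ μ tt τ z g) :=
        (sm_sF _ hv).of_le (by exact_mod_cast le_top)
      refine h1.add (h2.mul ?_)
      fun_prop)
    (by
      intro A b κ μ tt τ z g _
      exact fb_gg_aux_zero A b κ μ tt z g)
  exact ⟨C, hC, fun δ A b κ μ tt τ z g hδ hK => h δ A b κ μ tt τ z g hδ hK⟩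

end H867.FB
end
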