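import Pool.Agent.Helper867.FB.Defs2
import Pool.Agent.Helper867.FB.L_soft7
import Pool.Agent.Helper867.FB.L_cd_z
import Pool.Agent.Helper867.FB.L_open_OF
import Pool.Agent.Helper867.FB.L_inK_OF
import Pool.Agent.Helper867.FB.L_sm_SF

set_option autoImplicit false
open Topology Set
open scoped ContDiff

noncomputable section

namespace H867.FB
open H930.FF

theorem fb_zz_aux (A b κ μ tt : ℝ) (z g : ℝ) : pz (pz (SF 0 A b κ μ tt)) z g = 0 := by
  have h0 : ∀ z' : ℝ, pz (SF 0 A b κ μ tt) z' g = g * Real.sqrt (1 + A * chi μ * b) := by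
    intro z'
    unfold pz
    have e : (fun z'' : ℝ => SF 0 A b κ μ tt z'' g) =
        fun z'' : ℝ => z'' * (g * Real.sqrt (1 + A * chi μ * b)) - g ^ 2 / 2 * (A * chi μ) * κ := by
      funext z''
      unfold SF QF sF
      rw [zero_mul, add_zero]
      ring
    rw [e, deriv_sub_const, deriv_mul_const differentiableAt_id]
    simp
  have e2 : (fun z' : ℝ => pz (SF 0 A b κ μ tt) z' g) = fun _ => g * Real.sqrt (1 + A * chi μ * b) :=
    funext h0
  show deriv (fun z' : ℝ => pz (SF 0 A b κ μ tt) z' g) z = 0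
  rw [e2, deriv_const]

theorem fb_zz : ∃ K : ℝ, 0 < K ∧ ∀ δ A b κ μ tt τ z g, δ ∈ Icc (0 : ℝ) 1 →
    InK A b κ μ tt τ z g → |pz (pz (SF δ A b κ μ tt)) z g| ≤ K * δ := by
  let G1 : ℝ × ℝ × Y7 → ℝ := fun v => deriv (fun z => SFu (z, v.2.1, v.2.2)) v.1
  let G2 : ℝ × ℝ × Y7 → ℝ := fun v => deriv (fun z => G1 (z, v.2.1, v.2.2)) v.1
  have h1 : ∀ v ∈ OF, ContDiffAt ℝ ∞ G1 v := cd_z SFu OF open_OF sm_SF
  have h2 : ∀ v ∈ OF, ContDiffAt ℝ ∞ G2 v := cd_z G1 OF open_OF h1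
  have hE : ∀ δ A b κ μ tt τ z g, G2 (pt δ A b κ μ tt τ z g) = pz (pz (SF δ A b κ μ tt)) z g := by
    intro δ A b κ μ tt τ z g
    rfl
  obtain ⟨C, hC, h⟩ := soft7 G2 1 zero_le_one
    (fun δ A b κ μ tt τ z g _ hK => (h2 _ (inK_OF δ A b κ μ tt τ z g hK)).of_le (by
      exact_mod_cast le_top))
    (fun A b κ μ tt τ z g _ => by rw [hE]; exact fb_zz_aux A b κ μ tt z g)
  refine ⟨C, hC, fun δ A b κ μ tt τ z g hδ hK => ?_⟩
  have := h δ A b κ μ tt τ z g hδ hK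
  rw [hE] at this
  exact this

end H867.FB
end
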