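import Pool.Agent.Helper867.FB.Defs2

set_option autoImplicit false
open Topology Set
open scoped ContDiff

noncomputable section

namespace H867.FB
open H930.FF

theorem pg_scale (f h : ℝ → ℝ → ℝ) (ρ c : ℝ) (hρ : ρ ≠ 0)
    (H : ∀ x y, f (ρ * x) (ρ * y) = c * h x y) :
    ∀ x y, pg f (ρ * x) (ρ * y) = c / ρ * pg h x y := by
  intro x y
  unfold pg
  have h1 : (fun y => f (ρ * x) (ρ * y)) = fun y => c * h x y := by
    funext y
    exact H x y
  have h2 := deriv_comp_mul_left ρ (fun g' => f (ρ * x) g') y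
  have h3 : deriv (fun y => f (ρ * x) (ρ * y)) y = c * deriv (fun g' => h x g') y := by
    rw [h1, deriv_const_mul_field]
  rw [h3] at h2
  rw [smul_eq_mul] at h2
  rw [div_mul_eq_mul_div, h2]
  field_simp

end H867.FB
end
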