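import Pool.Agent.Helper867.FB.Defs2

set_option autoImplicit false
open Topology Set
open scoped ContDiff

noncomputable section

namespace H867.FB
open H930.FF

theorem pz_scale (f h : ℝ → ℝ → ℝ) (ρ c : ℝ) (hρ : ρ ≠ 0)
    (H : ∀ x y, f (ρ * x) (ρ * y) = c * h x y) :
    ∀ x y, pz f (ρ * x) (ρ * y) = c / ρ * pz h x y := by
  intro x y
  have h1 : deriv (fun x => f (ρ * x) (ρ * y)) x = ρ • deriv (fun z => f z (ρ * y)) (ρ * x) :=
    deriv_comp_mul_left ρ (fun z => f z (ρ * y)) x
  have h2 : (fun x => f (ρ * x) (ρ * y)) = fun x => c * h x y := funext fun x => H x y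
  rw [h2, deriv_const_mul_field, smul_eq_mul] at h1
  have h3 : pz f (ρ * x) (ρ * y) = deriv (fun z => f z (ρ * y)) (ρ * x) := rfl
  have h4 : pz h x y = deriv (fun x => h x y) x := rfl
  rw [h3, h4]
  field_simp
  linarith

end H867.FB
end
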