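import Pool.Agent.Helper867.FB.Defs2
import Pool.Agent.Helper867.FB.L_pz_scale
import Pool.Agent.Helper867.FB.L_pg_scale

set_option autoImplicit false
open Topology Set
open scoped ContDiff

noncomputable section

namespace H867.FB
open H930.FF

theorem scale_all (S T S' T' : ℝ → ℝ → ℝ) (ρ τ : ℝ) (hρ : ρ ≠ 0)
    (hS : ∀ x y, S (ρ * x) (ρ * y) = ρ ^ 2 * S' x y)
    (hT : ∀ x y, T (ρ * x) (ρ * y) = ρ ^ 2 * T' x y) (x y : ℝ) :
    pz (pz S) (ρ * x) (ρ * y) = pz (pz S') x y ∧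
    pg (pz S) (ρ * x) (ρ * y) = pg (pz S') x y ∧
    pg (pg S) (ρ * x) (ρ * y) = pg (pg S') x y ∧
    DD S τ (DD S τ T) (ρ * x) (ρ * y) = DD S' τ (DD S' τ T') x y := by
  have e2 : ρ ^ 2 / ρ = ρ := by field_simp
  have e1 : ρ / ρ = 1 := div_self hρ
  have hSz : ∀ x y, pz S (ρ * x) (ρ * y) = ρ * pz S' x y := by
    intro x y
    rw [pz_scale S S' ρ (ρ ^ 2) hρ hS, e2]
  have hSg : ∀ x y, pg S (ρ * x) (ρ * y) = ρ * pg S' x y := by
    intro x y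
    rw [pg_scale S S' ρ (ρ ^ 2) hρ hS, e2]
  have hTz : ∀ x y, pz T (ρ * x) (ρ * y) = ρ * pz T' x y := by
    intro x y
    rw [pz_scale T T' ρ (ρ ^ 2) hρ hT, e2]
  have hTg : ∀ x y, pg T (ρ * x) (ρ * y) = ρ * pg T' x y := by
    intro x y
    rw [pg_scale T T' ρ (ρ ^ 2) hρ hT, e2]
  have hzz : ∀ x y, pz (pz S) (ρ * x) (ρ * y) = pz (pz S') x y := by
    intro x y
    rw [pz_scale (pz S) (pz S') ρ ρ hρ hSz, e1, one_mul]
  have hgz : ∀ x y, pg (pz S) (ρ * x) (ρ * y) = pg (pz S') x y := by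
    intro x y
    rw [pg_scale (pz S) (pz S') ρ ρ hρ hSz, e1, one_mul]
  have hgg : ∀ x y, pg (pg S) (ρ * x) (ρ * y) = pg (pg S') x y := by
    intro x y
    rw [pg_scale (pg S) (pg S') ρ ρ hρ hSg, e1, one_mul]
  have hom : ∀ x y, om S τ (ρ * x) (ρ * y) = om S' τ x y := by
    intro x y
    unfold om
    rw [hzz, hgz]
  have hD : ∀ x y, DD S τ T (ρ * x) (ρ * y) = ρ * DD S' τ T' x y := by
    intro x y
    unfold DD
    rw [hTz, hTg, hom]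
    ring
  refine ⟨hzz x y, hgz x y, hgg x y, ?_⟩
  have h1 := pz_scale (DD S τ T) (DD S' τ T') ρ ρ hρ hD x y
  have h2 := pg_scale (DD S τ T) (DD S' τ T') ρ ρ hρ hD x y
  rw [e1, one_mul] at h1 h2
  change -τ * pz (DD S τ T) (ρ * x) (ρ * y) + om S τ (ρ * x) (ρ * y) *
    pg (DD S τ T) (ρ * x) (ρ * y) = -τ * pz (DD S' τ T') x y + om S' τ x y *
    pg (DD S' τ T') x y
  rw [h1, h2, hom]

end H867.FB
end
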