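import Pool.Agent.Helper867.FB.Defs2

set_option autoImplicit false
open Topology Set
open scoped ContDiff

noncomputable section

namespace H867.FB
open H930.FF

theorem scale_fam (d a b κ τ ρ x y : ℝ) (hρ : 0 < ρ) :
    sS d (ρ * x) (ρ * y) a = sF d (amp a) (d * Real.log (1 + ρ ^ 2)) (1 / (1 + ρ ^ 2)) x y ∧
    QQ d (ρ * x) (ρ * y) a b
      = QF d (amp a) b (d * Real.log (1 + ρ ^ 2)) (1 / (1 + ρ ^ 2)) x y ∧
    SS d (ρ * x) (ρ * y) a b κ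
      = ρ ^ 2 * SF d (amp a) b κ (d * Real.log (1 + ρ ^ 2)) (1 / (1 + ρ ^ 2)) x y ∧
    TT d (ρ * x) (ρ * y) a b τ
      = ρ ^ 2 * TF d (amp a) b (d * Real.log (1 + ρ ^ 2)) (1 / (1 + ρ ^ 2)) τ x y := by
  have hp : (0 : ℝ) < 1 + ρ ^ 2 := by positivity
  have e1 : 1 / (1 + ρ ^ 2) + (1 - 1 / (1 + ρ ^ 2)) * (x ^ 2 + y ^ 2) =
      (1 + (ρ * x) ^ 2 + (ρ * y) ^ 2) / (1 + ρ ^ 2) := by
    field_simp
    ring
  have hq : (0 : ℝ) < 1 + (ρ * x) ^ 2 + (ρ * y) ^ 2 := by positivity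
  have e2 : Real.log (1 + (ρ * x) ^ 2 + (ρ * y) ^ 2) = Real.log (1 + ρ ^ 2) +
      Real.log (1 / (1 + ρ ^ 2) + (1 - 1 / (1 + ρ ^ 2)) * (x ^ 2 + y ^ 2)) := by
    rw [e1, Real.log_div hq.ne' hp.ne']
    ring
  have h1 : sS d (ρ * x) (ρ * y) a =
      sF d (amp a) (d * Real.log (1 + ρ ^ 2)) (1 / (1 + ρ ^ 2)) x y := by
    unfold sS sF
    rw [e2, mul_add]
  have h2 : QQ d (ρ * x) (ρ * y) a b
      = QF d (amp a) b (d * Real.log (1 + ρ ^ 2)) (1 / (1 + ρ ^ 2)) x y := by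
    unfold QQ QF
    rw [h1]
  refine ⟨h1, h2, ?_, ?_⟩
  · unfold SS SF
    rw [h1, h2]
    ring
  · unfold TT TF
    rw [h1, h2]
    ring

end H867.FB
end
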