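import Pool.Agent.Helper867.FB.Defs2
import Pool.Agent.Helper867.FB.L_fb_zz
import Pool.Agent.Helper867.FB.L_fb_zg
import Pool.Agent.Helper867.FB.L_fb_gg
import Pool.Agent.Helper867.FB.L_fb_dd
import Pool.Agent.Helper867.FB.L_scale_all
import Pool.Agent.Helper867.FB.L_scale_fam
import Pool.Agent.Helper867.FB.L_far

set_option autoImplicit false
open Topology Set
open scoped ContDiff

noncomputable section

namespace H867.FB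
open H930.FF

theorem ex_good_aux_inK (d a b κ τ z g ρ : ℝ) (hd : 0 < d) (hρ : 0 < ρ)
    (hρ2 : ρ ^ 2 = 1 + z ^ 2 + g ^ 2) (hb0 : 1 / 8000000 - 1 ≤ b) (hb3 : b ≤ 3) (hk : |κ| ≤ 4)
    (ht : |τ| ≤ 3) (hμ : d * Real.log (1 + ρ ^ 2) ≤ 4) :
    InK (amp a) b κ (d * Real.log (1 + ρ ^ 2)) (1 / (1 + ρ ^ 2)) τ (z / ρ) (g / ρ) := by
  have hR1 : 1 ≤ ρ ^ 2 := by nlinarith [sq_nonneg z, sq_nonneg g]
  have hR0 : 0 < ρ ^ 2 := by positivity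
  have hR : 0 < 1 + ρ ^ 2 := by positivity
  have hxy : (z / ρ) ^ 2 + (g / ρ) ^ 2 = (ρ ^ 2 - 1) / ρ ^ 2 := by
    rw [div_pow, div_pow, ← add_div]
    congr 1
    linarith
  refine ⟨Real.smoothTransition.nonneg a, Real.smoothTransition.le_one a, hb0, hb3, hk, ?_, hμ,
    by positivity, ?_, ht, ?_, ?_⟩
  · exact mul_nonneg hd.le (Real.log_nonneg (by linarith))
  · rw [div_le_div_iff₀ hR two_pos]
    linarith
  · rw [hxy, div_le_one hR0]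
    linarith
  · rw [hxy]
    have h1 : 1 / (1 + ρ ^ 2) + (1 - 1 / (1 + ρ ^ 2)) * ((ρ ^ 2 - 1) / ρ ^ 2) =
        ρ ^ 2 / (1 + ρ ^ 2) := by
      field_simp
      ring
    rw [h1, div_le_div_iff₀ two_pos hR]
    linarith

theorem ex_good_aux_main (K1 K2 K3 K4 D : ℝ) (hK1 : 0 < K1) (hK2 : 0 < K2) (hK3 : 0 < K3)
    (hK4 : 0 < K4)
    (h1 : ∀ δ A b κ μ tt τ z g, δ ∈ Icc (0 : ℝ) 1 →
      InK A b κ μ tt τ z g → |pz (pz (SF δ A b κ μ tt)) z g| ≤ K1 * δ)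
    (h2 : ∀ δ A b κ μ tt τ z g, δ ∈ Icc (0 : ℝ) 1 →
      InK A b κ μ tt τ z g →
      |pg (pz (SF δ A b κ μ tt)) z g - QF δ A b μ tt z g| ≤ K2 * δ)
    (h3 : ∀ δ A b κ μ tt τ z g, δ ∈ Icc (0 : ℝ) 1 →
      InK A b κ μ tt τ z g →
      |pg (pg (SF δ A b κ μ tt)) z g + sF δ A μ tt z g * κ| ≤ K3 * δ)
    (h4 : ∀ δ A b κ μ tt τ z g, δ ∈ Icc (0 : ℝ) D →
      InK A b κ μ tt τ z g →
      |DD (SF δ A b κ μ tt) τ (DD (SF δ A b κ μ tt) τ (TF δ A b μ tt τ)) z g| ≤ K4 * δ)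
    (d : ℝ) (hd : 0 < d) (hd1 : d ≤ 1) (hdD : d ≤ D) (a b κ τ z g : ℝ)
    (hb0 : 1 / 8000000 - 1 ≤ b) (hb3 : b ≤ 3) (hk : |κ| ≤ 4) (ht : |τ| ≤ 3) :
    |pz (pz (SSa d a b κ)) z g| ≤ (K1 + K2 + K3 + K4) * d ∧
    |pg (pz (SSa d a b κ)) z g - QQ d z g a b| ≤ (K1 + K2 + K3 + K4) * d ∧
    |pg (pg (SSa d a b κ)) z g + sS d z g a * κ| ≤ (K1 + K2 + K3 + K4) * d ∧
    |DD (SSa d a b κ) τ (DD (SSa d a b κ) τ (TTa d a b τ)) z g| ≤ (K1 + K2 + K3 + K4) * d := by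
  have hK : 0 < (K1 + K2 + K3 + K4) * d := by positivity
  obtain ⟨ρ, hρd⟩ : ∃ ρ : ℝ, ρ = Real.sqrt (1 + z ^ 2 + g ^ 2) := ⟨_, rfl⟩
  have hpos : 0 < 1 + z ^ 2 + g ^ 2 := by positivity
  have hρ : 0 < ρ := by rw [hρd]; exact Real.sqrt_pos.2 hpos
  have hρ2 : ρ ^ 2 = 1 + z ^ 2 + g ^ 2 := by rw [hρd]; exact Real.sq_sqrt hpos.le
  rcases le_or_gt (d * Real.log (1 + ρ ^ 2)) 4 with hμ | hμ
  · have hin := ex_good_aux_inK d a b κ τ z g ρ hd hρ hρ2 hb0 hb3 hk ht hμ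
    have hz : ρ * (z / ρ) = z := by field_simp
    have hg : ρ * (g / ρ) = g := by field_simp
    have hsc := scale_all (SSa d a b κ) (TTa d a b τ)
      (SF d (amp a) b κ (d * Real.log (1 + ρ ^ 2)) (1 / (1 + ρ ^ 2)))
      (TF d (amp a) b (d * Real.log (1 + ρ ^ 2)) (1 / (1 + ρ ^ 2)) τ) ρ τ hρ.ne'
      (fun x y => (scale_fam d a b κ τ ρ x y hρ).2.2.1)
      (fun x y => (scale_fam d a b κ τ ρ x y hρ).2.2.2) (z / ρ) (g / ρ)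
    have hfam := scale_fam d a b κ τ ρ (z / ρ) (g / ρ) hρ
    rw [hz, hg] at hsc hfam
    obtain ⟨s1, s2, s3, s4⟩ := hsc
    obtain ⟨f1, f2, -, -⟩ := hfam
    rw [s1, s2, s3, s4, f1, f2]
    have hd01 : d ∈ Icc (0:ℝ) 1 := ⟨hd.le, hd1⟩
    have hd0D : d ∈ Icc (0:ℝ) D := ⟨hd.le, hdD⟩
    refine ⟨(h1 _ _ _ _ _ _ _ _ _ hd01 hin).trans ?_, (h2 _ _ _ _ _ _ _ _ _ hd01 hin).trans ?_,
      (h3 _ _ _ _ _ _ _ _ _ hd01 hin).trans ?_, (h4 _ _ _ _ _ _ _ _ _ hd0D hin).trans ?_⟩ <;>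
      apply mul_le_mul_of_nonneg_right _ hd.le <;> linarith
  · have hfar : 2 < d * Real.log (1 + z ^ 2 + g ^ 2) := by
      have e1 : Real.log (1 + ρ ^ 2) ≤ Real.log 2 + Real.log (1 + z ^ 2 + g ^ 2) := by
        rw [← Real.log_mul two_ne_zero hpos.ne']
        apply Real.log_le_log (by positivity)
        rw [hρ2]
        nlinarith [sq_nonneg z, sq_nonneg g]
      have e2 : Real.log 2 ≤ 1 := by
        have := Real.log_two_lt_d9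
        linarith
      have e3 : d * Real.log (1 + ρ ^ 2) ≤ d * (Real.log 2 + Real.log (1 + z ^ 2 + g ^ 2)) :=
        mul_le_mul_of_nonneg_left e1 hd.le
      have e4 : d * Real.log 2 ≤ 1 * 1 :=
        mul_le_mul hd1 e2 (Real.log_nonneg (by norm_num)) zero_le_one
      rw [mul_add] at e3
      linarith
    obtain ⟨g1, g2, g3, g4, g5, g6, -, -, -⟩ := far d a b κ τ z g hd hfar
    rw [g1, g2, g3, g4, g5, g6]
    refine ⟨?_, ?_, ?_, ?_⟩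
    · rw [abs_zero]; exact hK.le
    · rw [sub_self, abs_zero]; exact hK.le
    · rw [zero_mul, add_zero, abs_zero]; exact hK.le
    · rw [abs_zero]; exact hK.le

theorem ex_good : ∃ K d1 : ℝ, 0 < K ∧ 0 < d1 ∧ ∀ d, 0 < d → d ≤ d1 → Good d K := by
  obtain ⟨K1, hK1, h1⟩ := fb_zz
  obtain ⟨K2, hK2, h2⟩ := fb_zg
  obtain ⟨K3, hK3, h3⟩ := fb_gg
  obtain ⟨K4, D, hK4, hD, h4⟩ := fb_dd
  have hK : 0 < K1 + K2 + K3 + K4 := by positivity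
  refine ⟨K1 + K2 + K3 + K4, min D (min 1 (1 / (10 ^ 6 * (K1 + K2 + K3 + K4)))), hK,
    lt_min hD (lt_min one_pos (by positivity)), fun d hd hdd => ?_⟩
  have hdD : d ≤ D := hdd.trans (min_le_left _ _)
  have hd1 : d ≤ 1 := hdd.trans ((min_le_right _ _).trans (min_le_left _ _))
  have hdK : d ≤ 1 / (10 ^ 6 * (K1 + K2 + K3 + K4)) :=
    hdd.trans ((min_le_right _ _).trans (min_le_right _ _))
  have hmain := ex_good_aux_main K1 K2 K3 K4 D hK1 hK2 hK3 hK4 h1 h2 h3 h4 d hd hd1 hdD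
  have h0 : |(0:ℝ)| ≤ 3 := by rw [abs_zero]; norm_num
  refine ⟨hd, hd1, hK, ?_, ?_, ?_, ?_, ?_⟩
  · calc (K1 + K2 + K3 + K4) * d ≤
          (K1 + K2 + K3 + K4) * (1 / (10 ^ 6 * (K1 + K2 + K3 + K4))) :=
          mul_le_mul_of_nonneg_left hdK hK.le
      _ = 1 / 10 ^ 6 := by field_simp
  · intro a b κ z g hb0 hb3 hk
    exact (hmain a b κ 0 z g hb0 hb3 hk h0).1
  · intro a b κ z g hb0 hb3 hk
    exact (hmain a b κ 0 z g hb0 hb3 hk h0).2.1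
  · intro a b κ z g hb0 hb3 hk
    exact (hmain a b κ 0 z g hb0 hb3 hk h0).2.2.1
  · intro a b κ τ z g hb0 hb3 hk ht
    exact (hmain a b κ τ z g hb0 hb3 hk ht).2.2.2

end H867.FB
end
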