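import Pool.Agent.Helper867.FB.Defs2
import Pool.Agent.Helper867.FB.L_sm_Th
import Pool.Agent.Helper867.FB.L_symm_S
import Pool.Agent.Helper867.FB.L_mixed_bd
import Pool.Agent.Helper867.FB.L_inv_family

set_option autoImplicit false
open Topology Set
open scoped ContDiff

noncomputable section

namespace H867.FB
open H930.FF

theorem ex_zet (d K : ℝ) (h : Good d K) : ∃ ζ : ℝ × ℝ × ℝ × ℝ × ℝ → ℝ, ZetOK d ζ := by
  let f : ℝ × (ℝ × ℝ × ℝ × ℝ) → ℝ := fun v => Th d v.1 v.2.1 v.2.2.1 v.2.2.2.1 v.2.2.2.2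
  let U : Set (ℝ × ℝ × ℝ × ℝ) := {e | InB e.2.2.1 e.2.2.2}
  have hU : IsOpen U := by
    have h1 : IsOpen {e : ℝ × ℝ × ℝ × ℝ | 1 / 8000000 - 1 < e.2.2.1} :=
      isOpen_lt continuous_const (by fun_prop)
    have h2 : IsOpen {e : ℝ × ℝ × ℝ × ℝ | e.2.2.1 < 3} :=
      isOpen_lt (by fun_prop) continuous_const
    have h3 : IsOpen {e : ℝ × ℝ × ℝ × ℝ | |e.2.2.2| < 4} :=
      isOpen_lt (by fun_prop) continuous_const
    exact h1.inter (h2.inter h3)
  have hf : ∀ e ∈ U, ∀ z, ContDiffAt ℝ ∞ f (z, e) := by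
    rintro ⟨g, a, b, κ⟩ he z
    have he' : InB b κ := he
    exact sm_Th d (z, g, a, b, κ) (by
      show -1 < b
      linarith [he'.1])
  have hd : ∀ e ∈ U, ∀ z, (1 / 4000 : ℝ) ≤ deriv (fun z' => f (z', e)) z := by
    rintro ⟨g, a, b, κ⟩ he z
    have he' : InB b κ := he
    have h1 := (mixed_bd d K a b κ z g h he'.1.le he'.2.1.le he'.2.2.le).1
    rw [← symm_S d a b κ z g (by linarith [he'.1])] at h1
    exact h1
  obtain ⟨ζ, h1, h2, h3⟩ := inv_family f U hU (1 / 4000) (by norm_num) hf hd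
  refine ⟨ζ, ⟨?_, ?_, ?_⟩⟩
  · intro y g a b κ hb
    exact h1 (g, a, b, κ) hb y
  · intro z g a b κ hb
    exact h2 (g, a, b, κ) hb z
  · intro y g a b κ hb
    exact h3 (g, a, b, κ) hb y

end H867.FB
end
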