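import Pool.Agent.Helper867.FB.L_ex_good
import Pool.Agent.Helper867.FB.L_ex_gam
import Pool.Agent.Helper867.FB.L_ex_zet
import Pool.Agent.Helper867.FB.L_Tc_bd
import Pool.Agent.Helper867.FB.L_Tc_dd
import Pool.Agent.Helper867.FB.L_Tc_supp
import Pool.Agent.Helper867.FB.L_Gl_bd
import Pool.Agent.Helper867.FB.L_Gl_C2
import Pool.Agent.Helper867.FB.L_L_rel
import Pool.Agent.Helper867.FB.L_L_cone
import Pool.Agent.Helper867.FB.L_L_box
import Pool.Agent.Helper867.FB.L_L_pc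
import Pool.Agent.Helper867.FB.L_L_pz
import Pool.Agent.Helper867.FB.L_L_core
import Pool.Agent.Helper867.FB.L_L_G

set_option autoImplicit false
open Topology Set
open scoped ContDiff

noncomputable section

namespace H867.FB
open H930.FF

theorem reg_inB {y : ℝ × ℝ × ℝ × ℝ × ℝ × ℝ} (h : Reg y) : InB y.2.2.2.1 y.2.2.2.2.1 := by
  obtain ⟨h1, h2, h3⟩ := h
  refine ⟨?_, ?_, ?_⟩
  · norm_num at h1 ⊢; linarith
  · linarith
  · linarith

theorem local_key (Cb K : ℝ) (d : ℝ) (hg : Good d K) :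
    ∃ C : ℝ, ∀ (N lam : ℝ) (gd : Set ℤ) (b k : ℝ → ℝ),
      1 ≤ N → 0 < lam → lam ≤ 1 → Prof Cb N gd b k →
      ∃ (G : ℝ × ℝ × ℝ × ℝ → ℝ) (X P F : ℝ → ℝ × ℝ × ℝ → ℝ),
        LStage N lam (7 * Real.exp (1 / d) * lam) (3 * Real.exp (1 / d) * lam / N)
          (max Cb 1 * K * d + C / N) gd G X P F := by
  obtain ⟨Γ, hΓ⟩ := ex_gam d K hg
  obtain ⟨ζ, hζ⟩ := ex_zet d K hg
  obtain ⟨M, hM, hMb⟩ := Tc_bd d K hg Γ hΓ
  obtain ⟨C, hC, hCb⟩ := Gl_bd M (5 / 2 * Real.exp (1 / d)) Cb hM (by positivity)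
  refine ⟨C, ?_⟩
  intro N lam gd b k hN hl hl1 hp
  have hN0 : 0 < N := by linarith
  have hsm : ∀ y, Reg y → ContDiffAt ℝ 2 (Tc d Γ) y := fun y hy =>
    (Tc_sm d Γ hΓ y (reg_inB hy)).of_le ENat.LEInfty.out
  have hKd : 0 ≤ K * d := mul_nonneg hg.K0.le hg.d0.le
  have hB := hCb N lam gd b k (Tc d Γ) (K * d) hN hl hl1 hp hKd hsm
    (fun y hy hR => by
      obtain ⟨z, p, a, b', κ, τ⟩ := y
      exact Tc_supp d K hg Γ hΓ z p a b' κ τ (reg_inB hy) (Or.inr hR))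
    (fun y hy hτ => by
      obtain ⟨h1, h2, h3⟩ := hMb y hy hτ
      refine ⟨h1, h2, h3, ?_⟩
      obtain ⟨z, p, a, b', κ, τ⟩ := y
      have hin := reg_inB hy
      simp only at hτ hin ⊢
      rw [Tc_dd d K hg Γ hΓ z p a b' κ τ hin]
      exact hg.dd _ _ _ _ _ _ hin.1.le hin.2.1.le hin.2.2.le (by linarith))
  have hCN : 0 ≤ C / N := div_nonneg hC hN0.le
  have hmx : 0 ≤ max Cb 1 * K * d := by
    rw [mul_assoc]; exact mul_nonneg (le_trans zero_le_one (le_max_right _ _)) hKd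
  have hmx2 : Cb * (K * d) ≤ max Cb 1 * K * d := by
    rw [mul_assoc]; exact mul_le_mul_of_nonneg_right (le_max_left _ _) hKd
  refine ⟨Gl N lam b k (Tc d Γ), fun a => XL d ζ N lam b k a, fun a => PL d ζ N lam b k a,
    fun a => FL d ζ N lam b k a, ?_⟩
  refine
    { C2 := Gl_C2 Cb N lam gd b k hN hl hp _ hsm
      supp := fun t x p a => (L_G d K Cb N lam gd b k hg hN hl hp Γ hΓ t x p a).1
      zero := fun t x a => (L_G d K Cb N lam gd b k hg hN hl hp Γ hΓ t x 0 a).2.1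
      a0 := fun t x p a => (L_G d K Cb N lam gd b k hg hN hl hp Γ hΓ t x p a).2.2.1
      s0 := fun z => by have := (hB z).1; linarith
      s1 := fun z => by have := (hB z).2.1; linarith
      s2 := fun z => by have := (hB z).2.2; linarith
      Gx := fun t x p a => (L_G d K Cb N lam gd b k hg hN hl hp Γ hΓ t x p a).2.2.2
      canon := fun a => ?_
      box := fun a z => L_box d K Cb N lam gd b k hg hN hl hp ζ hζ a z
      cone := fun a z σ hσ => L_cone d K Cb N lam gd b k hg hN hl hp ζ hζ a z σ hσ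
      pz := fun a t θ => L_pz d K Cb N lam gd b k hg hN hl hp ζ hζ a t θ
      pc := fun a z => L_pc d K Cb N lam gd b k hg hN hl hp ζ hζ a z
      core := fun t θ ht hθ => L_core d K Cb N lam gd b k hg hN hl hp ζ hζ t θ ht hθ }
  obtain ⟨-, h2, h3, h4⟩ := L_C2 d K Cb N lam gd b k hg hN hl hp ζ hζ a
  exact
    { X2 := h3
      P2 := h2
      F2 := h4
      rel := fun w v => L_rel d K Cb N lam gd b k hg hN hl hp ζ hζ Γ hΓ a w v }

theorem local_thm : LocalThm := by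
  intro Cb
  obtain ⟨K, d1, hK, hd1, hg⟩ := ex_good
  have key : ∀ d : ℝ, ∃ C : ℝ, (0 < d ∧ d ≤ d1) → ∀ (N lam : ℝ) (gd : Set ℤ) (b k : ℝ → ℝ),
      1 ≤ N → 0 < lam → lam ≤ 1 → Prof Cb N gd b k →
      ∃ (G : ℝ × ℝ × ℝ × ℝ → ℝ) (X P F : ℝ → ℝ × ℝ × ℝ → ℝ),
        LStage N lam (7 * Real.exp (1 / d) * lam) (3 * Real.exp (1 / d) * lam / N)
          (max Cb 1 * K * d + C / N) gd G X P F := by
    intro d
    by_cases h : 0 < d ∧ d ≤ d1
    · obtain ⟨C, hC⟩ := local_key Cb K d (hg d h.1 h.2)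
      exact ⟨C, fun _ => hC⟩
    · exact ⟨0, fun h' => absurd h' h⟩
  choose Cd hCd using key
  refine ⟨d1, max Cb 1 * K, Cd, hd1, ?_, ?_⟩
  · exact mul_pos (lt_of_lt_of_le zero_lt_one (le_max_right _ _)) hK
  · intro d hd hdd
    exact hCd d ⟨hd, hdd⟩

end H867.FB
end
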